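import Pool.Agent.H701Z.Fiid.Sys

set_option autoImplicit false

namespace Pool.Agent.H701Z.Fiid

open MeasureTheory
open scoped ENNReal

lemma lintegral_card {Ω α : Type*} [MeasurableSpace Ω] [Countable α] (P : Measure Ω)
    (W : Ω → Finset α) (hW : ∀ p, MeasurableSet {ω | p ∈ W ω}) :
    ∫⁻ ω, ((W ω).card : ℝ≥0∞) ∂P = ∑' p, P {ω | p ∈ W ω} := by
  classical
  have h1 : ∀ ω, ((W ω).card : ℝ≥0∞) = ∑' p, Set.indicator {ω | p ∈ W ω} 1 ω := by
    intro ω
    rw [tsum_eq_sum (s := W ω)]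
    · rw [Finset.sum_congr rfl (g := fun _ => (1 : ℝ≥0∞))]
      · simp
      · intro p hp
        simp [Set.indicator, hp]
    · intro p hp
      simp [Set.indicator, hp]
  simp_rw [h1]
  rw [lintegral_tsum]
  · congr 1
    ext p
    rw [lintegral_indicator_one (hW p)]
  · intro p
    exact (measurable_one.indicator (hW p)).aemeasurable

lemma measurable_finset {Ω α : Type*} [MeasurableSpace Ω] [Countable α]
    (W : Ω → Finset α) (hW : ∀ p, MeasurableSet {ω | p ∈ W ω}) :
    @Measurable Ω (Finset α) _ ⊤ W := by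
  let _i : MeasurableSpace (Finset α) := ⊤
  refine measurable_to_countable' fun T => ?_
  have : W ⁻¹' {T} = ⋂ p, {ω | p ∈ W ω ↔ p ∈ T} := by
    ext ω
    simp [Finset.ext_iff]
  rw [this]
  refine MeasurableSet.iInter fun p => ?_
  by_cases hp : p ∈ T
  · simpa [hp] using hW p
  · simp only [hp, iff_false]
    exact (hW p).compl

section
variable {Γ Ω J : Type*} [Group Γ] [MulAction Γ Ω]

open Classical in
/-- greedy allocation -/
noncomputable def greedy (e : ℕ → Γ × J) (n : Ω → ℕ) (S : J → Set Ω) : ℕ → Ω → Finset (Γ × J)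
  | 0 => fun _ => ∅
  | k + 1 => fun ω =>
    if (greedy e n S k ω).card < n ω ∧ (e k).1 • ω ∈ S (e k).2 ∧
        ¬ ∃ γ : Γ, (γ, (e k).2) ∈ greedy e n S k (γ⁻¹ • (e k).1 • ω)
    then insert (e k) (greedy e n S k ω) else greedy e n S k ω

variable (e : ℕ → Γ × J) (n : Ω → ℕ) (S : J → Set Ω)

lemma greedy_mono_succ (k : ℕ) (ω : Ω) : greedy e n S k ω ⊆ greedy e n S (k + 1) ω := by
  classical
  intro p hp
  simp only [greedy]
  split_ifs
  · simp [hp]
  · exact hp

lemma greedy_mono (ω : Ω) : Monotone fun k => greedy e n S k ω :=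
  monotone_nat_of_le_succ fun k => greedy_mono_succ e n S k ω

lemma greedy_card (k : ℕ) (ω : Ω) : (greedy e n S k ω).card ≤ n ω := by
  classical
  induction k with
  | zero => simp [greedy]
  | succ k ih =>
    simp only [greedy]
    split_ifs with h
    · exact (Finset.card_insert_le _ _).trans h.1
    · exact ih

lemma greedy_succ_mem {k : ℕ} {ω : Ω} {p : Γ × J} (hp : p ∈ greedy e n S (k + 1) ω) :
    p ∈ greedy e n S k ω ∨ (p = e k ∧ (e k).1 • ω ∈ S (e k).2 ∧
      ¬ ∃ γ : Γ, (γ, (e k).2) ∈ greedy e n S k (γ⁻¹ • (e k).1 • ω)) := by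
  classical
  simp only [greedy] at hp
  split_ifs at hp with h
  · rcases Finset.mem_insert.1 hp with rfl | hp
    · exact Or.inr ⟨rfl, h.2⟩
    · exact Or.inl hp
  · exact Or.inl hp

lemma greedy_mem (k : ℕ) (ω : Ω) : ∀ p ∈ greedy e n S k ω, p.1 • ω ∈ S p.2 := by
  induction k with
  | zero => simp [greedy]
  | succ k ih =>
    intro p hp
    rcases greedy_succ_mem e n S hp with h | ⟨rfl, h, -⟩
    · exact ih p h
    · exact h

lemma greedy_inj (k : ℕ) (ω : Ω) (g g' : Γ) : ∀ p ∈ greedy e n S k (g • ω),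
    ∀ p' ∈ greedy e n S k (g' • ω), p.1 * g = p'.1 * g' → p.2 = p'.2 → g = g' := by
  induction k generalizing g g' with
  | zero => simp [greedy]
  | succ k ih =>
    intro p hp p' hp' h1 h2
    rcases greedy_succ_mem e n S hp with h | ⟨rfl, -, h⟩
    · rcases greedy_succ_mem e n S hp' with h' | ⟨rfl, -, h'⟩
      · exact ih g g' p h p' h' h1 h2
      · exfalso
        refine h' ⟨p.1, ?_⟩
        rw [← mul_smul (e k).1, ← h1, mul_smul, inv_smul_smul, ← h2]
        exact h
    · rcases greedy_succ_mem e n S hp' with h' | ⟨rfl, -, h'⟩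
      · exfalso
        refine h ⟨p'.1, ?_⟩
        rw [← mul_smul (e k).1, h1, mul_smul, inv_smul_smul, h2]
        exact h'
      · exact mul_left_cancel h1

lemma greedy_stab (ω : Ω) : ∃ k0, ∀ k, greedy e n S k ω ⊆ greedy e n S k0 ω := by
  classical
  have hb : BddAbove (Set.range fun k => (greedy e n S k ω).card) :=
    ⟨n ω, by rintro _ ⟨k, rfl⟩; exact greedy_card e n S k ω⟩
  obtain ⟨k0, hk0⟩ := Nat.sSup_mem (Set.range_nonempty _) hb
  refine ⟨k0, fun k => ?_⟩
  have h1 : greedy e n S k0 ω ⊆ greedy e n S (max k k0) ω := greedy_mono e n S ω (le_max_right _ _)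
  have h2 : (greedy e n S (max k k0) ω).card ≤ (greedy e n S k0 ω).card := by
    have := le_csSup hb ⟨max k k0, rfl⟩
    simp only at hk0 this
    omega
  rw [Finset.eq_of_subset_of_card_le h1 h2]
  exact greedy_mono e n S ω (le_max_left _ _)

lemma greedy_meas [Countable Γ] [Countable J] [MeasurableSpace Ω]
    (hm : ∀ γ : Γ, Measurable fun ω : Ω => γ • ω) (hn : Measurable n)
    (hS : ∀ j, MeasurableSet (S j)) (k : ℕ) :
    ∀ p, MeasurableSet {ω | p ∈ greedy e n S k ω} := by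
  classical
  let _i : MeasurableSpace (Finset (Γ × J)) := ⊤
  suffices h : Measurable (greedy e n S k) from fun p =>
    h (t := {T | p ∈ T}) trivial
  induction k with
  | zero => exact measurable_const
  | succ k ih =>
    simp only [greedy]
    refine Measurable.ite ?_ ?_ ih
    · refine MeasurableSet.inter (s₁ := {ω | (greedy e n S k ω).card < n ω}) ?_
        (MeasurableSet.inter (s₁ := {ω | (e k).1 • ω ∈ S (e k).2}) (hm _ (hS _)) ?_)
      · exact measurableSet_lt ((measurable_from_top (f := Finset.card)).comp ih) hn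
      · refine MeasurableSet.compl (s := {ω | ∃ γ : Γ, (γ, (e k).2) ∈
          greedy e n S k (γ⁻¹ • (e k).1 • ω)}) ?_
        rw [Set.ofPred_exists]
        refine MeasurableSet.iUnion fun γ => ?_
        exact (ih.comp ((hm γ⁻¹).comp (hm (e k).1))) (t := {T | (γ, (e k).2) ∈ T}) trivial
    · exact (measurable_from_top (f := fun T => insert (e k) T)).comp ih

end

lemma used_le {Γ Ω J : Type*} [Group Γ] [Countable Γ] [MeasurableSpace Ω] [MulAction Γ Ω]
    [Fintype J] (P : Measure Ω)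
    (hinv : ∀ γ : Γ, MeasurePreserving (fun ω : Ω => γ • ω) P P)
    (W : Ω → Finset (Γ × J)) (hW : ∀ p, MeasurableSet {ω | p ∈ W ω}) :
    ∑ j, P {ω | ∃ γ : Γ, (γ, j) ∈ W (γ⁻¹ • ω)} ≤ ∫⁻ ω, ((W ω).card : ℝ≥0∞) ∂P := by
  rw [lintegral_card P W hW, ENNReal.tsum_prod', ENNReal.tsum_comm, tsum_fintype]
  refine Finset.sum_le_sum fun j _ => ?_
  rw [Set.ofPred_exists]
  refine (measure_iUnion_le _).trans (le_of_eq ?_)
  congr 1
  ext γ
  exact (hinv γ⁻¹).measure_preimage (s := {ω | (γ, j) ∈ W ω}) (hW _).nullMeasurableSet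

theorem alloc {Γ Ω J : Type*} [Group Γ] [Countable Γ] [MeasurableSpace Ω] [MulAction Γ Ω]
    [Fintype J] (P : Measure Ω) [IsProbabilityMeasure P]
    (hinv : ∀ γ : Γ, MeasurePreserving (fun ω : Ω => γ • ω) P P)
    (herg : ∀ E : Set Ω, MeasurableSet E → (∀ γ : Γ, ∀ ω ∈ E, γ • ω ∈ E) → P E = 0 ∨ P Eᶜ = 0)
    (n : Ω → ℕ) (hn : Measurable n) (S : J → Set Ω) (hS : ∀ j, MeasurableSet (S j))
    (hlt : ∫⁻ ω, n ω ∂P < ∑ j, P (S j)) :
    ∃ W : Ω → Finset (Γ × J), (∀ p, MeasurableSet {ω | p ∈ W ω}) ∧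
      (∀ ω, ∀ p ∈ W ω, p.1 • ω ∈ S p.2) ∧
      (∀ (ω : Ω) (g g' : Γ), ∀ p ∈ W (g • ω), ∀ p' ∈ W (g' • ω),
        p.1 * g = p'.1 * g' → p.2 = p'.2 → g = g') ∧
      (∀ ω, (W ω).card ≤ n ω) ∧ ∀ᵐ ω ∂P, (W ω).card = n ω := by
  classical
  rcases isEmpty_or_nonempty J with hJ | hJ
  · simp at hlt
  obtain ⟨e, he⟩ := exists_surjective_nat (Γ × J)
  choose k0 hk0 using greedy_stab e n S
  set W : Ω → Finset (Γ × J) := fun ω => greedy e n S (k0 ω) ω with hWdef
  have hmem : ∀ ω p, p ∈ W ω ↔ ∃ k, p ∈ greedy e n S k ω := fun ω p =>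
    ⟨fun h => ⟨_, h⟩, fun ⟨k, h⟩ => hk0 ω k h⟩
  have hm : ∀ γ : Γ, Measurable fun ω : Ω => γ • ω := fun γ => (hinv γ).measurable
  have hW : ∀ p, MeasurableSet {ω | p ∈ W ω} := by
    intro p
    simp_rw [hmem]
    rw [Set.ofPred_exists]
    exact MeasurableSet.iUnion fun k => greedy_meas e n S hm hn hS k p
  have hcard : ∀ ω, (W ω).card ≤ n ω := fun ω => greedy_card e n S _ ω
  refine ⟨W, hW, fun ω => greedy_mem e n S _ ω, ?_, hcard, ?_⟩
  · intro ω g g' p hp p' hp'
    exact greedy_inj e n S (max (k0 (g • ω)) (k0 (g' • ω))) ω g g' p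
      (greedy_mono e n S _ (le_max_left _ _) hp) p' (greedy_mono e n S _ (le_max_right _ _) hp')
  · let _i : MeasurableSpace (Finset (Γ × J)) := ⊤
    have hWm : Measurable W := measurable_finset W hW
    have hBad : MeasurableSet {ω | (W ω).card < n ω} :=
      measurableSet_lt ((measurable_from_top (f := Finset.card)).comp hWm) hn
    set E : Set Ω := {ω | ∃ g : Γ, (W (g • ω)).card < n (g • ω)} with hE
    have hEm : MeasurableSet E := by
      rw [hE, Set.ofPred_exists]
      exact MeasurableSet.iUnion fun g => hm g hBad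
    rcases herg E hEm (by
      rintro γ ω ⟨g, hg⟩
      exact ⟨g * γ⁻¹, by rwa [mul_smul, inv_smul_smul]⟩) with h0 | h0
    · rw [ae_iff]
      refine measure_mono_null ?_ h0
      intro ω hω
      exact ⟨1, by rw [one_smul]; exact lt_of_le_of_ne (hcard ω) hω⟩
    · exfalso
      refine absurd hlt (not_lt.2 ?_)
      calc ∑ j, P (S j) ≤ ∑ j, P {ω | ∃ γ : Γ, (γ, j) ∈ W (γ⁻¹ • ω)} := by
            refine Finset.sum_le_sum fun j _ => ?_
            refine measure_mono_ae ?_
            have : ∀ᵐ ω ∂P, ω ∈ E := h0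
            filter_upwards [this] with ω hω hS'
            obtain ⟨g, hg⟩ := hω
            obtain ⟨k, hk⟩ := he (g⁻¹, j)
            by_cases hu : ∃ γ : Γ, (γ, (e k).2) ∈ greedy e n S k (γ⁻¹ • (e k).1 • g • ω)
            · obtain ⟨γ, hγ⟩ := hu
              rw [hk] at hγ
              simp only [inv_smul_smul] at hγ
              exact ⟨γ, (hmem _ _).2 ⟨k, hγ⟩⟩
            · refine ⟨g⁻¹, (hmem _ _).2 ⟨k + 1, ?_⟩⟩
              rw [inv_inv]
              simp only [greedy]
              rw [if_pos]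
              · rw [hk]; exact Finset.mem_insert_self _ _
              · refine ⟨lt_of_le_of_lt (Finset.card_le_card (hk0 _ k)) hg, ?_, hu⟩
                rw [hk]
                simp only [inv_smul_smul]
                exact hS'
        _ ≤ ∫⁻ ω, ((W ω).card : ℝ≥0∞) ∂P := used_le P hinv W hW
        _ ≤ ∫⁻ ω, n ω ∂P := lintegral_mono fun ω => Nat.cast_le.2 (hcard ω)

end Pool.Agent.H701Z.Fiid
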