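import Pool.Agent.H701Z.Fiid.Iterate

set_option autoImplicit false

namespace Pool.Agent.H701Z.Fiid

open MeasureTheory

theorem core_amen {Γ Ω : Type*} [Group Γ] [DecidableEq Γ] [Countable Γ] [Infinite Γ]
    [MeasurableSpace Ω] [MulAction Γ Ω] {P : Measure Ω} {S : Set Ω} (hB : Base Γ P S)
    (hF : Folner Γ) (L : LCL Γ) (hL : SolvBits L) : SolvBase P S L := by
  classical
  have := hB.prob
  obtain ⟨f, hf, hsol⟩ := hL
  have hm : ∀ γ : Γ, Measurable fun ω : Ω => γ • ω := fun γ => (hB.inv γ).measurable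
  have hsm : ∀ γ : Γ, Measurable fun ζ : Ω × Bits Γ => γ • ζ := fun γ => (hB.invQ γ).measurable
  let _i : MeasurableSpace (Option (Fin L.k)) := ⊤
  obtain ⟨δ0, hδ0, hit⟩ := iterate (A := Option (Fin L.k)) hB hF none
  set up : Bits Γ → Bits Γ := fun z p => z (p.1, p.2 + 1) with hup
  have hupm : MeasurePreserving up (bitsM Γ) (bitsM Γ) :=
    ⟨measurable_to_bits fun p => measurable_bits_apply _,
      Measure.map_infinitePi_infinitePi_of_inj (P := fun _ : Γ × ℕ => fair)
        (f := fun p : Γ × ℕ => (p.1, p.2 + 1)) (by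
          intro p q h
          simp only [Prod.mk.injEq, add_left_inj] at h
          exact Prod.ext h.1 h.2)⟩
  set σ : Ω × Bits Γ → Fin L.k := fun ζ => f (up ζ.2) with hσ
  have hσm : Measurable σ := hf.comp (hupm.measurable.comp measurable_snd)
  have hσs : ∀ᵐ ζ ∂(P.prod (bitsM Γ)), ∀ g : Γ, (fun δ : L.F => σ (((δ : Γ) * g) • ζ)) ∈ L.P := by
    refine ae_all_iff.2 fun g => ?_
    have h1 := (hB.invQ g).quasiMeasurePreserving.ae
      ((hupm.comp measurePreserving_snd).quasiMeasurePreserving.ae hsol)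
    filter_upwards [h1] with ζ hζ
    simp only [mul_smul]
    exact hζ
  obtain ⟨Uc, cen, hcenU, hcen, hIntp⟩ :=
    hB.tiling hF (Finset.image₂ (fun s t => s * t⁻¹) L.F L.F) δ0 hδ0
  obtain ⟨Out, hOut⟩ : ∃ Out : Set Ω,
    Out = {ω | ∃ s ∈ Finset.image₂ (fun s t => s * t⁻¹) L.F L.F, cen (s • ω) * s ≠ cen ω} :=
    ⟨_, rfl⟩
  have hcenm : ∀ s : Γ, ∀ γ, MeasurableSet {ω | cen (s • ω) * s = γ} := fun s γ => by
    have : {ω | cen (s • ω) * s = γ} = (fun ω => s • ω) ⁻¹' {ω | cen ω = γ * s⁻¹} := by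
      ext ω; simp [eq_mul_inv_iff_mul_eq]
    rw [this]
    exact hm s (hcen _)
  have hOutm : MeasurableSet Out := by
    have : Out = ⋃ s ∈ Finset.image₂ (fun s t => s * t⁻¹) L.F L.F,
        ⋃ γ, {ω | cen ω = γ} ∩ {ω | cen (s • ω) * s = γ}ᶜ := by
      rw [hOut]
      ext ω
      simp only [Set.mem_setOf_eq, Set.mem_iUnion, Set.mem_inter_iff, Set.mem_compl_iff,
        exists_eq_left', exists_prop]
    rw [this]
    exact Finset.measurableSet_biUnion _ fun s _ => MeasurableSet.iUnion fun γ =>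
      (hcen γ).inter (hcenm s γ).compl
  obtain ⟨T, hT⟩ : ∃ T : Ω → Finset Γ,
    T = fun ω => (Uc.image fun u => u⁻¹).filter fun h => cen (h • ω) * h = 1 := ⟨_, rfl⟩
  have hTmem : ∀ ω h, h ∈ T ω ↔ cen (h • ω) * h = 1 := by
    intro ω h
    simp only [hT, Finset.mem_filter, and_iff_right_iff_imp]
    intro h1
    exact Finset.mem_image.2 ⟨_, hcenU (h • ω), (eq_inv_of_mul_eq_one_right h1).symm⟩
  have hTm : ∀ h, MeasurableSet {ω | h ∈ T ω} := fun h => by
    simp only [hTmem]
    exact hcenm h 1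
  set F0 : Ω × Bits Γ → Option (Fin L.k) := fun ζ => if ζ.1 ∈ Out then some (σ ζ) else none
    with hF0
  have hF0m : Measurable F0 := Measurable.ite (measurable_fst hOutm)
    ((measurable_of_countable some).comp hσm) measurable_const
  have hfill : ∀ (T0 : Finset Γ) (b : T0 → Option (Fin L.k)), ∃ τ : Γ → Fin L.k,
      (∃ τ : Γ → Fin L.k, (∀ (h : T0) s, b h = some s → τ h = s) ∧
        ∀ g : Γ, (∀ δ ∈ L.F, δ * g ∈ T0) → (fun δ : L.F => τ (δ * g)) ∈ L.P) →
      (∀ (h : T0) s, b h = some s → τ h = s) ∧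
        ∀ g : Γ, (∀ δ ∈ L.F, δ * g ∈ T0) → (fun δ : L.F => τ (δ * g)) ∈ L.P := by
    intro T0 b
    by_cases h : ∃ τ : Γ → Fin L.k, (∀ (h : T0) s, b h = some s → τ h = s) ∧
        ∀ g : Γ, (∀ δ ∈ L.F, δ * g ∈ T0) → (fun δ : L.F => τ (δ * g)) ∈ L.P
    · obtain ⟨τ, hτ⟩ := h
      exact ⟨τ, fun _ => hτ⟩
    · exact ⟨fun _ => f 0, fun h' => absurd h' h⟩
  choose fill hfill using hfill
  set lab : Ω → (Γ → Option (Fin L.k)) → Γ → Γ → Fin L.k := fun ω y C =>
    fill (T (C • ω)) fun h => y (h * C) with hlab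
  obtain ⟨G, hGm, hGd, hG⟩ := hit F0 hF0m
    (fun ω z z' _ h => by
      have : up z = up z' := funext fun p => h p.1 p.2
      simp only [hF0, hσ, this])
    (by
      refine le_trans (measureReal_mono (s₂ := Prod.fst ⁻¹' Out) ?_) ?_
      · intro ζ hζ
        by_contra h
        exact hζ (if_neg h)
      · simp only [Measure.real, prod_fst_measure, hOut]
        exact hIntp)
    (Finset.image₂ (fun s t => s * t) (Uc.image fun u => u⁻¹)
      (Finset.image₂ (fun s t => s * t) Uc L.F))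
    (fun ω y => (fun δ : L.F => lab ω y (cen ((δ : Γ) • ω) * δ) (cen ((δ : Γ) • ω))⁻¹) ∈ L.P)
    (by
      intro ω y y' h hy
      convert hy using 2 with δ
      simp only [hlab]
      congr 1
      funext h'
      refine (h _ (Finset.mem_image₂_of_mem ?_ (Finset.mem_image₂_of_mem (hcenU _) δ.2))).symm
      have := h'.2
      simp only [hT] at this
      exact (Finset.mem_filter.1 this).1)
    (by
      filter_upwards [hσs] with ζ hζ
      have hsp := fun C : Γ => hfill (T (C • ζ.1)) (fun h => F0 (((h : Γ) * C) • ζ))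
        ⟨fun h => σ ((h * C) • ζ), fun h s hs => by
          simp only [hF0] at hs
          split_ifs at hs
          exact Option.some.inj hs, fun g _ => by
          simp only [mul_assoc]
          exact hζ (g * C)⟩
      have hmem : ∀ δ : Γ, (cen (δ • ζ.1))⁻¹ ∈ T ((cen (δ • ζ.1) * δ) • ζ.1) := fun δ => by
        rw [hTmem]; simp [mul_smul]
      by_cases hall : ∃ C : Γ, ∀ δ ∈ L.F, cen (δ • ζ.1) * δ = C
      · obtain ⟨C, hC⟩ := hall
        have h1 : ∀ δ ∈ L.F, (cen (δ • ζ.1))⁻¹ = δ * C⁻¹ := fun δ hδ => by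
          rw [← hC δ hδ]; simp
        have h2 := (hsp C).2 C⁻¹ fun δ hδ => by
          rw [← h1 δ hδ, ← hC δ hδ]; exact hmem δ
        convert h2 using 2 with δ
        rw [hC δ δ.2, h1 δ δ.2]
      · convert hζ 1 using 2 with δ
        refine (hsp _).1 ⟨_, hmem δ⟩ _ ?_
        have h1 : (δ : Γ) • ζ.1 ∈ Out := by
          by_contra h
          refine hall ⟨cen ((δ : Γ) • ζ.1) * δ, fun δ' hδ' => ?_⟩
          simp only [hOut, Set.mem_setOf_eq, not_exists, not_and, not_not] at h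
          have := h _ (Finset.mem_image₂_of_mem hδ' δ.2)
          rw [← this]
          simp [mul_smul, mul_assoc]
        simp only [hF0, inv_mul_cancel_left, mul_one]
        exact if_pos h1)
  refine ⟨fun ζ => lab ζ.1 (fun g => G (g • ζ)) (cen ζ.1) (cen ζ.1)⁻¹, ?_, ?_, ?_⟩
  · refine meas_switch (fun ζ : Ω × Bits Γ => cen ζ.1) (fun γ => measurable_fst (hcen γ))
      (fun c ζ => lab ζ.1 (fun g => G (g • ζ)) c c⁻¹) fun c => ?_
    refine meas_switch (fun ζ : Ω × Bits Γ => T (c • ζ.1))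
      (fun T0 => measurable_fst (hm c (measurable_finset T hTm (t := {T0}) trivial)))
      (fun T0 ζ => fill T0 (fun h => G (((h : Γ) * c) • ζ)) c⁻¹) fun T0 => ?_
    exact (measurable_of_finite fun b => fill T0 b c⁻¹).comp
      (measurable_pi_iff.2 fun h => hGm.comp (hsm _))
  · intro ω z z' h
    have : (fun g : Γ => G (g • (ω, z))) = fun g : Γ => G (g • (ω, z')) := funext fun g =>
      hGd (g • ω) (g • z) (g • z') fun g' hg' => h (g' * g) (by rwa [mul_smul])
    simp only [this]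
  · filter_upwards [hG] with ζ hζ
    convert hζ using 2 with δ
    simp only [hlab, Prod.smul_fst, mul_smul, mul_assoc]
    have key : ∀ (T1 T2 : Finset Γ) (y : Γ → Option (Fin L.k)), T1 = T2 →
        fill T1 (fun h => y h) = fill T2 (fun h => y h) := by
      rintro _ _ _ rfl; rfl
    exact congrFun (key _ _ (fun h => G (h • cen ((δ : Γ) • ζ.1) • (δ : Γ) • ζ))
      (by rw [mul_smul])) _

end Pool.Agent.H701Z.Fiid
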