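import Pool.Agent.H701Z.Fiid.ForestDef

set_option autoImplicit false

namespace Pool.Agent.H701Z.Fiid

open MeasureTheory

/-- two translation invariant probability measures on a finite group agree -/
lemma amp_finite_unique {G : Type*} [AddCommGroup G] [Fintype G] [MeasurableSpace G]
    [MeasurableSingletonClass G] (μ ν : Measure G) [IsProbabilityMeasure μ]
    [IsProbabilityMeasure ν] (hμ : ∀ a, μ {a} = μ {0}) (hν : ∀ a, ν {a} = ν {0}) : μ = ν := by
  have key : ∀ (ρ : Measure G) [IsProbabilityMeasure ρ], (∀ a, ρ {a} = ρ {0}) →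
      (Fintype.card G : ENNReal) * ρ {0} = 1 := by
    intro ρ _ h
    have h1 : ∑ a : G, ρ {a} = 1 := by
      rw [sum_measure_singleton]
      simp
    rw [Finset.sum_congr rfl (fun a _ => h a)] at h1
    simpa using h1
  have h1 := key μ hμ
  have h2 := key ν hν
  have hc : (Fintype.card G : ENNReal) ≠ 0 := by
    exact_mod_cast Fintype.card_ne_zero
  have hc' : (Fintype.card G : ENNReal) ≠ ⊤ := ENNReal.natCast_ne_top _
  have h0 : μ {0} = ν {0} := (ENNReal.mul_right_inj hc hc').1 (h1.trans h2.symm)
  exact Measure.ext_of_singleton fun a => by rw [hμ a, hν a, h0]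

lemma amp_fair_add (a : F2) : MeasurePreserving (fun x : F2 => x + a) fair fair := by
  refine ⟨measurable_of_countable _, Measure.ext_of_singleton fun b => ?_⟩
  rw [Measure.map_apply (measurable_of_countable _) (measurableSet_singleton _)]
  have : (fun x : F2 => x + a) ⁻¹' {b} = {b - a} := by
    ext x
    simp only [Set.mem_preimage, Set.mem_singleton_iff, eq_sub_iff_add_eq]
  rw [this, fair_singleton, fair_singleton]

lemma amp_fairPi_add {I : Type*} (a : I → F2) :
    MeasurePreserving (fun z : I → F2 => z + a) (fairPi I) (fairPi I) := by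
  refine ⟨measurable_pi_iff.2 fun i => ?_, ?_⟩
  · exact (measurable_of_countable (fun x : F2 => x + a i)).comp (measurable_pi_apply i)
  · have h := Measure.infinitePi_map_pi (fun _ : I => fair) (f := fun i (x : F2) => x + a i)
      (fun i => (amp_fair_add (a i)).measurable)
    simp only [(amp_fair_add _).map_eq] at h
    exact h

/-- an additive map from a group with an invariant probability measure which is onto on finite
sets of coordinates is measure preserving -/
theorem amp_lin_mp {G J : Type*} [AddCommGroup G] [MeasurableSpace G] (μ : Measure G)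
    [IsProbabilityMeasure μ] (hμ : ∀ a, MeasurePreserving (fun z : G => z + a) μ μ)
    (L : G →+ (J → F2)) (hL : Measurable L)
    (hs : ∀ (s : Finset J) (y : J → F2), ∃ z, ∀ j ∈ s, L z j = y j) :
    MeasurePreserving L μ (fairPi J) := by
  classical
  refine ⟨hL, ?_⟩
  refine (Measure.isProjectiveLimit_infinitePi (fun _ : J => fair)).unique ?_ |>.symm
  intro s
  have hm : Measurable (s.restrict ∘ L) := (Finset.measurable_restrict s).comp hL
  rw [Measure.map_map (Finset.measurable_restrict s) hL]
  have : IsProbabilityMeasure (Measure.map (s.restrict ∘ L) μ) :=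
    Measure.isProbabilityMeasure_map hm.aemeasurable
  refine amp_finite_unique _ _ ?_ ?_
  · intro y
    obtain ⟨z, hz⟩ := hs s (fun j => if h : j ∈ s then y ⟨j, h⟩ else 0)
    rw [Measure.map_apply hm (measurableSet_singleton _),
      Measure.map_apply hm (measurableSet_singleton _)]
    rw [← (hμ z).measure_preimage (hm (measurableSet_singleton y)).nullMeasurableSet]
    congr 1
    ext w
    simp only [Set.mem_preimage, Function.comp, Set.mem_singleton_iff, map_add]
    constructor
    · intro h
      funext j
      have := congrFun h j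
      simp only [Finset.restrict, Pi.add_apply, hz j j.2, j.2, dif_pos] at this
      simpa [Finset.restrict] using this
    · intro h
      funext j
      have := congrFun h j
      simp only [Finset.restrict, Pi.zero_apply] at this
      simp [Finset.restrict, hz j j.2, this]
  · intro y
    rw [← Set.univ_pi_singleton, ← Set.univ_pi_singleton, Measure.pi_pi, Measure.pi_pi]
    simp [fair_singleton]

theorem lin_mp {I J : Type*} (L : (I → F2) →+ (J → F2)) (hL : Measurable L)
    (hs : ∀ (s : Finset J) (y : J → F2), ∃ z, ∀ j ∈ s, L z j = y j) :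
    MeasurePreserving L (fairPi I) (fairPi J) :=
  amp_lin_mp (fairPi I) amp_fairPi_add L hL hs

theorem forest_surj {V E : Type*} (tl hd : E → V) (good : Set E)
    (hgood : ∀ e ∈ good, ¬ Relation.ReflTransGen
      (fun u v => ∃ e', e' ≠ e ∧ e' ∈ good ∧
        ((tl e' = u ∧ hd e' = v) ∨ (tl e' = v ∧ hd e' = u))) (hd e) (tl e))
    (y : E → F2) : ∃ b : V → F2, ∀ e ∈ good, b (tl e) + b (hd e) = y e := by
  classical
  let C : E → V → Prop := fun e v => Relation.ReflTransGen
      (fun u v => ∃ e', e' ≠ e ∧ e' ∈ good ∧
        ((tl e' = u ∧ hd e' = v) ∨ (tl e' = v ∧ hd e' = u))) (hd e) v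
  let ind : E → V → F2 := fun e v => if C e v then 1 else 0
  have h1 : ∀ e ∈ good, ind e (tl e) + ind e (hd e) = 1 := by
    intro e he
    have a : ¬ C e (tl e) := hgood e he
    have b : C e (hd e) := Relation.ReflTransGen.refl
    simp [ind, a, b]
  have h2 : ∀ e, ∀ e' ∈ good, e' ≠ e → ind e (tl e') + ind e (hd e') = 0 := by
    intro e e' he' hne
    have : C e (tl e') ↔ C e (hd e') :=
      ⟨fun h => h.tail ⟨e', hne, he', Or.inl ⟨rfl, rfl⟩⟩,
        fun h => h.tail ⟨e', hne, he', Or.inr ⟨rfl, rfl⟩⟩⟩
    simp only [ind, this]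
    split_ifs
    · decide
    · simp
  let : TopologicalSpace F2 := ⊥
  have : DiscreteTopology F2 := ⟨rfl⟩
  have hcomp : IsCompact (Set.univ : Set (V → F2)) := isCompact_univ
  have := hcomp.inter_iInter_nonempty
    (fun e : good => {b : V → F2 | b (tl e) + b (hd e) = y e}) ?_ ?_
  · obtain ⟨b, -, hb⟩ := this
    exact ⟨b, fun e he => Set.mem_iInter.1 hb ⟨e, he⟩⟩
  · intro e
    have ha : Continuous fun p : F2 × F2 => p.1 + p.2 := continuous_of_discreteTopology
    have hb : Continuous fun b : V → F2 => (b (tl e), b (hd e)) :=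
      (continuous_apply (tl e)).prodMk (continuous_apply (hd e))
    have hc : Continuous fun b : V → F2 => b (tl e) + b (hd e) := ha.comp hb
    exact isClosed_eq hc continuous_const
  · intro u
    refine ⟨fun v => ∑ e ∈ u, y e * ind e v, Set.mem_univ _, ?_⟩
    simp only [Set.mem_iInter, Set.mem_ofPred_eq]
    intro e he
    rw [← Finset.sum_add_distrib, Finset.sum_eq_single e]
    · rw [← mul_add, h1 e e.2, mul_one]
    · intro e' _ hne
      rw [← mul_add, h2 e' e e.2 (fun h => hne (Subtype.ext h).symm), mul_zero]
    · intro h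
      exact absurd he h

/-- measurability of a map chosen by a countably valued measurable selector -/
lemma amp_meas_dep {α β γ : Type*} [MeasurableSpace α] [Countable β] [MeasurableSpace γ]
    (F : α → β) (hF : ∀ b, MeasurableSet {a | F a = b}) (G : β → α → γ)
    (hG : ∀ b, Measurable (G b)) : Measurable fun a => G (F a) a := by
  intro t ht
  have : (fun a => G (F a) a) ⁻¹' t = ⋃ b, ({a | F a = b} ∩ G b ⁻¹' t) := by
    ext a
    simp
  rw [this]
  exact MeasurableSet.iUnion fun b => (hF b).inter (hG b ht)

/-- Fubini for measure preserving maps -/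
lemma amp_mp_of_fiber {α β γ : Type*} [MeasurableSpace α] [MeasurableSpace β] [MeasurableSpace γ]
    (μ : Measure α) [IsProbabilityMeasure μ] (ν : Measure β) [SFinite ν] (ρ : Measure γ)
    (F : α × β → γ) (hF : Measurable F)
    (h : ∀ᵐ a ∂μ, Measure.map (fun b => F (a, b)) ν = ρ) : MeasurePreserving F (μ.prod ν) ρ := by
  refine ⟨hF, ?_⟩
  ext s hs
  rw [Measure.map_apply hF hs, Measure.prod_apply (hF hs)]
  have : ∀ᵐ a ∂μ, ν (Prod.mk a ⁻¹' (F ⁻¹' s)) = ρ s := by
    filter_upwards [h] with a ha
    have hm : Measurable fun b => F (a, b) := hF.comp measurable_prodMk_left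
    rw [← ha, Measure.map_apply hm hs]
    rfl
  rw [lintegral_congr_ae this]
  simp

end Pool.Agent.H701Z.Fiid
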