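import Pool.Agent.H701Z.Fiid.AmpLin

set_option autoImplicit false

namespace Pool.Agent.H701Z.Fiid

open MeasureTheory

section ops

variable {Γ Ω : Type*} [Group Γ] [MulAction Γ Ω]

open Classical in
/-- keep only the level `0` bits at the sites of `U` -/
noncomputable def ampMask (U : Set Ω) (ζ : Ω × Bits Γ) : Ω × Bits Γ :=
  (ζ.1, fun p => if p.2 = 0 ∧ p.1 • ζ.1 ∈ U then ζ.2 p else 0)

lemma ampMask_smul (U : Set Ω) (γ : Γ) (ζ : Ω × Bits Γ) :
    ampMask U (γ • ζ) = γ • ampMask U ζ := by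
  classical
  refine Prod.ext rfl ?_
  funext p
  have h : p.1 • (γ • ζ).1 = (p.1 * γ) • ζ.1 := smul_smul _ _ _
  exact if_congr (by rw [h]) rfl rfl

lemma ampMask_dep {α : Type*} {U : Set Ω} {H : Ω × Bits Γ → α} (h : DepG Γ U H)
    (ζ : Ω × Bits Γ) : H (ampMask U ζ) = H ζ := by
  refine h ζ.1 _ ζ.2 fun g hg => ?_
  simp [hg]

lemma ampMask_congr {U : Set Ω} (ω : Ω) (z z' : Bits Γ)
    (h : ∀ g : Γ, g • ω ∈ U → z (g, 0) = z' (g, 0)) :
    ampMask U (ω, z) = ampMask U (ω, z') := by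
  refine Prod.ext rfl ?_
  funext p
  obtain ⟨g, n⟩ := p
  simp only [ampMask]
  split_ifs with hp
  · obtain ⟨h1, h2⟩ := hp
    subst h1
    exact h g h2
  · rfl

open Classical in
/-- level `0` bits at sites of `U` from the first argument, all the other bits from the second -/
noncomputable def ampMerge (U : Set Ω) (ω : Ω) : Bits Γ × Bits Γ →+ Bits Γ where
  toFun w := fun p => if p.2 = 0 ∧ p.1 • ω ∈ U then w.1 p else w.2 p
  map_zero' := by
    funext p
    split_ifs <;> rfl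
  map_add' a b := by
    funext p
    change _ = (if p.2 = 0 ∧ p.1 • ω ∈ U then a.1 p else a.2 p) +
      (if p.2 = 0 ∧ p.1 • ω ∈ U then b.1 p else b.2 p)
    split_ifs <;> rfl

open Classical in
lemma ampMerge_apply (U : Set Ω) (ω : Ω) (w : Bits Γ × Bits Γ) (p : Γ × ℕ) :
    ampMerge U ω w p = if p.2 = 0 ∧ p.1 • ω ∈ U then w.1 p else w.2 p := rfl

open Classical in
/-- the payload bits of the vertices -/
noncomputable def ampB (V : Set Ω) (pay : Ω → Γ) (ω : Ω) : Bits Γ →+ (Γ → F2) where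
  toFun z := fun g => if g • ω ∈ V then z (pay (g • ω) * g, 0) else 0
  map_zero' := by
    funext g
    split_ifs <;> rfl
  map_add' a b := by
    funext g
    change _ = (if g • ω ∈ V then a (pay (g • ω) * g, 0) else 0) +
      (if g • ω ∈ V then b (pay (g • ω) * g, 0) else 0)
    split_ifs
    · rfl
    · simp

open Classical in
lemma ampB_apply (V : Set Ω) (pay : Ω → Γ) (ω : Ω) (z : Bits Γ) (g : Γ) :
    ampB V pay ω z g = if g • ω ∈ V then z (pay (g • ω) * g, 0) else 0 := rfl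

lemma ampB_smul (V : Set Ω) (pay : Ω → Γ) (γ : Γ) (ω : Ω) (z : Bits Γ) :
    ampB V pay (γ • ω) (γ • z) = fun g => ampB V pay ω z (g * γ) := by
  funext g
  rw [ampB_apply, ampB_apply, Bits.smul_apply, smul_smul, mul_assoc]

/-- the sum of the bits at the two ends of the allotted edges -/
noncomputable def ampT {D : ℕ} (hd : Fin D → Ω × Bits Γ → Γ)
    (W : Ω × Bits Γ → Finset (Γ × Fin D)) (ξ : Ω × Bits Γ) : (Γ → F2) →+ (Γ → F2) where
  toFun b := fun g =>
    ∑ p ∈ W (g • ξ), (b (p.1 * g) + b (hd p.2 ((p.1 * g) • ξ) * (p.1 * g)))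
  map_zero' := by
    funext g
    simp
  map_add' a b := by
    funext g
    simp only [Pi.add_apply]
    rw [← Finset.sum_add_distrib]
    exact Finset.sum_congr rfl fun p _ => by abel

lemma ampT_apply {D : ℕ} (hd : Fin D → Ω × Bits Γ → Γ)
    (W : Ω × Bits Γ → Finset (Γ × Fin D)) (ξ : Ω × Bits Γ) (b : Γ → F2) (g : Γ) :
    ampT hd W ξ b g =
      ∑ p ∈ W (g • ξ), (b (p.1 * g) + b (hd p.2 ((p.1 * g) • ξ) * (p.1 * g))) := rfl

lemma ampT_smul {D : ℕ} (hd : Fin D → Ω × Bits Γ → Γ)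
    (W : Ω × Bits Γ → Finset (Γ × Fin D)) (ξ : Ω × Bits Γ) (b : Γ → F2) (γ : Γ) :
    ampT hd W (γ • ξ) (fun g => b (g * γ)) = fun g => ampT hd W ξ b (g * γ) := by
  funext g
  simp only [ampT_apply, smul_smul, mul_assoc]

/-- the output layers -/
noncomputable def ampOut {D : ℕ} (hd : Fin D → Ω × Bits Γ → Γ)
    (W : Bool → Ω × Bits Γ → Finset (Γ × Fin D)) (ξ : Ω × Bits Γ) :
    ℕ → ((Γ → F2) →+ (Γ → F2))
  | 0 => ampT hd (W true) ξ
  | n + 1 => (ampOut hd W ξ n).comp (ampT hd (W false) ξ)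

lemma ampOut_smul {D : ℕ} (hd : Fin D → Ω × Bits Γ → Γ)
    (W : Bool → Ω × Bits Γ → Finset (Γ × Fin D)) (ξ : Ω × Bits Γ) (γ : Γ) (n : ℕ) :
    ∀ b : Γ → F2, ampOut hd W (γ • ξ) n (fun g => b (g * γ)) =
      fun g => ampOut hd W ξ n b (g * γ) := by
  induction n with
  | zero => exact fun b => ampT_smul hd _ ξ b γ
  | succ n ih =>
    intro b
    simp only [ampOut, AddMonoidHom.comp_apply]
    rw [ampT_smul, ih]

open Classical in
/-- the index of the first vertex -/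
noncomputable def ampC (e : ℕ → Γ) (V : Set Ω) (ω : Ω) : ℕ :=
  if h : ∃ i, e i • ω ∈ V then Nat.find h else 0

lemma ampC_mem (e : ℕ → Γ) (V : Set Ω) (ω : Ω) (h : ∃ i, e i • ω ∈ V) :
    e (ampC e V ω) • ω ∈ V := by
  classical
  rw [ampC, dif_pos h]
  exact Nat.find_spec h

/-- spread the output layers of the vertices over all sites -/
noncomputable def ampPsi {D : ℕ} (hd : Fin D → Ω × Bits Γ → Γ)
    (W : Bool → Ω × Bits Γ → Finset (Γ × Fin D)) (e : ℕ → Γ) (V : Set Ω) (ξ : Ω × Bits Γ) :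
    (Γ → F2) →+ Bits Γ where
  toFun b := fun p =>
    ampOut hd W ξ (Nat.pair (ampC e V (p.1 • ξ.1)) p.2) b (e (ampC e V (p.1 • ξ.1)) * p.1)
  map_zero' := by
    funext p
    rw [map_zero]
    rfl
  map_add' a b := by
    funext p
    rw [map_add]
    rfl

lemma ampPsi_apply {D : ℕ} (hd : Fin D → Ω × Bits Γ → Γ)
    (W : Bool → Ω × Bits Γ → Finset (Γ × Fin D)) (e : ℕ → Γ) (V : Set Ω) (ξ : Ω × Bits Γ)
    (b : Γ → F2) (p : Γ × ℕ) : ampPsi hd W e V ξ b p =
    ampOut hd W ξ (Nat.pair (ampC e V (p.1 • ξ.1)) p.2) b (e (ampC e V (p.1 • ξ.1)) * p.1) := rfl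

lemma ampPsi_smul {D : ℕ} (hd : Fin D → Ω × Bits Γ → Γ)
    (W : Bool → Ω × Bits Γ → Finset (Γ × Fin D)) (e : ℕ → Γ) (V : Set Ω) (ξ : Ω × Bits Γ)
    (b : Γ → F2) (γ : Γ) :
    ampPsi hd W e V (γ • ξ) (fun g => b (g * γ)) = γ • ampPsi hd W e V ξ b := by
  funext p
  rw [Bits.smul_apply, ampPsi_apply, ampPsi_apply, ampOut_smul]
  simp only [Prod.smul_fst, smul_smul, mul_assoc]

/-- the algebraic heart: for a good point, `ampPsi` is onto on finite sets, using only the values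
at the vertices -/
lemma ampPsi_onto {D : ℕ} (hd : Fin D → Ω × Bits Γ → Γ) (Good : Fin D → Set (Ω × Bits Γ))
    (W : Bool → Ω × Bits Γ → Finset (Γ × Fin D)) (e : ℕ → Γ) (V : Set Ω) (ξ : Ω × Bits Γ)
    (tl_mem : ∀ i, ∀ z ∈ Good i, z.1 ∈ V) (hd_mem : ∀ i, ∀ z ∈ Good i, hd i z • z.1 ∈ V)
    (acyclic : ∀ (e : Γ × Fin D), e.1 • ξ ∈ Good e.2 →
      ¬ Relation.ReflTransGen
        (fun u v => ∃ e' : Γ × Fin D, e' ≠ e ∧ e'.1 • ξ ∈ Good e'.2 ∧
          ((e'.1 = u ∧ hd e'.2 (e'.1 • ξ) * e'.1 = v) ∨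
            (e'.1 = v ∧ hd e'.2 (e'.1 • ξ) * e'.1 = u)))
        (hd e.2 (e.1 • ξ) * e.1) e.1)
    (hWgood : ∀ k ζ, ∀ p ∈ W k ζ, p.1 • ζ ∈ Good p.2)
    (hWinj : ∀ (k k' : Bool) (g g' : Γ), ∀ p ∈ W k (g • ξ), ∀ p' ∈ W k' (g' • ξ),
      p.1 * g = p'.1 * g' → p.2 = p'.2 → k = k' ∧ g = g')
    (hWone : ∀ (k : Bool) (g : Γ), g • ξ.1 ∈ V → ∃ p, W k (g • ξ) = {p})
    (hC : ∀ g : Γ, ∃ i, e i • g • ξ.1 ∈ V)
    (s : Finset (Γ × ℕ)) (y : Γ × ℕ → F2) :
    ∃ b : Γ → F2, ∀ b' : Γ → F2, (∀ g : Γ, g • ξ.1 ∈ V → b' g = b g) →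
      ∀ p ∈ s, ampPsi hd W e V ξ b' p = y p := by
  classical
  -- `ampT` only reads vertices
  have hT : ∀ (k : Bool) (b b' : Γ → F2), (∀ g : Γ, g • ξ.1 ∈ V → b' g = b g) →
      ampT hd (W k) ξ b' = ampT hd (W k) ξ b := by
    intro k b b' h
    funext g
    rw [ampT_apply, ampT_apply]
    refine Finset.sum_congr rfl fun p hp => ?_
    have h1 := hWgood k _ p hp
    rw [smul_smul] at h1
    have h2 := tl_mem _ _ h1
    have h3 := hd_mem _ _ h1
    rw [Prod.smul_fst] at h2 h3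
    rw [smul_smul] at h3
    rw [h _ h2, h _ h3]
  have hO : ∀ (n : ℕ) (b b' : Γ → F2), (∀ g : Γ, g • ξ.1 ∈ V → b' g = b g) →
      ampOut hd W ξ n b' = ampOut hd W ξ n b := by
    intro n b b' h
    cases n with
    | zero => exact hT true b b' h
    | succ n =>
      simp only [ampOut, AddMonoidHom.comp_apply]
      rw [hT false b b' h]
  -- one doubling step
  have h2 : ∀ y : Bool → Γ → F2, ∃ b : Γ → F2, ∀ k g, g • ξ.1 ∈ V →
      ampT hd (W k) ξ b g = y k g := by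
    intro y
    let Y : Γ × Fin D → F2 := fun ε =>
      if h : ∃ q : Bool × Γ, (ε.1 * q.2⁻¹, ε.2) ∈ W q.1 (q.2 • ξ) then y h.choose.1 h.choose.2
      else 0
    obtain ⟨b, hb⟩ := forest_surj (fun ε : Γ × Fin D => ε.1)
      (fun ε => hd ε.2 (ε.1 • ξ) * ε.1) {ε | ε.1 • ξ ∈ Good ε.2} acyclic Y
    refine ⟨b, fun k g hg => ?_⟩
    obtain ⟨p, hp⟩ := hWone k g hg
    have hpm : p ∈ W k (g • ξ) := by simp [hp]
    have h1 := hWgood k _ p hpm
    rw [smul_smul] at h1
    rw [ampT_apply, hp, Finset.sum_singleton]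
    have := hb (p.1 * g, p.2) h1
    simp only at this
    rw [this]
    have hex : ∃ q : Bool × Γ, ((p.1 * g) * q.2⁻¹, p.2) ∈ W q.1 (q.2 • ξ) :=
      ⟨(k, g), by simpa using hpm⟩
    simp only [Y]
    rw [dif_pos hex]
    obtain ⟨e1, e2⟩ := hWinj _ _ _ _ _ hex.choose_spec _ hpm (by simp) rfl
    rw [e1, e2]
  -- many layers
  have h3 : ∀ (N : ℕ) (y : ℕ → Γ → F2), ∃ b : Γ → F2, ∀ n < N, ∀ g, g • ξ.1 ∈ V →
      ampOut hd W ξ n b g = y n g := by
    intro N
    induction N with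
    | zero => exact fun y => ⟨0, fun n hn => absurd hn (Nat.not_lt_zero n)⟩
    | succ N ih =>
      intro y
      obtain ⟨b', hb'⟩ := ih fun n => y (n + 1)
      obtain ⟨b, hb⟩ := h2 fun k => if k then y 0 else b'
      refine ⟨b, fun n hn g hg => ?_⟩
      cases n with
      | zero => simpa [ampOut] using hb true g hg
      | succ n =>
        simp only [ampOut, AddMonoidHom.comp_apply]
        rw [hO n b' _ (fun g hg => by simpa using hb false g hg)]
        exact hb' n (by omega) g hg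
  let ι : Γ × ℕ → ℕ × Γ := fun p =>
    (Nat.pair (ampC e V (p.1 • ξ.1)) p.2, e (ampC e V (p.1 • ξ.1)) * p.1)
  have hι : Function.Injective ι := by
    intro p q h
    simp only [ι, Prod.mk.injEq, Nat.pair_eq_pair] at h
    obtain ⟨⟨h1, h2⟩, h3⟩ := h
    rw [h1] at h3
    exact Prod.ext (mul_left_cancel h3) h2
  obtain ⟨b, hb⟩ := h3 (s.sup (fun p => (ι p).1) + 1)
    fun n g => Function.extend ι y 0 (n, g)
  refine ⟨b, fun b' hb' p hp => ?_⟩
  rw [ampPsi_apply, hO _ b b' hb']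
  have hlt : (ι p).1 < s.sup (fun p => (ι p).1) + 1 :=
    Nat.lt_succ_of_le (Finset.le_sup (f := fun p => (ι p).1) hp)
  have hv : (ι p).2 • ξ.1 ∈ V := by
    have := ampC_mem e V _ (hC p.1)
    rwa [smul_smul] at this
  have := hb _ hlt _ hv
  rw [show ((ι p).1, (ι p).2) = ι p from rfl, hι.extend_apply] at this
  exact this

end ops

section meas

variable {Γ Ω : Type*} [Group Γ] [Countable Γ] [MeasurableSpace Ω] [MulAction Γ Ω]

omit [Countable Γ] in
lemma amp_meas_smul (hΩ : ∀ γ : Γ, Measurable fun ω : Ω => γ • ω) (γ : Γ) :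
    Measurable fun ζ : Ω × Bits Γ => γ • ζ :=
  ((hΩ γ).comp measurable_fst).prodMk
    ((measurePreserving_bits_smul γ).measurable.comp measurable_snd)

omit [Countable Γ] in
lemma ampMask_meas (hΩ : ∀ γ : Γ, Measurable fun ω : Ω => γ • ω) {U : Set Ω}
    (hU : MeasurableSet U) : Measurable (ampMask (Γ := Γ) U) := by
  classical
  refine measurable_fst.prodMk (measurable_to_bits fun p => ?_)
  refine Measurable.ite ?_ ((measurable_bits_apply p).comp measurable_snd) measurable_const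
  exact (MeasurableSet.const _).inter (((hΩ p.1).comp measurable_fst) hU)

omit [Countable Γ] [MeasurableSpace Ω] in
lemma ampMerge_meas (U : Set Ω) (ω : Ω) : Measurable (ampMerge (Γ := Γ) U ω) := by
  classical
  refine measurable_to_bits fun p => ?_
  simp only [ampMerge_apply]
  split_ifs
  · exact (measurable_bits_apply p).comp measurable_fst
  · exact (measurable_bits_apply p).comp measurable_snd

lemma ampB_meas (hΩ : ∀ γ : Γ, Measurable fun ω : Ω => γ • ω) {V : Set Ω}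
    (hV : MeasurableSet V) {pay : Ω → Γ} (hpay : ∀ γ : Γ, MeasurableSet {ω | pay ω = γ})
    (g : Γ) : Measurable fun ζ : Ω × Bits Γ => ampB V pay ζ.1 ζ.2 g := by
  classical
  simp only [ampB_apply]
  refine Measurable.ite (((hΩ g).comp measurable_fst) hV) ?_ measurable_const
  exact amp_meas_dep (fun ζ : Ω × Bits Γ => pay (g • ζ.1))
    (fun γ => ((hΩ g).comp measurable_fst) (hpay γ)) (fun γ ζ => ζ.2 (γ * g, 0))
    fun γ => (measurable_bits_apply _).comp measurable_snd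

lemma ampT_meas {α : Type*} [MeasurableSpace α] (hΩ : ∀ γ : Γ, Measurable fun ω : Ω => γ • ω)
    {D : ℕ} {hd : Fin D → Ω × Bits Γ → Γ} (hhd : ∀ i (γ : Γ), MeasurableSet {z | hd i z = γ})
    {W : Ω × Bits Γ → Finset (Γ × Fin D)} (hW : ∀ p, MeasurableSet {ξ | p ∈ W ξ})
    {X : α → Ω × Bits Γ} (hX : Measurable X) {b : α → Γ → F2}
    (hb : ∀ g, Measurable fun a => b a g) (g : Γ) :
    Measurable fun a => ampT hd W (X a) (b a) g := by
  classical
  simp only [ampT_apply]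
  refine amp_meas_dep (fun a => W (g • X a)) (fun s => ?_)
    (fun s a => ∑ p ∈ s, (b a (p.1 * g) + b a (hd p.2 ((p.1 * g) • X a) * (p.1 * g))))
    fun s => ?_
  · have : {a | W (g • X a) = s} = ⋂ p, {a | p ∈ W (g • X a) ↔ p ∈ s} := by
      ext a
      simp [Finset.ext_iff]
    rw [this]
    refine MeasurableSet.iInter fun p => ?_
    have hm : MeasurableSet {a | p ∈ W (g • X a)} := ((amp_meas_smul hΩ g).comp hX) (hW p)
    by_cases hp : p ∈ s
    · simpa [hp] using hm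
    · simpa [hp, Set.compl_ofPred] using hm.compl
  · refine Finset.measurable_sum _ fun p _ => (hb _).add ?_
    exact amp_meas_dep (fun a => hd p.2 ((p.1 * g) • X a))
      (fun γ => ((amp_meas_smul hΩ _).comp hX) (hhd p.2 γ)) (fun γ a => b a (γ * (p.1 * g)))
      fun γ => hb _

lemma ampOut_meas {α : Type*} [MeasurableSpace α] (hΩ : ∀ γ : Γ, Measurable fun ω : Ω => γ • ω)
    {D : ℕ} {hd : Fin D → Ω × Bits Γ → Γ} (hhd : ∀ i (γ : Γ), MeasurableSet {z | hd i z = γ})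
    {W : Bool → Ω × Bits Γ → Finset (Γ × Fin D)} (hW : ∀ k p, MeasurableSet {ξ | p ∈ W k ξ})
    {X : α → Ω × Bits Γ} (hX : Measurable X) (n : ℕ) : ∀ {b : α → Γ → F2},
    (∀ g, Measurable fun a => b a g) → ∀ g : Γ,
    Measurable fun a => ampOut hd W (X a) n (b a) g := by
  induction n with
  | zero => exact fun hb g => ampT_meas hΩ hhd (hW true) hX hb g
  | succ n ih =>
    intro b hb g
    simp only [ampOut, AddMonoidHom.comp_apply]
    exact ih (fun g => ampT_meas hΩ hhd (hW false) hX hb g) g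

omit [Countable Γ] in
lemma ampC_meas (hΩ : ∀ γ : Γ, Measurable fun ω : Ω => γ • ω) (e : ℕ → Γ) {V : Set Ω}
    (hV : MeasurableSet V) (i : ℕ) : MeasurableSet {ω | ampC e V ω = i} := by
  classical
  have : {ω | ampC e V ω = i} = ({ω | e i • ω ∈ V} ∩ ⋂ j, ⋂ (_ : j < i), {ω | e j • ω ∈ V}ᶜ) ∪
      ({_ω | 0 = i} ∩ ⋂ j, {ω | e j • ω ∈ V}ᶜ) := by
    ext ω
    simp only [ampC, Set.mem_ofPred_eq, Set.mem_union, Set.mem_inter_iff, Set.mem_iInter,
      Set.mem_compl_iff]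
    split_ifs with h
    · rw [Nat.find_eq_iff]
      constructor
      · exact fun h' => Or.inl h'
      · rintro (h' | h')
        · exact h'
        · obtain ⟨j, hj⟩ := h
          exact absurd hj (h'.2 j)
    · constructor
      · exact fun h' => Or.inr ⟨h', fun j hj => h ⟨j, hj⟩⟩
      · rintro (h' | h')
        · exact absurd ⟨i, h'.1⟩ h
        · exact h'.1
  rw [this]
  refine MeasurableSet.union ((hΩ _ hV).inter ?_) ((MeasurableSet.const _).inter ?_)
  · exact MeasurableSet.iInter fun j => MeasurableSet.iInter fun _ => (hΩ _ hV).compl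
  · exact MeasurableSet.iInter fun j => (hΩ _ hV).compl

lemma ampPsi_meas {α : Type*} [MeasurableSpace α] (hΩ : ∀ γ : Γ, Measurable fun ω : Ω => γ • ω)
    {D : ℕ} {hd : Fin D → Ω × Bits Γ → Γ} (hhd : ∀ i (γ : Γ), MeasurableSet {z | hd i z = γ})
    {W : Bool → Ω × Bits Γ → Finset (Γ × Fin D)} (hW : ∀ k p, MeasurableSet {ξ | p ∈ W k ξ})
    (e : ℕ → Γ) {V : Set Ω} (hV : MeasurableSet V)
    {X : α → Ω × Bits Γ} (hX : Measurable X) {b : α → Γ → F2}
    (hb : ∀ g, Measurable fun a => b a g) :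
    Measurable fun a => ampPsi hd W e V (X a) (b a) := by
  refine measurable_to_bits fun p => ?_
  simp only [ampPsi_apply]
  exact amp_meas_dep (fun a => ampC e V (p.1 • (X a).1))
    (fun i => ((hΩ p.1).comp (measurable_fst.comp hX)) (ampC_meas hΩ e hV i))
    (fun i a => ampOut hd W (X a) (Nat.pair i p.2) (b a) (e i * p.1))
    fun i => ampOut_meas hΩ hhd hW hX _ hb _

end meas

end Pool.Agent.H701Z.Fiid
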