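import Pool.Agent.H701Z.Fiid.Sys

set_option autoImplicit false

namespace Pool.Agent.H701Z.Fiid

open MeasureTheory
open scoped ENNReal

lemma exists_sparse {Γ : Type*} [Group Γ] [Infinite Γ] (B : Set Γ) (hB : B.Finite) (N : ℕ) :
    ∃ K : Finset Γ, K.card = N ∧ ∀ s ∈ K, ∀ t ∈ K, s ≠ t → s * t⁻¹ ∉ B := by
  classical
  induction N with
  | zero => exact ⟨∅, rfl, by simp⟩
  | succ N ih =>
    obtain ⟨K, hK, h⟩ := ih
    have hfin : ((K : Set Γ) ∪ (⋃ t ∈ K, (fun b => b * t) '' B) ∪
        (⋃ t ∈ K, (fun b => b⁻¹ * t) '' B)).Finite :=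
      (K.finite_toSet.union (K.finite_toSet.biUnion fun _ _ => hB.image _)).union
        (K.finite_toSet.biUnion fun _ _ => hB.image _)
    obtain ⟨x, hx⟩ := hfin.exists_notMem
    simp only [Set.mem_union, Finset.mem_coe, Set.mem_iUnion, Set.mem_image, not_or, not_exists,
      not_and] at hx
    refine ⟨insert x K, by rw [Finset.card_insert_of_notMem hx.1.1, hK], ?_⟩
    intro s hs t ht hst hb
    rcases Finset.mem_insert.1 hs with hs' | hs' <;> rcases Finset.mem_insert.1 ht with ht' | ht'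
    · exact hst (hs'.trans ht'.symm)
    · exact hx.1.2 t ht' _ hb (by simp [hs'])
    · exact hx.2 s hs' _ hb (by simp [ht'])
    · exact h s hs' t ht' hst hb

variable {Γ Ω : Type*} [Group Γ] [MeasurableSpace Ω] [MulAction Γ Ω] {P : Measure Ω} {S : Set Ω}

lemma Base.invQ (hB : Base Γ P S) (γ : Γ) :
    MeasurePreserving (fun z : Ω × Bits Γ => γ • z) (P.prod (bitsM Γ)) (P.prod (bitsM Γ)) := by
  have := hB.prob
  exact (hB.inv γ).prod (measurePreserving_bits_smul γ)

theorem Base.erg [Infinite Γ] (hB : Base Γ P S) (E : Set (Ω × Bits Γ)) (hE : MeasurableSet E)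
    (hinv : ∀ γ : Γ, ∀ z ∈ E, γ • z ∈ E) :
    (P.prod (bitsM Γ)) E = 0 ∨ (P.prod (bitsM Γ)) Eᶜ = 0 := by
  have := hB.prob
  set Q := P.prod (bitsM Γ)
  have h : |Q.real E - (Q.real E) ^ 2| ≤ 0 := by
    refine le_of_forall_pos_le_add fun ε hε => ?_
    obtain ⟨g, hg⟩ := (hB.mix E hE ε hε).exists_notMem
    have : E ∩ (fun z => g • z) ⁻¹' E = E := Set.inter_eq_left.2 fun z hz => hinv g z hz
    simp only [Set.mem_setOf_eq, this, not_lt] at hg
    simpa using hg
  have h2 : Q.real E * (1 - Q.real E) = 0 := by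
    have := abs_nonpos_iff.1 h
    nlinarith
  rcases mul_eq_zero.1 h2 with h | h
  · left
    exact (measureReal_eq_zero_iff (by finiteness)).1 h
  · right
    rw [← measureReal_eq_zero_iff (by finiteness), probReal_compl_eq_one_sub hE]
    exact h

lemma prod_fst_measure (P : Measure Ω) [IsProbabilityMeasure P] (E : Set Ω) :
    (P.prod (bitsM Γ)) (Prod.fst ⁻¹' E) = P E := by
  have : (Prod.fst ⁻¹' E : Set (Ω × Bits Γ)) = E ×ˢ Set.univ := by
    ext z; simp
  rw [this, Measure.prod_prod]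
  simp

theorem Base.erg0 [Infinite Γ] (hB : Base Γ P S) (E : Set Ω) (hE : MeasurableSet E)
    (hinv : ∀ γ : Γ, ∀ z ∈ E, γ • z ∈ E) : P E = 0 ∨ P Eᶜ = 0 := by
  have := hB.prob
  have h := hB.erg (Prod.fst ⁻¹' E) (measurable_fst hE) fun γ z hz => hinv γ z.1 hz
  rwa [← Set.preimage_compl, prod_fst_measure, prod_fst_measure] at h

open Classical in
theorem Base.var [Infinite Γ] (hB : Base Γ P S) (E : Set (Ω × Bits Γ)) (hE : MeasurableSet E)
    (N : ℕ) (hN : 0 < N) :
    ∃ K : Finset Γ, K.card = N ∧ ∀ c : ℝ, 0 < c →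
      (P.prod (bitsM Γ)).real {z | c ≤ |((K.filter fun s => s • z ∈ E).card : ℝ)
        - N * (P.prod (bitsM Γ)).real E|} ≤ 2 * N / c ^ 2 := by
  have := hB.prob
  set Q := P.prod (bitsM Γ)
  have hNr : (0 : ℝ) < N := by exact_mod_cast hN
  obtain ⟨K, hK, hsp⟩ := exists_sparse _ (hB.mix E hE (1 / N) (by positivity)) N
  refine ⟨K, hK, fun c hc => ?_⟩
  set p := Q.real E with hp
  have hp0 : 0 ≤ p := measureReal_nonneg
  set A : Γ → Set (Ω × Bits Γ) := fun s => (fun z => s • z) ⁻¹' E with hA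
  have hAm : ∀ s, MeasurableSet (A s) := fun s => (hB.invQ s).measurable hE
  have hAp : ∀ s, Q.real (A s) = p := fun s => by
    simp only [Measure.real, hA, hp]
    rw [(hB.invQ s).measure_preimage hE.nullMeasurableSet]
  set X : Γ → Ω × Bits Γ → ℝ := fun s => (A s).indicator 1 with hX
  have hXi : ∀ s, Integrable (X s) Q := fun s => (integrable_const (1 : ℝ)).indicator (hAm s)
  have hXX : ∀ s t, (fun z => X s z * X t z) = (A s ∩ A t).indicator 1 := by
    intro s t
    ext z
    simp only [hX, Set.indicator, Set.mem_inter_iff]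
    by_cases h1 : z ∈ A s <;> by_cases h2 : z ∈ A t <;> simp [h1, h2]
  have hXXi : ∀ s t, Integrable (fun z => X s z * X t z) Q := fun s t => by
    rw [hXX]; exact (integrable_const (1 : ℝ)).indicator ((hAm s).inter (hAm t))
  have hcov : ∀ s t, ∫ z, (X s z - p) * (X t z - p) ∂Q = Q.real (A s ∩ A t) - p ^ 2 := by
    intro s t
    have : (fun z => (X s z - p) * (X t z - p)) =
        fun z => X s z * X t z - p * X s z - p * X t z + p ^ 2 := by
      ext z; ring
    rw [this, integral_add, integral_sub, integral_sub, integral_const_mul, integral_const_mul,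
      hXX]
    · simp only [hX]
      rw [integral_indicator_one ((hAm s).inter (hAm t)), integral_indicator_one (hAm s),
        integral_indicator_one (hAm t), hAp, hAp]
      simp
      ring
    · exact hXXi s t
    · exact (hXi s).const_mul _
    · exact (hXXi s t).sub ((hXi s).const_mul _)
    · exact (hXi t).const_mul _
    · exact ((hXXi s t).sub ((hXi s).const_mul _)).sub ((hXi t).const_mul _)
    · exact integrable_const _
  have hint : ∀ s t, Integrable (fun z => (X s z - p) * (X t z - p)) Q := by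
    intro s t
    have : (fun z => (X s z - p) * (X t z - p)) =
        fun z => X s z * X t z - p * X s z - p * X t z + p ^ 2 := by
      ext z; ring
    rw [this]
    exact (((hXXi s t).sub ((hXi s).const_mul _)).sub ((hXi t).const_mul _)).add
      (integrable_const _)
  have hsq : ∀ z, (((K.filter fun s => s • z ∈ E).card : ℝ) - N * p) ^ 2 =
      ∑ s ∈ K, ∑ t ∈ K, (X s z - p) * (X t z - p) := by
    intro z
    have : ((K.filter fun s => s • z ∈ E).card : ℝ) - N * p = ∑ s ∈ K, (X s z - p) := by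
      rw [Finset.sum_sub_distrib, Finset.card_filter]
      simp [hX, hA, Set.indicator, hK]
    rw [this, sq, Finset.sum_mul_sum]
  have hI : Integrable (fun z => ∑ s ∈ K, ∑ t ∈ K, (X s z - p) * (X t z - p)) Q :=
    integrable_finset_sum _ fun s _ => integrable_finset_sum _ fun t _ => hint s t
  have hV : ∫ z, ∑ s ∈ K, ∑ t ∈ K, (X s z - p) * (X t z - p) ∂Q ≤ 2 * N := by
    rw [integral_finset_sum _ fun s _ => integrable_finset_sum _ fun t _ => hint s t]
    have : ∀ s ∈ K, ∫ z, ∑ t ∈ K, (X s z - p) * (X t z - p) ∂Q ≤ 2 := by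
      intro s hs
      rw [integral_finset_sum _ fun t _ => hint s t]
      simp_rw [hcov]
      calc ∑ t ∈ K, (Q.real (A s ∩ A t) - p ^ 2)
          ≤ ∑ t ∈ K, ((if t = s then 1 else 0) + 1 / (N : ℝ)) := by
            refine Finset.sum_le_sum fun t ht => ?_
            split_ifs with hts
            · have : Q.real (A s ∩ A t) ≤ 1 := measureReal_le_one
              have : (0 : ℝ) < 1 / N := by positivity
              nlinarith [sq_nonneg p]
            · have h1 := hsp t ht s hs hts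
              simp only [Set.mem_setOf_eq, not_lt] at h1
              have h2 : Q.real (A s ∩ A t) = Q.real (E ∩ (fun z => (t * s⁻¹) • z) ⁻¹' E) := by
                simp only [Measure.real]
                rw [← (hB.invQ s).measure_preimage
                  (hE.inter ((hB.invQ (t * s⁻¹)).measurable hE)).nullMeasurableSet]
                congr 2
                ext z
                simp [hA, mul_smul]
              rw [h2]
              linarith [le_abs_self (Q.real (E ∩ (fun z => (t * s⁻¹) • z) ⁻¹' E) - p ^ 2)]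
        _ = 2 := by
            rw [Finset.sum_add_distrib, Finset.sum_ite_eq' K s, if_pos hs, Finset.sum_const, hK]
            simp only [nsmul_eq_mul]
            field_simp
            norm_num
    calc _ ≤ ∑ s ∈ K, (2 : ℝ) := Finset.sum_le_sum this
      _ = 2 * N := by simp [hK, mul_comm]
  have hM := mul_meas_ge_le_integral_of_nonneg (μ := Q)
    (f := fun z => ∑ s ∈ K, ∑ t ∈ K, (X s z - p) * (X t z - p))
    (Filter.Eventually.of_forall fun z => by
      show 0 ≤ ∑ s ∈ K, ∑ t ∈ K, (X s z - p) * (X t z - p)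
      rw [← hsq]; positivity) hI (c ^ 2)
  rw [le_div_iff₀ (by positivity), mul_comm]
  refine le_trans (mul_le_mul_of_nonneg_left (measureReal_mono ?_) (by positivity)) (hM.trans hV)
  intro z hz
  simp only [Set.mem_setOf_eq] at hz ⊢
  rw [← hsq, ← sq_abs (_ - _)]
  exact pow_le_pow_left₀ hc.le hz 2

theorem Base.hit [Infinite Γ] (hB : Base Γ P S) (V : Set Ω) (hV : MeasurableSet V)
    (hpos : 0 < P.real V) (R : ℕ) (hR : 0 < R) :
    ∃ γ : Fin R → Γ, P.real {ω | ∀ i, γ i • ω ∉ V} ≤ 2 / (R * (P.real V) ^ 2) := by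
  classical
  have := hB.prob
  obtain ⟨K, hK, h⟩ := hB.var (Prod.fst ⁻¹' V) (measurable_fst hV) R hR
  have hRr : (0 : ℝ) < R := by exact_mod_cast hR
  have hv : (P.prod (bitsM Γ)).real (Prod.fst ⁻¹' V) = P.real V := by
    simp only [Measure.real, prod_fst_measure]
  refine ⟨fun i => (K.equivFin.symm (i.cast hK.symm) : Γ), ?_⟩
  have h1 := h (R * P.real V) (by positivity)
  rw [hv] at h1
  have h2 : (2 : ℝ) * R / (R * P.real V) ^ 2 = 2 / (R * (P.real V) ^ 2) := by
    field_simp
  rw [h2] at h1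
  refine le_trans (le_of_eq_of_le ?_ (measureReal_mono (s₁ := Prod.fst ⁻¹'
    {ω | ∀ i : Fin R, (K.equivFin.symm (i.cast hK.symm) : Γ) • ω ∉ V}) ?_)) h1
  · simp only [Measure.real, prod_fst_measure]
  · intro z hz
    simp only [Set.mem_preimage, Set.mem_setOf_eq] at hz ⊢
    have : (K.filter fun s => s • z ∈ Prod.fst ⁻¹' V) = ∅ := by
      refine Finset.filter_eq_empty_iff.2 fun s hs => ?_
      have := hz ((K.equivFin ⟨s, hs⟩).cast hK)
      simpa using this
    simp only [Set.mem_preimage] at this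
    rw [this]
    simp only [Finset.card_empty, Nat.cast_zero, zero_sub, abs_neg]
    exact le_abs_self _

/-- finite colourings separating a point from finitely many of its translates -/
theorem Base.colour (hB : Base Γ P S) (E : Finset Γ) (ε : ℝ≥0∞) (hε : 0 < ε) :
    ∃ (n : ℕ) (κ : Ω → (Fin n → Bool)), Measurable κ ∧
      P {ω | ∃ g ∈ E, g ≠ 1 ∧ κ (g • ω) = κ ω} ≤ ε := by
  have := hB.prob
  obtain ⟨κ, hκ, hfree⟩ := hB.free
  set A : ℕ → Set Ω := fun n => {ω | ∃ g ∈ E, g ≠ 1 ∧ ∀ i < n, κ i (g • ω) = κ i ω} with hA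
  have hAm : ∀ n, MeasurableSet (A n) := by
    intro n
    have : A n = ⋃ g ∈ E, ⋃ (_ : g ≠ 1), ⋂ i, ⋂ (_ : i < n), {ω | κ i (g • ω) = κ i ω} := by
      ext ω; simp only [hA, Set.mem_setOf_eq, Set.mem_iUnion, Set.mem_iInter, exists_prop]
    rw [this]
    refine Finset.measurableSet_biUnion _ fun g _ => MeasurableSet.iUnion fun _ =>
      MeasurableSet.iInter fun i => MeasurableSet.iInter fun _ => ?_
    exact measurableSet_eq_fun ((hκ i).comp (hB.inv g).measurable) (hκ i)
  have hanti : Antitone A := by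
    rintro n m hnm ω ⟨g, hg, h1, h⟩
    exact ⟨g, hg, h1, fun i hi => h i (hi.trans_le hnm)⟩
  have hlim := tendsto_measure_iInter_atTop (μ := P) (fun n => (hAm n).nullMeasurableSet) hanti
    ⟨0, by finiteness⟩
  have h0 : P (⋂ n, A n) = 0 := by
    have : ∀ᵐ ω ∂P, ∀ g ∈ E, g ≠ 1 → ∃ n, κ n (g • ω) ≠ κ n ω := by
      rw [Finset.eventually_all]
      intro g _
      by_cases hg : g = 1
      · simp [hg]
      · filter_upwards [hfree g hg] with ω h _ using h
    rw [ae_iff] at this
    refine measure_mono_null ?_ this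
    intro ω hω h
    classical
    choose! m hm using h
    obtain ⟨g, hg, h1, h2⟩ := Set.mem_iInter.1 hω (E.sup m + 1)
    exact hm g hg h1 (h2 _ (Nat.lt_succ_of_le (Finset.le_sup hg)))
  rw [h0] at hlim
  obtain ⟨n, hn⟩ := (hlim.eventually (ge_mem_nhds hε)).exists
  refine ⟨n, fun ω i => κ i ω, measurable_pi_iff.2 fun i => hκ i, le_trans (measure_mono ?_) hn⟩
  rintro ω ⟨g, hg, h1, h⟩
  exact ⟨g, hg, h1, fun i hi => congrFun h ⟨i, hi⟩⟩

theorem Base.small [Infinite Γ] (hB : Base Γ P S) (ε : ℝ) (hε : 0 < ε) :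
    ∃ V : Set Ω, MeasurableSet V ∧ 0 < P.real V ∧ P.real V < ε := by
  classical
  have := hB.prob
  obtain ⟨N, hN⟩ := exists_nat_gt (1 / ε)
  obtain ⟨K, hK⟩ := Infinite.exists_subset_card_eq Γ N
  obtain ⟨n, κ, hκ, hle⟩ := hB.colour (Finset.image₂ (fun s t => s * t⁻¹) K K) 2⁻¹ (by simp)
  set G : Set Ω := {ω | ∃ g ∈ Finset.image₂ (fun s t => s * t⁻¹) K K, g ≠ 1 ∧ κ (g • ω) = κ ω}
    with hG
  have hGm : MeasurableSet G := by
    have : G = ⋃ g ∈ Finset.image₂ (fun s t => s * t⁻¹) K K, ⋃ (_ : g ≠ 1),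
        {ω | κ (g • ω) = κ ω} := by
      ext ω; simp only [hG, Set.mem_setOf_eq, Set.mem_iUnion, exists_prop]
    rw [this]
    exact Finset.measurableSet_biUnion _ fun g _ => MeasurableSet.iUnion fun _ =>
      measurableSet_eq_fun (hκ.comp (hB.inv g).measurable) hκ
  have hex : ∃ c, P (Gᶜ ∩ κ ⁻¹' {c}) ≠ 0 := by
    by_contra hc
    push Not at hc
    have h1 : P Gᶜ = 0 := by
      have : Gᶜ = ⋃ c, Gᶜ ∩ κ ⁻¹' {c} := by
        ext ω; simp
      rw [this]
      exact measure_iUnion_null hc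
    have h2 : P G = 1 := (prob_compl_eq_zero_iff hGm).1 h1
    rw [h2] at hle
    norm_num at hle
  obtain ⟨c, hc⟩ := hex
  have hVm : MeasurableSet (Gᶜ ∩ κ ⁻¹' {c}) := hGm.compl.inter (hκ (measurableSet_singleton c))
  refine ⟨_, hVm, ENNReal.toReal_pos hc (by finiteness), ?_⟩
  set V := Gᶜ ∩ κ ⁻¹' {c}
  have hdisj : (K : Set Γ).PairwiseDisjoint fun s => (fun ω : Ω => s • ω) ⁻¹' V := by
    intro s hs t ht hst
    refine Set.disjoint_left.2 fun ω h1 h2 => ?_
    refine h2.1 ⟨s * t⁻¹, Finset.mem_image₂_of_mem hs ht, by rwa [Ne, mul_inv_eq_one], ?_⟩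
    rw [mul_smul, inv_smul_smul]
    exact h1.2.trans h2.2.symm
  have h1 := measureReal_biUnion_finset (μ := P) hdisj
    (fun s _ => (hB.inv s).measurable hVm)
  have h2 : ∀ s ∈ K, P.real ((fun ω : Ω => s • ω) ⁻¹' V) = P.real V := fun s _ => by
    simp only [Measure.real]
    rw [(hB.inv s).measure_preimage hVm.nullMeasurableSet]
  rw [Finset.sum_congr rfl h2, Finset.sum_const, hK, nsmul_eq_mul] at h1
  have h3 : (N : ℝ) * P.real V ≤ 1 := h1 ▸ measureReal_le_one
  have h4 : 1 < N * ε := by rwa [div_lt_iff₀ hε] at hN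
  by_contra hcon
  push Not at hcon
  have : (0 : ℝ) ≤ N := by positivity
  nlinarith

end Pool.Agent.H701Z.Fiid
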