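import Pool.Agent.H701Z.Fiid.AmpOps
import Pool.Agent.H701Z.Fiid.Alloc
import Pool.Agent.H701Z.Fiid.Mixing

set_option autoImplicit false

namespace Pool.Agent.H701Z.Fiid

open MeasureTheory

lemma amp_bits_add {Γ : Type*} (a : Bits Γ) :
    MeasurePreserving (fun z : Bits Γ => z + a) (bitsM Γ) (bitsM Γ) :=
  amp_fairPi_add (I := Γ × ℕ) a

/-- two good edges for almost every vertex, chosen from the masked point -/
lemma amp_edges {Γ Ω : Type*} [Group Γ] [Countable Γ] [Infinite Γ]
    [MeasurableSpace Ω] [MulAction Γ Ω] (P : Measure Ω) (S : Set Ω) (hB : Base Γ P S)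
    {V U : Set Ω} {pay : Ω → Γ} {D : ℕ} {Good : Fin D → Set (Ω × Bits Γ)}
    {hd : Fin D → Ω × Bits Γ → Γ} (hF : Forest Γ P S V U pay D Good hd) :
    ∃ W : Bool → Ω × Bits Γ → Finset (Γ × Fin D), (∀ k p, MeasurableSet {ξ | p ∈ W k ξ}) ∧
      (∀ k ζ, ∀ p ∈ W k ζ, p.1 • ζ ∈ Good p.2) ∧
      (∀ (ξ : Ω × Bits Γ) (k k' : Bool) (g g' : Γ), ∀ p ∈ W k (g • ξ), ∀ p' ∈ W k' (g' • ξ),
        p.1 * g = p'.1 * g' → p.2 = p'.2 → k = k' ∧ g = g') ∧
      ∀ᵐ ζ ∂(P.prod (bitsM Γ)), ∀ (k : Bool) (g : Γ), g • ζ.1 ∈ V →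
        ∃ p, W k (g • ampMask U ζ) = {p} := by
  classical
  have := hB.prob
  have hΩ : ∀ γ : Γ, Measurable fun ω : Ω => γ • ω := fun γ => (hB.inv γ).measurable
  have hM : Measurable (ampMask (Γ := Γ) U) := ampMask_meas hΩ hF.measU
  have hinv0 : ∀ γ : Γ, MeasurePreserving (fun ζ : Ω × Bits Γ => γ • ζ)
      (P.prod (bitsM Γ)) (P.prod (bitsM Γ)) := fun γ =>
    (hB.inv γ).prod (measurePreserving_bits_smul γ)
  set Q : Measure (Ω × Bits Γ) := (P.prod (bitsM Γ)).map (ampMask U) with hQ
  have : IsProbabilityMeasure Q := Measure.isProbabilityMeasure_map hM.aemeasurable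
  have hinv : ∀ γ : Γ, MeasurePreserving (fun ζ : Ω × Bits Γ => γ • ζ) Q Q := by
    intro γ
    refine ⟨amp_meas_smul hΩ γ, ?_⟩
    rw [hQ, Measure.map_map (amp_meas_smul hΩ γ) hM]
    have : (fun ζ : Ω × Bits Γ => γ • ζ) ∘ ampMask U =
        ampMask U ∘ fun ζ : Ω × Bits Γ => γ • ζ := by
      funext ζ
      exact (ampMask_smul U γ ζ).symm
    rw [this, ← Measure.map_map hM (amp_meas_smul hΩ γ), (hinv0 γ).map_eq]
  have herg : ∀ E : Set (Ω × Bits Γ), MeasurableSet E → (∀ γ : Γ, ∀ ω ∈ E, γ • ω ∈ E) →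
      Q E = 0 ∨ Q Eᶜ = 0 := by
    intro E hE hEi
    rw [hQ, Measure.map_apply hM hE, Measure.map_apply hM hE.compl, Set.preimage_compl]
    refine hB.erg _ (hM hE) fun γ z hz => ?_
    rw [Set.mem_preimage, ampMask_smul]
    exact hEi γ _ hz
  let n : Ω × Bits Γ → ℕ := fun ζ => if ζ.1 ∈ V then 2 else 0
  have hVm : MeasurableSet (Prod.fst ⁻¹' V : Set (Ω × Bits Γ)) := measurable_fst hF.measV
  have hn : Measurable n := Measurable.ite hVm measurable_const measurable_const
  have hlt : ∫⁻ ζ, n ζ ∂Q < ∑ j, Q (Good j) := by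
    have h1 : ∀ j, Q (Good j) = (P.prod (bitsM Γ)) (Good j) := by
      intro j
      rw [hQ, Measure.map_apply hM (hF.measGood j)]
      congr 1
      ext ζ
      exact (ampMask_dep (hF.depGood j) ζ).to_iff
    have h2 : (fun ζ => (n ζ : ENNReal)) =
        (Prod.fst ⁻¹' V : Set (Ω × Bits Γ)).indicator fun _ => 2 := by
      funext ζ
      by_cases h : ζ.1 ∈ V
      · simp [n, h]
      · simp [n, h]
    have h3 : Q (Prod.fst ⁻¹' V) = P V := by
      rw [hQ, Measure.map_apply hM hVm]
      have : ampMask U ⁻¹' (Prod.fst ⁻¹' V : Set (Ω × Bits Γ)) = V ×ˢ Set.univ := by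
        ext ζ
        simp [ampMask]
      rw [this, Measure.prod_prod]
      simp
    rw [h2, lintegral_indicator_const hVm, h3]
    simp only [h1]
    exact hF.many
  obtain ⟨W, hW1, hW2, hW3, -, hW5⟩ := alloc Q hinv herg n hn Good hF.measGood hlt
  obtain ⟨enc, henc⟩ := exists_injective_nat (Γ × Fin D)
  refine ⟨fun k ξ => (W ξ).filter fun p => (∀ q ∈ W ξ, enc p ≤ enc q) ↔ k = true,
    ?_, ?_, ?_, ?_⟩
  · intro k p
    have h1 : MeasurableSet {ξ | ∀ q ∈ W ξ, enc p ≤ enc q} := by
      have : {ξ | ∀ q ∈ W ξ, enc p ≤ enc q} = ⋂ q, ({ξ | q ∈ W ξ}ᶜ ∪ {_ξ | enc p ≤ enc q}) := by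
        ext ξ
        simp only [Set.mem_ofPred_eq, Set.mem_iInter, Set.mem_union, Set.mem_compl_iff]
        exact forall_congr' fun q => imp_iff_not_or
      rw [this]
      exact MeasurableSet.iInter fun q => (hW1 q).compl.union (MeasurableSet.const _)
    cases k
    · have := (hW1 p).inter h1.compl
      convert this using 1
      ext ξ
      simp only [Finset.mem_filter, Set.mem_ofPred_eq, Set.mem_inter_iff, Set.mem_compl_iff]
      simp
    · have := (hW1 p).inter h1
      convert this using 1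
      ext ξ
      simp only [Finset.mem_filter, Set.mem_ofPred_eq, Set.mem_inter_iff]
      simp
  · intro k ζ p hp
    exact hW2 ζ p (Finset.mem_filter.1 hp).1
  · intro ξ k k' g g' p hp p' hp' e1 e2
    obtain ⟨a1, a2⟩ := Finset.mem_filter.1 hp
    obtain ⟨b1, b2⟩ := Finset.mem_filter.1 hp'
    have hg := hW3 ξ g g' p a1 p' b1 e1 e2
    subst hg
    have hpp : p = p' := Prod.ext (mul_right_cancel e1) e2
    subst hpp
    refine ⟨?_, rfl⟩
    have := a2.symm.trans b2
    cases k <;> cases k' <;> simp_all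
  · have h1 : ∀ᵐ ξ ∂Q, ∀ g : Γ, (W (g • ξ)).card = n (g • ξ) :=
      ae_all_iff.2 fun g => (hinv g).quasiMeasurePreserving.ae hW5
    have h2 := ae_of_ae_map hM.aemeasurable h1
    filter_upwards [h2] with ζ hζ k g hg
    have h3 := hζ g
    have h4 : n (g • ampMask U ζ) = 2 := if_pos hg
    rw [h4, Finset.card_eq_two] at h3
    obtain ⟨p, q, hpq, hs⟩ := h3
    have hne : enc p ≠ enc q := fun h => hpq (henc h)
    rw [hs]
    rcases lt_or_gt_of_ne hne with h | h
    · cases k
      · refine ⟨q, ?_⟩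
        ext r
        simp only [Finset.mem_filter, Finset.mem_insert, Finset.mem_singleton, forall_eq_or_imp,
          forall_eq]
        constructor
        · rintro ⟨rfl | rfl, h'⟩
          · simp at h'
            omega
          · rfl
        · rintro rfl
          simp [h]
      · refine ⟨p, ?_⟩
        ext r
        simp only [Finset.mem_filter, Finset.mem_insert, Finset.mem_singleton, forall_eq_or_imp,
          forall_eq]
        constructor
        · rintro ⟨rfl | rfl, h'⟩
          · rfl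
          · simp at h'
            omega
        · rintro rfl
          simp [h.le]
    · cases k
      · refine ⟨p, ?_⟩
        ext r
        simp only [Finset.mem_filter, Finset.mem_insert, Finset.mem_singleton, forall_eq_or_imp,
          forall_eq]
        constructor
        · rintro ⟨rfl | rfl, h'⟩
          · rfl
          · simp at h'
            omega
        · rintro rfl
          simp [h]
      · refine ⟨q, ?_⟩
        ext r
        simp only [Finset.mem_filter, Finset.mem_insert, Finset.mem_singleton, forall_eq_or_imp,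
          forall_eq]
        constructor
        · rintro ⟨rfl | rfl, h'⟩
          · simp at h'
            omega
          · rfl
        · rintro rfl
          simp [h.le]

theorem core_of_forest {Γ Ω : Type*} [Group Γ] [Countable Γ] [Infinite Γ]
    [MeasurableSpace Ω] [MulAction Γ Ω] (P : Measure Ω) (S : Set Ω) (hB : Base Γ P S)
    {V U : Set Ω} {pay : Ω → Γ} {D : ℕ} {Good : Fin D → Set (Ω × Bits Γ)}
    {hd : Fin D → Ω × Bits Γ → Γ} (hF : Forest Γ P S V U pay D Good hd) :
    ∃ Φ : Ω × Bits Γ → Bits Γ, (∀ (γ : Γ) z, Φ (γ • z) = γ • Φ z) ∧ DepG Γ S Φ ∧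
      MeasurePreserving Φ (P.prod (bitsM Γ)) (bitsM Γ) := by
  classical
  have := hB.prob
  have hΩ : ∀ γ : Γ, Measurable fun ω : Ω => γ • ω := fun γ => (hB.inv γ).measurable
  have hM : Measurable (ampMask (Γ := Γ) U) := ampMask_meas hΩ hF.measU
  obtain ⟨W, hW1, hW2, hW3, hW4⟩ := amp_edges P S hB hF
  obtain ⟨e, he⟩ := exists_surjective_nat Γ
  let Φ : Ω × Bits Γ → Bits Γ := fun ζ => ampPsi hd W e V (ampMask U ζ) (ampB V pay ζ.1 ζ.2)
  have hΦ : Measurable Φ :=
    ampPsi_meas hΩ hF.meas_hd hW1 e hF.measV hM (ampB_meas hΩ hF.measV hF.meas_pay)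
  refine ⟨Φ, fun γ ζ => ?_, fun ω z z' h => ?_, ?_⟩
  · simp only [Φ]
    rw [ampMask_smul, Prod.smul_fst, Prod.smul_snd, ampB_smul, ampPsi_smul]
  · simp only [Φ]
    rw [ampMask_congr ω z z' fun g hg => h g (hF.subU hg)]
    congr 1
    funext g
    rw [ampB_apply, ampB_apply]
    split_ifs with hg
    · refine h _ ?_
      rw [← smul_smul]
      exact (hF.pay_mem _ hg).1
    · rfl
  · -- almost every base point sees a vertex
    have hC : ∀ᵐ ω ∂P, ∀ g : Γ, ∃ i, e i • g • ω ∈ V := by
      have hE : MeasurableSet {ω : Ω | ∀ g : Γ, g • ω ∉ V} := by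
        rw [Set.ofPred_forall]
        exact MeasurableSet.iInter fun g => (hΩ g hF.measV).compl
      rcases hB.erg0 _ hE (fun γ z hz g => by rw [smul_smul]; exact hz _) with h | h
      · have h' : ∀ᵐ ω ∂P, ω ∉ {ω : Ω | ∀ g : Γ, g • ω ∉ V} := compl_mem_ae_iff.2 h
        filter_upwards [h'] with ω hω g
        simp only [not_forall, not_not] at hω
        obtain ⟨g0, hg0⟩ := hω
        obtain ⟨i, hi⟩ := he (g0 * g⁻¹)
        refine ⟨i, ?_⟩
        rw [hi, smul_smul]
        simpa using hg0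
      · exfalso
        refine hF.posV.ne' (measure_mono_null (fun ω hω => ?_) h)
        intro hc
        exact hc 1 (by simpa using hω)
    refine amp_mp_of_fiber P (bitsM Γ) (bitsM Γ) Φ hΦ ?_
    filter_upwards [hC, Measure.ae_ae_of_ae_prod hW4] with ω hω1 hω2
    have hm1 : MeasurePreserving (ampMerge U ω) ((bitsM Γ).prod (bitsM Γ)) (bitsM Γ) := by
      refine amp_lin_mp (J := Γ × ℕ) _
        (fun a => (amp_bits_add a.1).prod (amp_bits_add a.2)) (ampMerge U ω)
        (ampMerge_meas U ω) fun s y => ⟨(y, y), fun j _ => ?_⟩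
      refine (ampMerge_apply U ω (y, y) j).trans ?_
      split_ifs <;> rfl
    have hΦω : Measurable fun z : Bits Γ => Φ (ω, z) := hΦ.comp measurable_prodMk_left
    have hm2 : MeasurePreserving (fun w : Bits Γ × Bits Γ => Φ (ω, ampMerge U ω w))
        ((bitsM Γ).prod (bitsM Γ)) (bitsM Γ) := by
      have hmeas : Measurable fun w : Bits Γ × Bits Γ => Φ (ω, ampMerge U ω w) :=
        hΦω.comp hm1.measurable
      refine amp_mp_of_fiber _ _ _ _ hmeas ?_
      filter_upwards [hω2] with z hz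
      let L : Bits Γ →+ Bits Γ := (ampPsi hd W e V (ampMask U (ω, z))).comp (ampB V pay ω)
      have hL : (fun z' : Bits Γ => Φ (ω, ampMerge U ω (z, z'))) = L := by
        funext z'
        simp only [Φ, L, AddMonoidHom.comp_apply]
        rw [ampMask_congr ω (ampMerge U ω (z, z')) z fun g hg => by
          rw [ampMerge_apply, if_pos ⟨rfl, hg⟩]]
        congr 1
        funext g
        rw [ampB_apply, ampB_apply]
        split_ifs with hg
        · rw [ampMerge_apply, if_neg]
          rintro ⟨-, h⟩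
          simp only [← smul_smul] at h
          exact (hF.pay_mem _ hg).2 h
        · rfl
      have hLm : Measurable L := by
        rw [← hL]
        exact hmeas.comp measurable_prodMk_left
      rw [hL]
      refine (amp_lin_mp (J := Γ × ℕ) (bitsM Γ) amp_bits_add L hLm fun s y => ?_).map_eq
      obtain ⟨b, hb⟩ := ampPsi_onto hd Good W e V (ampMask U (ω, z)) hF.tl_mem hF.hd_mem
        (hF.acyclic _) hW2 (hW3 _) hz hω1 s y
      let ι : {g : Γ // g • ω ∈ V} → Γ := fun g => pay (g.1 • ω) * g.1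
      have hι : Function.Injective ι := fun g g' h =>
        Subtype.ext (hF.pay_inj ω g.1 g'.1 g.2 g'.2 h)
      refine ⟨fun p => Function.extend ι (fun g => b g.1) 0 p.1, hb _ fun g hg => ?_⟩
      have hg' : g • ω ∈ V := hg
      rw [ampB_apply, if_pos hg']
      exact hι.extend_apply (fun g => b g.1) 0 ⟨g, hg'⟩
    have h1 := Measure.map_map (μ := (bitsM Γ).prod (bitsM Γ)) hΦω hm1.measurable
    rw [hm1.map_eq] at h1
    rw [h1]
    exact hm2.map_eq

end Pool.Agent.H701Z.Fiid
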