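import Pool.Agent.H701Z.Fiid.Sys

set_option autoImplicit false

namespace Pool.Agent.H701Z.Fiid

universe u

open Classical in
theorem count_near (A : Type*) [Fintype A] (η : ℝ) (hη : 0 < η) :
    ∃ θ : ℝ, 0 < θ ∧ ∀ (T : Type u) [Fintype T] (g0 : T → A),
      ((Finset.univ.filter fun f : T → A =>
        ((Finset.univ.filter fun t => f t ≠ g0 t).card : ℝ) ≤ θ * Fintype.card T).card : ℝ)
        ≤ Real.exp (η * Fintype.card T) := by
  set a : ℝ := (Fintype.card A : ℝ) with ha
  have ha0 : 0 ≤ a := by positivity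
  set l : ℝ := min 1 (η / (2 * (a + 1))) with hl
  have hl0 : 0 < l := lt_min one_pos (by positivity)
  have hl1 : l ≤ 1 := min_le_left _ _
  have hl2 : a * l ≤ η / 2 := by
    have h1 : l ≤ η / (2 * (a + 1)) := min_le_right _ _
    rw [le_div_iff₀ (by positivity)] at h1
    nlinarith
  have hlog : Real.log l ≤ 0 := Real.log_nonpos hl0.le hl1
  refine ⟨η / (2 * (1 - Real.log l)), by apply div_pos hη; linarith, fun T _ g0 => ?_⟩
  set θ := η / (2 * (1 - Real.log l)) with hθ
  set n : ℝ := (Fintype.card T : ℝ) with hn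
  have hn0 : 0 ≤ n := by positivity
  have hθl : -(η / 2) ≤ θ * Real.log l := by
    rw [hθ, div_mul_eq_mul_div, le_div_iff₀ (by linarith)]
    nlinarith
  have hsum : ∑ f : T → A, l ^ (Finset.univ.filter fun t => f t ≠ g0 t).card ≤
      Real.exp (η / 2 * n) := by
    have h1 : ∀ f : T → A, l ^ (Finset.univ.filter fun t => f t ≠ g0 t).card =
        ∏ t, (if f t ≠ g0 t then l else 1) := by
      intro f
      rw [Finset.prod_ite, Finset.prod_const, Finset.prod_const_one, mul_one]
    simp_rw [h1]
    rw [← Fintype.piFinset_univ, ← Finset.prod_univ_sum (fun _ => Finset.univ)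
      (fun t (x : A) => if x ≠ g0 t then l else 1)]
    have h2 : ∀ t, ∑ x : A, (if x ≠ g0 t then l else 1) ≤ Real.exp (η / 2) := by
      intro t
      calc ∑ x : A, (if x ≠ g0 t then l else 1) ≤ ∑ x : A, (l + if x = g0 t then 1 else 0) := by
            refine Finset.sum_le_sum fun x _ => ?_
            by_cases h : x = g0 t <;> simp [h, hl0.le]
        _ = a * l + 1 := by
            rw [Finset.sum_add_distrib, Finset.sum_ite_eq']
            simp [ha]
        _ ≤ η / 2 + 1 := by linarith
        _ ≤ _ := Real.add_one_le_exp _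
    calc _ ≤ ∏ _t : T, Real.exp (η / 2) :=
          Finset.prod_le_prod (fun t _ => Finset.sum_nonneg fun x _ => by
            split_ifs <;> positivity) fun t _ => h2 t
      _ = _ := by
          rw [Finset.prod_const, Finset.card_univ, ← Real.exp_nat_mul, mul_comm]
  set G := Finset.univ.filter fun f : T → A =>
        ((Finset.univ.filter fun t => f t ≠ g0 t).card : ℝ) ≤ θ * n with hG
  have hlow : ∀ f ∈ G, Real.exp (-(η / 2 * n)) ≤
      l ^ (Finset.univ.filter fun t => f t ≠ g0 t).card := by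
    intro f hf
    have hf' := (Finset.mem_filter.1 hf).2
    rw [← Real.exp_log hl0, ← Real.exp_nat_mul]
    refine Real.exp_le_exp.2 ?_
    nlinarith
  have h3 : (G.card : ℝ) * Real.exp (-(η / 2 * n)) ≤ Real.exp (η / 2 * n) := by
    calc (G.card : ℝ) * Real.exp (-(η / 2 * n)) = ∑ _f ∈ G, Real.exp (-(η / 2 * n)) := by simp
      _ ≤ ∑ f ∈ G, l ^ (Finset.univ.filter fun t => f t ≠ g0 t).card := Finset.sum_le_sum hlow
      _ ≤ ∑ f : T → A, l ^ (Finset.univ.filter fun t => f t ≠ g0 t).card :=
          Finset.sum_le_sum_of_subset_of_nonneg (Finset.subset_univ _) fun _ _ _ => by positivity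
      _ ≤ _ := hsum
  rw [Real.exp_neg, ← div_eq_mul_inv, div_le_iff₀ (Real.exp_pos _), ← Real.exp_add] at h3
  refine h3.trans (le_of_eq ?_)
  congr 1
  ring

open Classical in
theorem sort_blocks {V W C : Type*} [Fintype V] [Fintype W] [Fintype C] (D : ℕ) (hD : 0 < D)
    (hcard : Fintype.card V = Fintype.card W * D) (cls : V → C) :
    ∃ (e : V ≃ W × Fin D) (guess : W → C),
      (Finset.univ.filter fun w => ∃ r, cls (e.symm (w, r)) ≠ guess w).card ≤
        (Finset.univ.image cls).card := by
  set eV : V ≃ Fin (Fintype.card W * D) := Fintype.equivFinOfCardEq hcard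
  set eW : W ≃ Fin (Fintype.card W) := Fintype.equivFin W
  set o : C → ℕ := fun c => (Fintype.equivFin C c : ℕ) with ho
  have hoi : Function.Injective o := fun a b h => (Fintype.equivFin C).injective (Fin.ext h)
  set f : Fin (Fintype.card W * D) → ℕ := fun i => o (cls (eV.symm i)) with hf
  have hmono := Tuple.monotone_sort f
  set e' : W × Fin D ≃ V :=
    ((eW.prodCongr (Equiv.refl _)).trans finProdFinEquiv).trans ((Tuple.sort f).trans eV.symm)
    with he'
  have hval : ∀ w r, o (cls (e' (w, r))) = (f ∘ Tuple.sort f) (finProdFinEquiv (eW w, r)) :=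
    fun w r => rfl
  refine ⟨e'.symm, fun w => cls (e' (w, ⟨0, hD⟩)), ?_⟩
  have hlt : ∀ w w', (∃ r, cls (e' (w, r)) ≠ cls (e' (w, ⟨0, hD⟩))) → eW w < eW w' →
      o (cls (e' (w, ⟨0, hD⟩))) < o (cls (e' (w', ⟨0, hD⟩))) := by
    rintro w w' ⟨r, hr⟩ hww
    have h1 : o (cls (e' (w, ⟨0, hD⟩))) ≤ o (cls (e' (w, r))) := by
      rw [hval, hval]
      refine hmono ?_
      rw [Fin.le_def]
      simp [finProdFinEquiv]
    have h2 : o (cls (e' (w, r))) ≤ o (cls (e' (w', ⟨0, hD⟩))) := by
      rw [hval, hval]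
      refine hmono ?_
      rw [Fin.le_def]
      simp only [finProdFinEquiv, Equiv.coe_fn_mk, zero_add]
      have h3 : (eW w : ℕ) + 1 ≤ eW w' := hww
      have h4 := Nat.mul_le_mul_left D h3
      have := r.2
      nlinarith
    exact lt_of_lt_of_le (lt_of_le_of_ne h1 fun h => hr (hoi h).symm) h2
  refine Finset.card_le_card_of_injOn (fun w => cls (e' (w, ⟨0, hD⟩))) (fun w _ => by simp) ?_
  intro w hw w' hw' h
  simp only [Equiv.symm_symm, Finset.coe_filter, Finset.mem_univ, true_and,
    Set.mem_setOf_eq] at hw hw' h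
  rcases lt_trichotomy (eW w) (eW w') with h1 | h1 | h1
  · have := hlt w w' hw h1
    rw [h] at this
    exact absurd this (lt_irrefl _)
  · exact eW.injective h1
  · have := hlt w' w hw' h1
    rw [h] at this
    exact absurd this (lt_irrefl _)

end Pool.Agent.H701Z.Fiid
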