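import Pool.Agent.H701Z.Fiid.Block
import Pool.Agent.H701Z.Fiid.Count

set_option autoImplicit false

namespace Pool.Agent.H701Z.Fiid

open MeasureTheory
open scoped ENNReal symmDiff

/-- `F` reads `ω`, the level `0` bits at the sites in `U`, and all bits of positive level. -/
def DepF (Γ : Type*) {Ω α : Type*} [Group Γ] [MulAction Γ Ω] (U : Set Ω)
    (F : Ω × Bits Γ → α) : Prop :=
  ∀ (ω : Ω) (z z' : Bits Γ), (∀ g : Γ, g • ω ∈ U → z (g, 0) = z' (g, 0)) →
    (∀ (g : Γ) (n : ℕ), z (g, n + 1) = z' (g, n + 1)) → F (ω, z) = F (ω, z')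

/-- `φ` reads `ω`, the level `0` bits at the sites in `U`, and the bits in `R × [1, m]`. -/
def DepL (Γ : Type*) {Ω α : Type*} [Group Γ] [MulAction Γ Ω] (U : Set Ω) (R : Finset Γ) (m : ℕ)
    (φ : Ω × Bits Γ → α) : Prop :=
  ∀ (ω : Ω) (z z' : Bits Γ), (∀ g : Γ, g • ω ∈ U → z (g, 0) = z' (g, 0)) →
    (∀ g ∈ R, ∀ n < m, z (g, n + 1) = z' (g, n + 1)) → φ (ω, z) = φ (ω, z')

lemma dense_cyl {Γ Ω : Type*} [MeasurableSpace Ω] (lam : Measure (Ω × Bits Γ))
    [IsFiniteMeasure lam] :
    lam.MeasureDense {A | MeasurableSet A ∧ ∃ J : Finset (Γ × ℕ), ∀ ω (z z' : Bits Γ),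
      (∀ p ∈ J, z p = z' p) → ((ω, z) ∈ A ↔ (ω, z') ∈ A)} := by
  classical
  refine Measure.MeasureDense.of_generateFrom_isSetAlgebra_finite _ ⟨⟨MeasurableSet.empty, ∅, by simp⟩, ?_, ?_⟩ ?_
  · rintro s ⟨hs, J, hJ⟩
    exact ⟨hs.compl, J, fun ω z z' h => not_congr (hJ ω z z' h)⟩
  · rintro s t ⟨hs, J, hJ⟩ ⟨ht, J', hJ'⟩
    exact ⟨hs.union ht, J ∪ J', fun ω z z' h => or_congr
      (hJ ω z z' fun p hp => h p (Finset.mem_union_left _ hp))
      (hJ' ω z z' fun p hp => h p (Finset.mem_union_right _ hp))⟩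
  · refine le_antisymm ?_ (MeasurableSpace.generateFrom_le fun t ht => ht.1)
    set m' := MeasurableSpace.generateFrom {A : Set (Ω × Bits Γ) | MeasurableSet A ∧
      ∃ J : Finset (Γ × ℕ), ∀ ω (z z' : Bits Γ),
      (∀ p ∈ J, z p = z' p) → ((ω, z) ∈ A ↔ (ω, z') ∈ A)} with hm'
    have h1 : Measurable[m'] (Prod.fst : Ω × Bits Γ → Ω) := fun s hs =>
      MeasurableSpace.measurableSet_generateFrom ⟨measurable_fst hs, ∅, fun _ _ _ _ => Iff.rfl⟩
    have h2 : Measurable[m'] (Prod.snd : Ω × Bits Γ → Bits Γ) := by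
      refine @measurable_to_bits Γ _ m' _ fun p s hs =>
        MeasurableSpace.measurableSet_generateFrom
          ⟨((measurable_bits_apply p).comp measurable_snd) hs, {p}, fun ω z z' h => ?_⟩
      simp only [Set.mem_preimage]
      rw [h p (Finset.mem_singleton_self p)]
    exact fun s hs => (h1.prodMk h2) hs

theorem approx {Γ Ω A : Type*} [Group Γ] [MeasurableSpace Ω] [MulAction Γ Ω] [Fintype A]
    [MeasurableSpace A] [MeasurableSingletonClass A]
    (hm : ∀ γ : Γ, Measurable fun ω : Ω => γ • ω)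
    (Q : Measure (Ω × Bits Γ)) [IsProbabilityMeasure Q] (U : Set Ω) (hU : MeasurableSet U)
    (F : Ω × Bits Γ → A) (hF : Measurable F) (hFd : DepF Γ U F) (δ : ℝ) (hδ : 0 < δ) :
    ∃ (φ : Ω × Bits Γ → A) (R : Finset Γ) (m : ℕ), Measurable φ ∧ 0 < m ∧ DepL Γ U R m φ ∧
      Q.real {ζ | F ζ ≠ φ ζ} ≤ δ := by
  classical
  set M : Ω × Bits Γ → Ω × Bits Γ := fun ζ =>
    (ζ.1, fun p => if p.2 = 0 ∧ p.1 • ζ.1 ∉ U then 0 else ζ.2 p) with hM
  have hMm : Measurable M := by
    refine measurable_fst.prodMk (measurable_to_bits fun p => ?_)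
    refine Measurable.ite ?_ measurable_const ((measurable_bits_apply p).comp measurable_snd)
    by_cases hp : p.2 = 0
    · simp only [hp, true_and]
      exact (((hm p.1).comp measurable_fst) hU).compl
    · simp [hp]
  have hFM : ∀ ζ, F (M ζ) = F ζ := fun ζ =>
    hFd ζ.1 _ ζ.2 (fun g hg => by simp [hg]) (fun g n => by simp)
  have : IsProbabilityMeasure (Q.map M) := Measure.isProbabilityMeasure_map hMm.aemeasurable
  have hne : Nonempty A := by
    obtain ⟨ζ⟩ := nonempty_of_isProbabilityMeasure Q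
    exact ⟨F ζ⟩
  have hA : (0 : ℝ) < Fintype.card A := by exact_mod_cast Fintype.card_pos
  have h1 := fun a : A => (dense_cyl (Q.map M)).approx (F ⁻¹' {a})
    (hF (measurableSet_singleton a)) (by finiteness) (δ / Fintype.card A) (by positivity)
  choose t ht hle using h1
  choose J hJ using fun a => (ht a).2
  set sel : (A → Prop) → A := fun d => if h : ∃ a, d a then h.choose else hne.some with hsel
  set φ0 : Ω × Bits Γ → A := fun ζ => sel fun a => ζ ∈ t a with hφ0
  have hφ0m : Measurable φ0 :=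
    (measurable_of_finite sel).comp (measurable_pi_iff.2 fun a => measurableSet_setOf.1 (ht a).1)
  set J0 := Finset.univ.biUnion J with hJ0
  refine ⟨φ0 ∘ M, J0.image Prod.fst, J0.sup Prod.snd + 1, hφ0m.comp hMm, Nat.succ_pos _, ?_, ?_⟩
  · intro ω z z' h0 h1
    simp only [Function.comp_apply, hφ0]
    congr 1
    funext a
    refine propext (hJ a ω _ _ fun p hp => ?_)
    have hp0 : p ∈ J0 := Finset.mem_biUnion.2 ⟨a, Finset.mem_univ _, hp⟩
    obtain ⟨g, n⟩ := p
    split_ifs with hc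
    · rfl
    · cases n with
      | zero => exact h0 g (by simpa using hc)
      | succ n =>
        refine h1 g (Finset.mem_image.2 ⟨_, hp0, rfl⟩) n ?_
        have := Finset.le_sup (f := Prod.snd) hp0
        simp only at this
        omega
  · have hsub : {ζ | F ζ ≠ (φ0 ∘ M) ζ} ⊆ ⋃ a, M ⁻¹' ((F ⁻¹' {a}) ∆ t a) := by
      intro ζ hζ
      by_contra hcon
      simp only [Set.mem_iUnion, Set.mem_preimage, not_exists, Set.mem_symmDiff,
        Set.mem_singleton_iff, hFM] at hcon
      have h2 : ∀ a, M ζ ∈ t a ↔ F ζ = a := fun a => by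
        have := hcon a
        tauto
      refine hζ ?_
      have h3 : ∃ a, M ζ ∈ t a := ⟨_, (h2 _).2 rfl⟩
      simp only [Function.comp_apply, hφ0, hsel, dif_pos h3]
      exact (h2 _).1 h3.choose_spec
    refine (measureReal_mono hsub).trans ((measureReal_iUnion_fintype_le _).trans ?_)
    have h4 : ∀ a, Q.real (M ⁻¹' ((F ⁻¹' {a}) ∆ t a)) ≤ δ / Fintype.card A := by
      intro a
      have := hle a
      rw [Measure.map_apply hMm ((hF (measurableSet_singleton a)).symmDiff (ht a).1)] at this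
      exact ENNReal.toReal_le_of_le_ofReal (by positivity) this.le
    refine (Finset.sum_le_sum fun a _ => h4 a).trans (le_of_eq ?_)
    rw [Finset.sum_const, Finset.card_univ, nsmul_eq_mul]
    field_simp

/-- mass transport along tiles -/
lemma transport {Γ α : Type*} [Group Γ] [Countable Γ] [MeasurableSpace α] [MulAction Γ α]
    (μ : Measure α) (hinv : ∀ γ : Γ, MeasurePreserving (fun a : α => γ • a) μ μ)
    (cen : α → Γ) (hcen : ∀ γ, MeasurableSet {a | cen a = γ})
    (E : Set α) (hE : MeasurableSet E) :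
    ∑' g : Γ, μ {a | cen (g • a) * g = 1 ∧ g • a ∈ E} = μ E := by
  have h1 : ∀ g : Γ, μ {a | cen (g • a) * g = 1 ∧ g • a ∈ E} = μ ({a | cen a = g⁻¹} ∩ E) := by
    intro g
    rw [← (hinv g).measure_preimage ((hcen _).inter hE).nullMeasurableSet]
    congr 1
    ext a
    simp [mul_eq_one_iff_eq_inv]
  simp_rw [h1]
  rw [← measure_iUnion]
  · congr 1
    ext a
    simp only [Set.mem_iUnion, Set.mem_inter_iff, Set.mem_setOf_eq]
    exact ⟨fun ⟨_, _, h⟩ => h, fun h => ⟨(cen a)⁻¹, by simp, h⟩⟩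
  · intro g g' h
    refine Set.disjoint_left.2 fun a h1 h2 => h (inv_injective (h1.1.symm.trans h2.1))
  · exact fun g => (hcen _).inter hE

open Classical in
theorem swap_blocks (V W C : Type*) [Fintype V] [Fintype W] [Fintype C] [Nonempty C]
    (cls : V → C) :
    ∃ (nv : W → V → V) (nw : W → V → W) (guess : W → C) (Imp : Finset W),
      (∀ w v w' v', nw w v = nw w' v' → nv w v = nv w' v' → w = w' ∧ v = v') ∧
      (∀ w ∉ Imp, ∀ v, cls (nv w v) = guess w) ∧
      ((∃ D, 0 < D ∧ Fintype.card V = Fintype.card W * D) →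
        ∀ C0 : Finset C, (∀ v, cls v ∈ C0) → Imp.card ≤ C0.card) := by
  by_cases h : ∃ D, 0 < D ∧ Fintype.card V = Fintype.card W * D
  · obtain ⟨D, hD, hcard⟩ := h
    obtain ⟨e, guess, hle⟩ := sort_blocks D hD hcard cls
    refine ⟨fun w v => e.symm (w, (e v).2), fun _ v => (e v).1, guess, _, ?_, ?_,
      fun _ C0 h0 => hle.trans (Finset.card_le_card (Finset.image_subset_iff.2 fun v _ => h0 v))⟩
    · intro w v w' v' h1 h2
      have h3 := e.symm.injective h2
      simp only [Prod.mk.injEq] at h3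
      exact ⟨h3.1, e.injective (Prod.ext h1 h3.2)⟩
    · intro w hw v
      simp only [Finset.mem_filter, Finset.mem_univ, true_and, not_exists, not_not] at hw
      exact hw _
  · exact ⟨fun _ v => v, fun w _ => w, fun _ => Classical.arbitrary C, Finset.univ,
      fun _ _ _ _ h1 h2 => ⟨h1, h2⟩, fun w hw => absurd (Finset.mem_univ w) hw,
      fun h' => absurd h' h⟩

end Pool.Agent.H701Z.Fiid
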