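import Pool.Agent.H701Z.Fiid.Sys

set_option autoImplicit false

namespace Pool.Agent.H701Z.Fiid

open MeasureTheory
open scoped ENNReal

/-- A map that agrees on every finite window with some measure preserving map is measure
preserving. -/
lemma mp_of_local {α I E : Type*} [MeasurableSpace α] [MeasurableSpace E] (μ : Measure α)
    (ν : Measure E) [IsProbabilityMeasure ν] (Φ : α → I → E) (hΦ : Measurable Φ)
    (h : ∀ s : Finset I, ∃ Ψ : α → I → E,
      MeasurePreserving Ψ μ (Measure.infinitePi fun _ : I => ν) ∧ ∀ z, ∀ i ∈ s, Φ z i = Ψ z i) :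
    MeasurePreserving Φ μ (Measure.infinitePi fun _ : I => ν) := by
  refine ⟨hΦ, Measure.eq_infinitePi _ fun s t ht => ?_⟩
  obtain ⟨Ψ, hΨ, hs⟩ := h s
  have hm : MeasurableSet (Set.pi (s : Set I) t) :=
    MeasurableSet.pi s.countable_toSet fun i _ => ht i
  rw [Measure.map_apply hΦ hm, ← Measure.infinitePi_pi (fun _ : I => ν) fun i _ => ht i,
    ← hΨ.measure_preimage hm.nullMeasurableSet]
  congr 1
  ext z
  simp only [Set.mem_preimage, Set.mem_pi, Finset.mem_coe]
  exact forall₂_congr fun i hi => by rw [hs z i hi]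

/-- Piecewise measure preserving maps permuting the pieces are measure preserving. -/
lemma mp_piecewise {α ι : Type*} [MeasurableSpace α] [Countable ι] (μ : Measure α)
    (k : α → ι) (hk : ∀ i, MeasurableSet (k ⁻¹' {i})) (σ : ι ≃ ι) (t : ι → α → α)
    (ht : ∀ i, MeasurePreserving (t i) μ μ) (hkt : ∀ i z, k (t i z) = σ i ↔ k z = i) :
    MeasurePreserving (fun z => t (k z) z) μ μ := by
  have hpre : ∀ A : Set α, (fun z => t (k z) z) ⁻¹' A = ⋃ i, t i ⁻¹' (k ⁻¹' {σ i} ∩ A) := by
    intro A
    ext z
    simp only [Set.mem_preimage, Set.mem_iUnion, Set.mem_inter_iff, Set.mem_singleton_iff, hkt]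
    exact ⟨fun h => ⟨_, rfl, h⟩, fun ⟨i, h1, h2⟩ => h1 ▸ h2⟩
  have hm : Measurable fun z => t (k z) z := fun A hA => by
    rw [hpre]
    exact MeasurableSet.iUnion fun i => (ht i).measurable ((hk _).inter hA)
  refine ⟨hm, Measure.ext fun A hA => ?_⟩
  rw [Measure.map_apply hm hA, hpre, measure_iUnion]
  · simp_rw [fun i => (ht i).measure_preimage ((hk (σ i)).inter hA).nullMeasurableSet]
    rw [σ.tsum_eq (fun i => μ (k ⁻¹' {i} ∩ A)), ← measure_iUnion]
    · congr 1
      ext z; simp
    · intro i j hij
      refine Set.disjoint_left.2 fun z h1 h2 => hij (h1.1.symm.trans h2.1)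
    · exact fun i => (hk i).inter hA
  · intro i j hij
    refine Set.disjoint_left.2 fun z h1 h2 => hij ?_
    exact ((hkt i z).1 h1.1).symm.trans ((hkt j z).1 h2.1)
  · exact fun i => (ht i).measurable ((hk _).inter hA)

lemma mp_add_fair (d : F2) : MeasurePreserving (fun b : F2 => b + d) fair fair := by
  refine ⟨measurable_of_countable _, Measure.ext_of_singleton fun b => ?_⟩
  rw [Measure.map_apply (measurable_of_countable _) (measurableSet_singleton _)]
  have : (fun b : F2 => b + d) ⁻¹' {b} = {b - d} := by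
    ext x; simp only [Set.mem_preimage, Set.mem_singleton_iff, eq_sub_iff_add_eq]
  rw [this, fair_singleton, fair_singleton]

lemma mp_add_fairPi {I : Type*} (d : I → F2) :
    MeasurePreserving (fun z : I → F2 => z + d) (fairPi I) (fairPi I) := by
  refine ⟨measurable_pi_iff.2 fun i => (mp_add_fair (d i)).measurable.comp (measurable_pi_apply i),
    ?_⟩
  have := Measure.infinitePi_map_pi (fun _ : I => fair) (f := fun i (b : F2) => b + d i)
    fun i => (mp_add_fair (d i)).measurable
  simp_rw [fun i => (mp_add_fair (d i)).map_eq] at this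
  exact this

/-- averaging over finitely many measure preserving maps -/
lemma measure_le_of_avg {α ι : Type*} [MeasurableSpace α] [Fintype ι] [Nonempty ι]
    (μ : Measure α) [IsProbabilityMeasure μ] (t : ι → α → α)
    (ht : ∀ i, MeasurePreserving (t i) μ μ) (E : Set α) (hE : MeasurableSet E) (c : ℕ)
    (h : ∀ z, {i | t i z ∈ E}.ncard ≤ c) : μ E * Fintype.card ι ≤ c := by
  classical
  have h1 : μ E * Fintype.card ι = ∑ i, μ {z | i ∈ Finset.univ.filter fun i => t i z ∈ E} := by
    have : ∀ i, μ {z | i ∈ Finset.univ.filter fun i => t i z ∈ E} = μ E := fun i => by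
      rw [← (ht i).measure_preimage hE.nullMeasurableSet]
      congr 1
      ext z; simp
    simp_rw [this]
    simp [mul_comm]
  have h2 : ∫⁻ z, (((Finset.univ.filter fun i => t i z ∈ E).card : ℕ) : ℝ≥0∞) ∂μ =
      ∑ i, μ {z | i ∈ Finset.univ.filter fun i => t i z ∈ E} := by
    have : ∀ z, (((Finset.univ.filter fun i => t i z ∈ E).card : ℕ) : ℝ≥0∞) =
        ∑ i, Set.indicator {z | i ∈ Finset.univ.filter fun i => t i z ∈ E} 1 z := by
      intro z
      rw [Finset.card_filter]
      simp [Set.indicator]
    simp_rw [this]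
    have hm : ∀ i, MeasurableSet {z | i ∈ Finset.univ.filter fun i => t i z ∈ E} := fun i => by
      simp only [Finset.mem_filter, Finset.mem_univ, true_and]
      exact (ht i).measurable hE
    rw [lintegral_finset_sum _ fun i _ => measurable_one.indicator (hm i)]
    simp_rw [fun i => lintegral_indicator_one (μ := μ) (hm i)]
  rw [h1, ← h2]
  calc _ ≤ ∫⁻ _, (c : ℝ≥0∞) ∂μ := by
        refine lintegral_mono fun z => Nat.cast_le.2 (le_trans (le_of_eq ?_) (h z))
        rw [← Set.ncard_coe_finset]
        congr 1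
        ext i; simp
    _ = c := by simp

end Pool.Agent.H701Z.Fiid
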