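import Pool.Agent.H701Z.Fiid.Basic
import Pool.Agent.H701Z.Fiid.Alloc

set_option autoImplicit false

namespace Pool.Agent.H701Z.Fiid

open MeasureTheory
open scoped ENNReal

open Classical in
lemma measure_mul_card {α ι : Type*} [MeasurableSpace α] [Fintype ι]
    (μ : Measure α) (t : ι → α → α)
    (ht : ∀ i, MeasurePreserving (t i) μ μ) (E : Set α) (hE : MeasurableSet E) :
    μ E * Fintype.card ι =
      ∫⁻ z, (((Finset.univ.filter fun i => t i z ∈ E).card : ℕ) : ℝ≥0∞) ∂μ := by
  rw [lintegral_card μ (fun z => Finset.univ.filter fun i => t i z ∈ E) (fun i => by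
    simp only [Finset.mem_filter, Finset.mem_univ, true_and]
    exact (ht i).measurable hE), tsum_fintype]
  have : ∀ i, μ {z | i ∈ Finset.univ.filter fun i => t i z ∈ E} = μ E := fun i => by
    rw [← (ht i).measure_preimage hE.nullMeasurableSet]
    congr 1
    ext z; simp
  simp_rw [this]
  simp [mul_comm]

open Classical in
/-- extension by zero -/
noncomputable def ext0 {I : Type*} (B : Finset I) (d : B → F2) : I → F2 :=
  fun i => if h : i ∈ B then d ⟨i, h⟩ else 0

lemma ext0_mem {I : Type*} (B : Finset I) (d : B → F2) (i : B) : ext0 B d i = d i := by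
  simp [ext0]

lemma ext0_notMem {I : Type*} (B : Finset I) (d : B → F2) {i : I} (hi : i ∉ B) :
    ext0 B d i = 0 := by
  simp [ext0, hi]

/-- an injective measurable map changing only finitely many coordinates is measure preserving -/
lemma mp_of_inj {I : Type*} (B : Finset I) (τ : (I → F2) → (I → F2)) (hτ : Measurable τ)
    (hinj : Function.Injective τ) (hoff : ∀ z, ∀ i ∉ B, τ z i = z i) :
    MeasurePreserving τ (fairPi I) (fairPi I) := by
  classical
  refine ⟨hτ, Measure.ext fun A hA => ?_⟩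
  rw [Measure.map_apply hτ hA]
  have h1 := measure_mul_card (fairPi I) (fun (d : B → F2) z => z + ext0 B d)
    (fun d => mp_add_fairPi _) A hA
  have h2 := measure_mul_card (fairPi I) (fun (d : B → F2) z => z + ext0 B d)
    (fun d => mp_add_fairPi _) (τ ⁻¹' A) (hτ hA)
  have h3 : ∀ z : I → F2, (Finset.univ.filter fun d : B → F2 => z + ext0 B d ∈ τ ⁻¹' A).card =
      (Finset.univ.filter fun d : B → F2 => z + ext0 B d ∈ A).card := by
    intro z
    set ρ : (B → F2) → (B → F2) := fun d i => τ (z + ext0 B d) i - z i with hρ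
    have hρe : ∀ d, z + ext0 B (ρ d) = τ (z + ext0 B d) := by
      intro d
      funext i
      by_cases hi : i ∈ B
      · have := ext0_mem B (ρ d) ⟨i, hi⟩
        simp only at this
        rw [Pi.add_apply, this]
        simp [hρ]
      · rw [hoff _ i hi]
        simp [ext0_notMem B _ hi]
    have hρi : Function.Injective ρ := by
      intro d d' h
      have : z + ext0 B d = z + ext0 B d' := hinj (by rw [← hρe, ← hρe, h])
      funext i
      have := congrFun (add_left_cancel this) i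
      rwa [ext0_mem, ext0_mem] at this
    refine Finset.card_bij (fun d _ => ρ d) ?_ (fun d _ d' _ h => hρi h) ?_
    · intro d hd
      simp only [Finset.mem_filter, Finset.mem_univ, true_and, Set.mem_preimage] at hd ⊢
      rwa [hρe]
    · intro d hd
      obtain ⟨d', rfl⟩ := (Finite.injective_iff_surjective.1 hρi) d
      refine ⟨d', ?_, rfl⟩
      simp only [Finset.mem_filter, Finset.mem_univ, true_and, Set.mem_preimage] at hd ⊢
      rwa [hρe] at hd
  simp_rw [h3] at h2
  rw [← h1] at h2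
  exact (ENNReal.mul_left_inj (by simp) (by simp)).1 h2

variable {Γ Ω : Type*} [Group Γ] [MeasurableSpace Ω] [MulAction Γ Ω]

open Classical in
/-- rewrite all blocks simultaneously -/
noncomputable def blockMap (Blk : Ω → Finset (Γ × ℕ)) (nw : Ω × Bits Γ → Bits Γ)
    (ζ : Ω × Bits Γ) : Bits Γ := fun p =>
  if h : ∃ c : Γ, (p.1 * c⁻¹, p.2) ∈ Blk (c • ζ.1) then
    nw (h.choose • ζ) (p.1 * h.choose⁻¹, p.2) else ζ.2 p

theorem exists_block [Countable Γ] (P : Measure Ω) [IsProbabilityMeasure P]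
    (hm : ∀ γ : Γ, Measurable fun ω : Ω => γ • ω) (U : Set Ω)
    (Blk : Ω → Finset (Γ × ℕ)) (hBlk : ∀ p, MeasurableSet {ω | p ∈ Blk ω})
    (hdisj : ∀ (ω : Ω) (g g' : Γ), ∀ p ∈ Blk (g • ω), ∀ p' ∈ Blk (g' • ω),
      p.1 * g = p'.1 * g' → p.2 = p'.2 → g = g')
    (hpar : ∀ ω (h : Γ), (h, 0) ∈ Blk ω → h • ω ∉ U)
    (nw : Ω × Bits Γ → Bits Γ) (hnw : Measurable nw)
    (hinj : ∀ ω (z z' : Bits Γ), (∀ g : Γ, g • ω ∈ U → z (g, 0) = z' (g, 0)) →
      (∀ p ∈ Blk ω, nw (ω, z) p = nw (ω, z') p) → ∀ p ∈ Blk ω, z p = z' p) :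
    ∃ Φ : Ω × Bits Γ → Ω × Bits Γ,
      MeasurePreserving Φ (P.prod (bitsM Γ)) (P.prod (bitsM Γ)) ∧
      (∀ (γ : Γ) ζ, Φ (γ • ζ) = γ • Φ ζ) ∧ (∀ ζ, (Φ ζ).1 = ζ.1) ∧
      (∀ ζ, ∀ p ∈ Blk ζ.1, (Φ ζ).2 p = nw ζ p) ∧
      (∀ ζ (p : Γ × ℕ), (∀ c : Γ, (p.1 * c⁻¹, p.2) ∉ Blk (c • ζ.1)) → (Φ ζ).2 p = ζ.2 p) := by
  classical
  have hin : ∀ (ζ : Ω × Bits Γ) (p : Γ × ℕ) (c : Γ), (p.1 * c⁻¹, p.2) ∈ Blk (c • ζ.1) →
      blockMap Blk nw ζ p = nw (c • ζ) (p.1 * c⁻¹, p.2) := by
    intro ζ p c hc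
    have h : ∃ c : Γ, (p.1 * c⁻¹, p.2) ∈ Blk (c • ζ.1) := ⟨c, hc⟩
    have : h.choose = c := hdisj ζ.1 _ _ _ h.choose_spec _ hc (by simp) rfl
    simp only [blockMap, dif_pos h, this]
  have hout : ∀ (ζ : Ω × Bits Γ) (p : Γ × ℕ), (∀ c : Γ, (p.1 * c⁻¹, p.2) ∉ Blk (c • ζ.1)) →
      blockMap Blk nw ζ p = ζ.2 p := by
    intro ζ p h
    simp only [blockMap]
    rw [dif_neg (not_exists.2 h)]
  have hsm : ∀ γ : Γ, Measurable fun ζ : Ω × Bits Γ => γ • ζ := fun γ =>
    (hm γ).prodMap (measurePreserving_bits_smul γ).measurable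
  have hmeas : Measurable (blockMap Blk nw) := by
    refine measurable_to_bits fun p => measurable_to_countable' fun b => ?_
    have : (fun ζ => blockMap Blk nw ζ p) ⁻¹' {b} =
        (⋃ c : Γ, ({ζ : Ω × Bits Γ | (p.1 * c⁻¹, p.2) ∈ Blk (c • ζ.1)} ∩
          (fun ζ => nw (c • ζ) (p.1 * c⁻¹, p.2)) ⁻¹' {b})) ∪
        ((⋃ c : Γ, {ζ : Ω × Bits Γ | (p.1 * c⁻¹, p.2) ∈ Blk (c • ζ.1)})ᶜ ∩
          (fun ζ => ζ.2 p) ⁻¹' {b}) := by
      ext ζ
      simp only [Set.mem_preimage, Set.mem_singleton_iff, Set.mem_union, Set.mem_iUnion,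
        Set.mem_inter_iff, Set.mem_setOf_eq, Set.mem_compl_iff]
      by_cases h : ∃ c : Γ, (p.1 * c⁻¹, p.2) ∈ Blk (c • ζ.1)
      · obtain ⟨c, hc⟩ := h
        constructor
        · intro h1
          exact Or.inl ⟨c, hc, by rw [← hin ζ p c hc, h1]⟩
        · rintro (⟨c', hc', h1⟩ | ⟨h1, -⟩)
          · rw [hin ζ p c' hc', h1]
          · exact absurd ⟨c, hc⟩ h1
      · rw [hout ζ p (not_exists.1 h)]
        constructor
        · exact fun h1 => Or.inr ⟨h, h1⟩
        · rintro (⟨c', hc', -⟩ | ⟨-, h1⟩)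
          · exact absurd ⟨c', hc'⟩ h
          · exact h1
    rw [this]
    have h1 : ∀ c : Γ, MeasurableSet {ζ : Ω × Bits Γ | (p.1 * c⁻¹, p.2) ∈ Blk (c • ζ.1)} :=
      fun c => ((hm c).comp measurable_fst) (hBlk _)
    refine (MeasurableSet.iUnion fun c => (h1 c).inter ?_).union
      ((MeasurableSet.iUnion h1).compl.inter ?_)
    · exact ((measurable_bits_apply _).comp (hnw.comp (hsm c))) (measurableSet_singleton b)
    · exact ((measurable_bits_apply _).comp measurable_snd) (measurableSet_singleton b)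
  refine ⟨fun ζ => (ζ.1, blockMap Blk nw ζ), ?_, ?_, fun ζ => rfl, ?_, hout⟩
  · refine MeasurePreserving.skew_product (f := id) (g := fun ω z => blockMap Blk nw (ω, z))
      (MeasurePreserving.id P) hmeas (Filter.Eventually.of_forall fun ω => ?_)
    have hmω : Measurable fun z : Bits Γ => blockMap Blk nw (ω, z) :=
      hmeas.comp measurable_prodMk_left
    refine (mp_of_local (bitsM Γ) fair (fun z : Bits Γ => blockMap Blk nw (ω, z)) hmω
      fun s => ?_).map_eq
    set C : Finset Γ := s.image fun p =>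
      if h : ∃ c : Γ, (p.1 * c⁻¹, p.2) ∈ Blk (c • ω) then h.choose else 1 with hC
    set B : Finset (Γ × ℕ) := C.biUnion fun c => (Blk (c • ω)).image fun q => (q.1 * c, q.2)
      with hB
    refine ⟨fun z p => if p ∈ B then blockMap Blk nw (ω, z) p else z p, ?_, ?_⟩
    · refine mp_of_inj B _ ?_ ?_ fun z i hi => by simp [hi]
      · refine measurable_pi_iff.2 fun p => ?_
        by_cases hp : p ∈ B
        · simp only [hp, if_true]
          exact (measurable_bits_apply p).comp hmω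
        · simp only [hp, if_false]
          exact measurable_pi_apply p
      · intro (z : Bits Γ) (z' : Bits Γ) h
        have hoff : ∀ p ∉ B, z p = z' p := fun p hp => by simpa [hp] using congrFun h p
        have hon : ∀ p ∈ B, blockMap Blk nw (ω, z) p = blockMap Blk nw (ω, z') p :=
          fun p hp => by simpa [hp] using congrFun h p
        funext p
        by_cases hp : p ∈ B
        · obtain ⟨c, hc, hp⟩ := Finset.mem_biUnion.1 hp
          obtain ⟨q, hq, rfl⟩ := Finset.mem_image.1 hp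
          refine hinj (c • ω) (c • z) (c • z') ?_ ?_ q hq
          · intro g hg
            refine hoff (g * c, 0) fun hmem => ?_
            obtain ⟨c', -, hp⟩ := Finset.mem_biUnion.1 hmem
            obtain ⟨q', hq', h1⟩ := Finset.mem_image.1 hp
            simp only [Prod.mk.injEq] at h1
            refine hpar (c' • ω) q'.1 (by rw [← h1.2]; exact hq') ?_
            rwa [← mul_smul, h1.1, mul_smul]
          · intro r hr
            have h1 := hon (r.1 * c, r.2) (Finset.mem_biUnion.2 ⟨c, hc,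
              Finset.mem_image.2 ⟨r, hr, rfl⟩⟩)
            rw [hin _ _ c (by simpa using hr), hin _ _ c (by simpa using hr)] at h1
            simpa using h1
        · exact hoff p hp
    · intro z p hp
      by_cases h : ∃ c : Γ, (p.1 * c⁻¹, p.2) ∈ Blk (c • ω)
      · have : p ∈ B := Finset.mem_biUnion.2 ⟨h.choose,
          Finset.mem_image.2 ⟨p, hp, by rw [dif_pos h]⟩,
          Finset.mem_image.2 ⟨_, h.choose_spec, by simp⟩⟩
        simp [this]
      · by_cases hpB : p ∈ B
        · simp only [hpB, if_true]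
        · simp only [hpB, if_false]
          exact hout (ω, z) p (not_exists.1 h)
  · intro γ ζ
    refine Prod.ext rfl (funext fun p => ?_)
    change blockMap Blk nw (γ • ζ) p = blockMap Blk nw ζ (p.1 * γ, p.2)
    by_cases h : ∃ c : Γ, (p.1 * c⁻¹, p.2) ∈ Blk (c • γ • ζ.1)
    · obtain ⟨c, hc⟩ := h
      rw [hin (γ • ζ) p c hc, hin ζ (p.1 * γ, p.2) (c * γ) (by simpa [mul_smul, mul_assoc] using hc)]
      simp [mul_smul, mul_assoc]
    · rw [hout (γ • ζ) p (not_exists.1 h), hout ζ]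
      · rfl
      · intro c hc
        exact h ⟨c * γ⁻¹, by simpa [mul_smul, mul_assoc] using hc⟩
  · intro ζ p hp
    have := hin ζ p 1 (by simpa using hp)
    simpa using this

end Pool.Agent.H701Z.Fiid
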