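import Mathlib

set_option autoImplicit false

namespace Pool.Agent.H701Z.Fiid

open MeasureTheory

/-- The shift action of `Γ` on `X ^ Γ`: `(γ · x)(δ) = x(δ γ)`. -/
def shift {Γ X : Type*} [Group Γ] (γ : Γ) (x : Γ → X) : Γ → X := fun δ => x (δ * γ)

/-- The free part of the shift: the points moved by every non-identity element. -/
def freePart (Γ X : Type*) [Group Γ] : Set (Γ → X) := {x | ∀ γ : Γ, γ ≠ 1 → shift γ x ≠ x}

/-- An LCL problem on `Γ`: a label set `Fin k`, a finite window `F` and a set `P` of allowed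
patterns on `F`. -/
structure LCL (Γ : Type*) where
  /-- the number of labels -/
  k : ℕ
  /-- the finite window -/
  F : Finset Γ
  /-- the allowed patterns -/
  P : Set (F → Fin k)

/-- `FIID(X, μ, Γ)`: the LCL problems having a `μ^Γ`-measurable solution `f` on an invariant
`μ^Γ`-conull subset `A` of the free part of the Bernoulli shift `X ^ Γ`. -/
def FIID (X : Type*) [MeasurableSpace X] (μ : Measure X) (Γ : Type*) [Group Γ] : Set (LCL Γ) :=
  {L | ∃ (A : Set (Γ → X)) (f : (Γ → X) → Fin L.k),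
    A ⊆ freePart Γ X ∧
    (∀ γ : Γ, ∀ x ∈ A, shift γ x ∈ A) ∧
    Measure.infinitePi (fun _ : Γ => μ) (freePart Γ X \ A) = 0 ∧
    (∀ s : Fin L.k, NullMeasurableSet (A ∩ f ⁻¹' {s}) (Measure.infinitePi (fun _ : Γ => μ))) ∧
    ∀ y ∈ A, (fun δ : L.F => f (shift (δ : Γ) y)) ∈ L.P}

end Pool.Agent.H701Z.Fiid
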