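import Pool.Agent.H701Z.Fiid.Sys

set_option autoImplicit false

namespace Pool.Agent.H701Z.Fiid

open MeasureTheory

section Kesten

variable {Γ : Type*}

/-- the scalar product of two finitely supported functions -/
noncomputable def kB (f g : Γ →₀ ℝ) : ℝ := f.sum fun x v => v * g x

/-- the Euclidean norm of a finitely supported function -/
noncomputable def kN (f : Γ →₀ ℝ) : ℝ := Real.sqrt (kB f f)

lemma kB_eq (f g : Γ →₀ ℝ) (A : Finset Γ) (hA : f.support ⊆ A) :
    kB f g = ∑ x ∈ A, f x * g x := by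
  unfold kB
  exact Finsupp.sum_of_support_subset f hA (fun x v => v * g x) (fun _ _ => by simp)

lemma kB_eq' (f g : Γ →₀ ℝ) (A : Finset Γ) (hA : g.support ⊆ A) :
    kB f g = ∑ x ∈ A, f x * g x := by
  classical
  rw [kB_eq f g (f.support ∪ A) Finset.subset_union_left]
  symm
  apply Finset.sum_subset Finset.subset_union_right
  intro x _ hx
  have : g x = 0 := by
    by_contra h
    exact hx (hA (Finsupp.mem_support_iff.2 h))
  simp [this]

lemma kB_comm (f g : Γ →₀ ℝ) : kB f g = kB g f := by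
  rw [kB_eq f g f.support subset_rfl, kB_eq' g f f.support subset_rfl]
  exact Finset.sum_congr rfl fun x _ => mul_comm _ _

lemma kB_add_right (f g h : Γ →₀ ℝ) : kB f (g + h) = kB f g + kB f h := by
  simp only [kB_eq f _ f.support subset_rfl, Finsupp.add_apply, mul_add, Finset.sum_add_distrib]

lemma kB_sub_right (f g h : Γ →₀ ℝ) : kB f (g - h) = kB f g - kB f h := by
  simp only [kB_eq f _ f.support subset_rfl, Finsupp.sub_apply, mul_sub, Finset.sum_sub_distrib]

lemma kB_add_left (f g h : Γ →₀ ℝ) : kB (f + g) h = kB f h + kB g h := by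
  rw [kB_comm, kB_add_right, kB_comm h f, kB_comm h g]

lemma kB_sub_left (f g h : Γ →₀ ℝ) : kB (f - g) h = kB f h - kB g h := by
  rw [kB_comm, kB_sub_right, kB_comm h f, kB_comm h g]

lemma kB_sum_right {ι : Type*} (S : Finset ι) (f : Γ →₀ ℝ) (g : ι → Γ →₀ ℝ) :
    kB f (∑ i ∈ S, g i) = ∑ i ∈ S, kB f (g i) := by
  classical
  induction S using Finset.induction_on with
  | empty => simp [kB]
  | insert a S ha ih => rw [Finset.sum_insert ha, Finset.sum_insert ha, kB_add_right, ih]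

lemma kB_self_nonneg (f : Γ →₀ ℝ) : 0 ≤ kB f f := by
  rw [kB_eq f f f.support subset_rfl]
  exact Finset.sum_nonneg fun x _ => mul_self_nonneg _

lemma kN_nonneg (f : Γ →₀ ℝ) : 0 ≤ kN f := Real.sqrt_nonneg _

lemma kN_sq (f : Γ →₀ ℝ) : kN f ^ 2 = kB f f := Real.sq_sqrt (kB_self_nonneg f)

lemma kN_eq (f : Γ →₀ ℝ) (A : Finset Γ) (hA : f.support ⊆ A) :
    kN f = Real.sqrt (∑ x ∈ A, f x ^ 2) := by
  unfold kN
  rw [kB_eq f f A hA]
  simp only [sq]

lemma kB_le (f g : Γ →₀ ℝ) : kB f g ≤ kN f * kN g := by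
  classical
  rw [kB_eq f g (f.support ∪ g.support) Finset.subset_union_left,
    kN_eq f (f.support ∪ g.support) Finset.subset_union_left,
    kN_eq g (f.support ∪ g.support) Finset.subset_union_right]
  exact Real.sum_mul_le_sqrt_mul_sqrt _ _ _

lemma kN_add_le (f g : Γ →₀ ℝ) : kN (f + g) ≤ kN f + kN g := by
  apply le_of_sq_le_sq _ (add_nonneg (kN_nonneg f) (kN_nonneg g))
  rw [kN_sq, kB_add_left, kB_add_right, kB_add_right, kB_comm g f, add_sq, kN_sq, kN_sq]
  have := kB_le f g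
  linarith

lemma kN_zero : kN (0 : Γ →₀ ℝ) = 0 := by simp [kN, kB]

lemma kN_sum_le {ι : Type*} (S : Finset ι) (g : ι → Γ →₀ ℝ) :
    kN (∑ i ∈ S, g i) ≤ ∑ i ∈ S, kN (g i) := by
  classical
  induction S using Finset.induction_on with
  | empty => simp [kN_zero]
  | insert a S ha ih =>
    rw [Finset.sum_insert ha, Finset.sum_insert ha]
    exact (kN_add_le _ _).trans (by linarith)

lemma kN_single (x : Γ) : kN (Finsupp.single x (1 : ℝ)) = 1 := by
  rw [kN_eq _ {x} Finsupp.support_single_subset]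
  simp

lemma apply_le_kN (f : Γ →₀ ℝ) (x : Γ) : f x ≤ kN f := by
  have h := kB_le f (Finsupp.single x 1)
  rw [kN_single, mul_one, kB_eq' _ _ {x} Finsupp.support_single_subset] at h
  simpa using h

variable [Group Γ]

/-- right translation -/
noncomputable def kR (g : Γ) : (Γ →₀ ℝ) ≃+ (Γ →₀ ℝ) := Finsupp.domCongr (Equiv.mulRight g)

lemma kR_apply (g : Γ) (f : Γ →₀ ℝ) (x : Γ) : kR g f x = f (x * g⁻¹) := by
  simp [kR, Finsupp.domCongr_apply]

lemma kR_mul (a b : Γ) (f : Γ →₀ ℝ) : kR (a * b) f = kR b (kR a f) := by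
  ext x
  simp [kR_apply, mul_assoc]

lemma kR_one (f : Γ →₀ ℝ) : kR 1 f = f := by
  ext x
  simp [kR_apply]

lemma kB_kR (g : Γ) (f h : Γ →₀ ℝ) : kB (kR g f) h = kB f (kR g⁻¹ h) := by
  classical
  rw [kB_eq f _ f.support subset_rfl, kB_eq (kR g f) h (f.support.image fun x => x * g)]
  · rw [Finset.sum_image (fun x _ y _ hxy => mul_right_cancel hxy)]
    simp [kR_apply]
  · intro x hx
    rw [Finsupp.mem_support_iff, kR_apply] at hx
    exact Finset.mem_image.2 ⟨x * g⁻¹, Finsupp.mem_support_iff.2 hx, by simp⟩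

lemma kN_kR (g : Γ) (f : Γ →₀ ℝ) : kN (kR g f) = kN f := by
  unfold kN
  rw [kB_kR, ← kR_mul, mul_inv_cancel, kR_one]

/-- the averaging operator of the family `t` has norm at most `c` -/
def KBound {W : Type*} [Fintype W] (t : W → Γ) (c : ℝ) : Prop :=
  ∀ f : Γ →₀ ℝ, kN (∑ w, kR (t w) f) ≤ c * kN f

lemma KBound.inv {W : Type*} [Fintype W] {t : W → Γ} {c : ℝ} (hc : 0 ≤ c) (h : KBound t c) :
    KBound (fun w => (t w)⁻¹) c := by
  intro f
  set g := ∑ w, kR (t w)⁻¹ f with hg
  have h1 : kN g ^ 2 = kB f (∑ w, kR (t w) g) := by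
    rw [kN_sq, kB_sum_right]
    conv_lhs => rw [hg]
    rw [kB_sum_right]
    refine Finset.sum_congr rfl fun w _ => ?_
    rw [kB_comm, kB_kR, inv_inv]
  have h2 : kN g ^ 2 ≤ kN f * (c * kN g) := by
    rw [h1]
    exact (kB_le _ _).trans (mul_le_mul_of_nonneg_left (h g) (kN_nonneg f))
  rcases (kN_nonneg g).eq_or_lt with h0 | h0
  · rw [← h0]
    exact mul_nonneg hc (kN_nonneg f)
  · have : kN g * kN g ≤ (c * kN f) * kN g := by nlinarith
    exact le_of_mul_le_mul_right this h0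

lemma KBound.conj {W : Type*} [Fintype W] {t : W → Γ} {c : ℝ} (h : KBound t c) (l r : Γ) :
    KBound (fun w => l * t w * r) c := by
  intro f
  have : ∑ w, kR (l * t w * r) f = kR r (∑ w, kR (t w) (kR l f)) := by
    rw [map_sum]
    exact Finset.sum_congr rfl fun w _ => by rw [kR_mul, kR_mul]
  rw [this, kN_kR]
  simpa [kN_kR] using h (kR l f)

lemma KBound.prod {W : Type*} [Fintype W] {c : ℝ} (hc : 0 ≤ c) :
    ∀ (n : ℕ) (x : Fin n → W → Γ), (∀ k, KBound (x k) c) →
      KBound (fun w : Fin n → W => (List.ofFn fun k => x k (w k)).prod) (c ^ n) := by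
  classical
  intro n
  induction n with
  | zero =>
    intro x _ f
    simp [kR_one]
  | succ n ih =>
    intro x hx f
    have e : ∑ w : Fin (n + 1) → W, kR (List.ofFn fun k => x k (w k)).prod f
        = ∑ w : Fin n → W, kR (List.ofFn fun k => x k.succ (w k)).prod
          (∑ w0, kR (x 0 w0) f) := by
      rw [← (Fin.consEquiv fun _ : Fin (n + 1) => W).sum_comp, Fintype.sum_prod_type,
        Finset.sum_comm]
      refine Finset.sum_congr rfl fun w _ => ?_
      rw [map_sum]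
      refine Finset.sum_congr rfl fun w0 _ => ?_
      rw [← kR_mul, List.ofFn_succ, List.prod_cons]
      simp [Fin.consEquiv]
    rw [e]
    refine (ih (fun k => x k.succ) (fun k => hx k.succ) _).trans ?_
    rw [pow_succ, mul_assoc]
    exact mul_le_mul_of_nonneg_left (hx 0 f) (pow_nonneg hc n)

lemma KBound.count [DecidableEq Γ] {W : Type*} [Fintype W] {t : W → Γ} {c : ℝ}
    (h : KBound t c) : (((Finset.univ : Finset W).filter fun w => t w = 1).card : ℝ) ≤ c := by
  have h1 := (apply_le_kN _ 1).trans (h (Finsupp.single 1 1))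
  rw [kN_single, mul_one] at h1
  refine le_trans (le_of_eq ?_) h1
  rw [Finsupp.finsetSum_apply, Finset.card_filter]
  push_cast
  refine Finset.sum_congr rfl fun w _ => ?_
  rw [kR_apply, Finsupp.single_apply]
  by_cases hw : t w = 1
  · simp [hw]
  · have : ¬ (1 = 1 * (t w)⁻¹) := by
      intro h'
      apply hw
      rw [one_mul] at h'
      exact inv_eq_one.1 h'.symm
    simp only [hw, this, if_false]

lemma coarea [DecidableEq Γ] (K : Finset Γ) (ε : ℝ)
    (hK : ∀ U : Finset Γ, ε * U.card ≤ ∑ s ∈ K, ((U.filter fun y => y * s ∉ U).card : ℝ)) :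
    ∀ (n : ℕ) (U : Finset Γ), U.card = n → ∀ φ : Γ → ℝ, (∀ x, 0 ≤ φ x) → (∀ x, x ∉ U → φ x = 0) →
      ε * ∑ y ∈ U, φ y ≤ ∑ s ∈ K, ∑ y ∈ U, max (φ y - φ (y * s)) 0 := by
  intro n
  induction n with
  | zero =>
    intro U hU φ _ _
    rw [Finset.card_eq_zero] at hU
    simp [hU]
  | succ n ih =>
    intro U hU φ h0 hs
    have hne : U.Nonempty := Finset.card_pos.1 (by omega)
    obtain ⟨y0, hy0, hmin⟩ := U.exists_min_image φ hne
    set m := φ y0 with hm
    let ψ : Γ → ℝ := fun x => if x ∈ U then φ x - m else 0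
    have hψ0 : ∀ x, 0 ≤ ψ x := by
      intro x
      by_cases hx : x ∈ U
      · simp only [ψ, hx, if_true]
        linarith [hmin x hx]
      · simp [ψ, hx]
    have hψy : ψ y0 = 0 := by simp [ψ, hy0, hm]
    have hψs : ∀ x, x ∉ U.erase y0 → ψ x = 0 := by
      intro x hx
      by_cases hxy : x = y0
      · rw [hxy, hψy]
      · have : x ∉ U := fun h => hx (Finset.mem_erase.2 ⟨hxy, h⟩)
        simp [ψ, this]
    have h1 := ih (U.erase y0) (by rw [Finset.card_erase_of_mem hy0]; omega) ψ hψ0 hψs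
    have h2 : ∑ y ∈ U.erase y0, ψ y = ∑ y ∈ U, φ y - m * U.card := by
      rw [Finset.sum_erase _ hψy]
      have : ∑ y ∈ U, ψ y = ∑ y ∈ U, (φ y - m) :=
        Finset.sum_congr rfl fun y hy => by simp [ψ, hy]
      rw [this, Finset.sum_sub_distrib, Finset.sum_const, nsmul_eq_mul, mul_comm]
    have h3 : ∀ s ∈ K, ∑ y ∈ U.erase y0, max (ψ y - ψ (y * s)) 0
        + m * ((U.filter fun y => y * s ∉ U).card : ℝ)
        ≤ ∑ y ∈ U, max (φ y - φ (y * s)) 0 := by
      intro s _
      have a1 : ∑ y ∈ U.erase y0, max (ψ y - ψ (y * s)) 0 ≤ ∑ y ∈ U, max (ψ y - ψ (y * s)) 0 :=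
        Finset.sum_le_sum_of_subset_of_nonneg (Finset.erase_subset _ _)
          fun _ _ _ => le_max_right _ _
      have a2 : m * ((U.filter fun y => y * s ∉ U).card : ℝ)
          = ∑ y ∈ U, if y * s ∉ U then m else 0 := by
        rw [Finset.card_filter]
        push_cast
        rw [Finset.mul_sum]
        refine Finset.sum_congr rfl fun y _ => ?_
        split_ifs <;> simp
      have a3 : ∑ y ∈ U, max (ψ y - ψ (y * s)) 0 + ∑ y ∈ U, (if y * s ∉ U then m else 0)
          = ∑ y ∈ U, max (φ y - φ (y * s)) 0 := by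
        rw [← Finset.sum_add_distrib]
        refine Finset.sum_congr rfl fun y hy => ?_
        by_cases hys : y * s ∈ U
        · simp [ψ, hy, hys]
        · have b1 := hmin y hy
          have b2 := h0 y
          simp only [ψ, hy, hys, if_true, if_false, not_false_eq_true, sub_zero, hs _ hys]
          rw [max_eq_left (by linarith), max_eq_left b2]
          ring
      linarith
    have h4 := Finset.sum_le_sum h3
    rw [Finset.sum_add_distrib, ← Finset.mul_sum] at h4
    have h5 := mul_le_mul_of_nonneg_left (hK U) (h0 y0)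
    rw [h2] at h1
    nlinarith

lemma exists_far [DecidableEq Γ] (h : ¬ Folner Γ) :
    ∃ (K : Finset Γ) (δ : ℝ), 0 < δ ∧ δ ≤ 1 ∧
      ∀ f : Γ →₀ ℝ, ∃ s ∈ K, δ * kN f ≤ kN (f - kR s f) := by
  unfold Folner at h
  push Not at h
  obtain ⟨K, ε, hε, hK⟩ := h
  have hKne : K.Nonempty := by
    obtain ⟨s, hs, _⟩ := hK {1} (Finset.singleton_nonempty 1)
    exact ⟨s, hs⟩
  have hKc : (0 : ℝ) < K.card := by exact_mod_cast Finset.card_pos.2 hKne
  have hK' : ∀ U : Finset Γ,
      ε * U.card ≤ ∑ s ∈ K, ((U.filter fun y => y * s ∉ U).card : ℝ) := by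
    intro U
    rcases U.eq_empty_or_nonempty with rfl | hU
    · simp
    · obtain ⟨s, hs, h1⟩ := hK U hU
      have h2 : ((U.image fun u => u * s) \ U) = (U.filter fun y => y * s ∉ U).image
          fun u => u * s := by
        ext x
        simp only [Finset.mem_sdiff, Finset.mem_image, Finset.mem_filter]
        constructor
        · rintro ⟨⟨y, hy, rfl⟩, hx⟩
          exact ⟨y, ⟨hy, hx⟩, rfl⟩
        · rintro ⟨y, ⟨hy, hx⟩, rfl⟩
          exact ⟨⟨y, hy, rfl⟩, hx⟩
      rw [h2, Finset.card_image_of_injective _ (mul_left_injective s)] at h1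
      exact h1.le.trans (Finset.single_le_sum
        (f := fun s => ((U.filter fun y => y * s ∉ U).card : ℝ))
        (fun _ _ => Nat.cast_nonneg _) hs)
  refine ⟨K.image fun s => s⁻¹, min 1 (ε / (2 * K.card)), lt_min one_pos (by positivity),
    min_le_left _ _, fun f => ?_⟩
  have h1 := coarea K ε hK' _ f.support rfl (fun x => f x ^ 2) (fun x => sq_nonneg _)
    (fun x hx => by simp [Finsupp.notMem_support_iff.1 hx])
  have h2 : ∑ y ∈ f.support, f y ^ 2 = kN f ^ 2 := by
    rw [kN_sq, kB_eq f f f.support subset_rfl]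
    simp only [sq]
  have h3 : ∀ s ∈ K, ∑ y ∈ f.support, max (f y ^ 2 - f (y * s) ^ 2) 0
      ≤ kN (f - kR s⁻¹ f) * (2 * kN f) := by
    intro s _
    set A := f.support ∪ (kR s⁻¹ f).support with hA
    have a1 : ∑ y ∈ f.support, max (f y ^ 2 - f (y * s) ^ 2) 0
        ≤ ∑ y ∈ A, |(f - kR s⁻¹ f) y| * |(f + kR s⁻¹ f) y| := by
      refine le_trans (Finset.sum_le_sum fun y _ => ?_)
        (Finset.sum_le_sum_of_subset_of_nonneg Finset.subset_union_left
          fun _ _ _ => mul_nonneg (abs_nonneg _) (abs_nonneg _))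
      rw [← abs_mul, Finsupp.sub_apply, Finsupp.add_apply, kR_apply, inv_inv]
      refine max_le ?_ (abs_nonneg _)
      refine le_trans (le_of_eq ?_) (le_abs_self _)
      ring
    have a2 := Real.sum_mul_le_sqrt_mul_sqrt A (fun y => |(f - kR s⁻¹ f) y|)
      (fun y => |(f + kR s⁻¹ f) y|)
    simp only [sq_abs] at a2
    rw [← kN_eq _ A Finsupp.support_sub, ← kN_eq _ A Finsupp.support_add] at a2
    have a3 : kN (f + kR s⁻¹ f) ≤ 2 * kN f := by
      have := kN_add_le f (kR s⁻¹ f)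
      rw [kN_kR] at this
      linarith
    exact a1.trans (a2.trans (mul_le_mul_of_nonneg_left a3 (kN_nonneg _)))
  obtain ⟨s, hs, hmax⟩ := K.exists_max_image (fun s => kN (f - kR s⁻¹ f)) hKne
  refine ⟨s⁻¹, Finset.mem_image.2 ⟨s, hs, rfl⟩, ?_⟩
  have h4 : ε * kN f ^ 2 ≤ K.card * (kN (f - kR s⁻¹ f) * (2 * kN f)) := by
    rw [h2] at h1
    refine h1.trans ((Finset.sum_le_sum h3).trans ?_)
    rw [← nsmul_eq_mul]
    refine Finset.sum_le_card_nsmul _ _ _ fun s' hs' => ?_
    exact mul_le_mul_of_nonneg_right (hmax s' hs') (mul_nonneg zero_le_two (kN_nonneg f))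
  rcases (kN_nonneg f).eq_or_lt with h0 | h0
  · rw [← h0, mul_zero]
    exact kN_nonneg _
  · refine le_trans (mul_le_mul_of_nonneg_right (min_le_right _ _) h0.le) ?_
    rw [div_mul_eq_mul_div, div_le_iff₀ (by positivity)]
    have : (ε * kN f) * kN f ≤ (kN (f - kR s⁻¹ f) * (2 * K.card)) * kN f := by nlinarith
    exact le_of_mul_le_mul_right this h0

lemma exists_gap [DecidableEq Γ] (h : ¬ Folner Γ) :
    ∃ (a : ℕ) (θ : ℝ), 0 < θ ∧ θ < 1 ∧ ∃ t : (Fin a → F2) → Γ, KBound t (θ * 2 ^ a) := by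
  classical
  obtain ⟨K, δ, hδ, hδ1, hK⟩ := exists_far h
  set L : Finset Γ := insert 1 K with hL
  set a := L.card with ha
  have hcard : Fintype.card (Fin a → F2) = 2 ^ a := by simp
  obtain ⟨e⟩ : Nonempty (L ↪ (Fin a → F2)) := by
    apply Function.Embedding.nonempty_of_card_le
    rw [hcard, Fintype.card_coe]
    exact Nat.lt_two_pow_self.le
  let t : (Fin a → F2) → Γ := Function.extend e Subtype.val 1
  have ht : ∀ x : L, t (e x) = x := fun x => e.injective.extend_apply _ _ x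
  have hd : (1 : ℝ) ≤ 2 ^ a := one_le_pow₀ one_le_two
  have hθ : (1 - δ ^ 2 / 4 / 2 ^ a) * 2 ^ a = (2 : ℝ) ^ a - δ ^ 2 / 4 := by
    field_simp
  have hδ2 : δ ^ 2 / 4 < 1 := by nlinarith
  refine ⟨a, 1 - δ ^ 2 / 4 / 2 ^ a, ?_, ?_, t, fun f => ?_⟩
  · rw [sub_pos, div_lt_one (by positivity)]
    linarith
  · have : 0 < δ ^ 2 / 4 / 2 ^ a := by positivity
    linarith
  rw [hθ]
  rcases (kN_nonneg f).eq_or_lt with h0 | h0
  · refine (kN_sum_le _ _).trans ?_
    simp [kN_kR, ← h0]
  obtain ⟨s, hs, hfar⟩ := hK f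
  have hs1 : s ≠ 1 := by
    rintro rfl
    rw [kR_one, sub_self, kN_zero] at hfar
    have := mul_pos hδ h0
    linarith
  let w1 := e ⟨1, Finset.mem_insert_self _ _⟩
  let w2 := e ⟨s, Finset.mem_insert_of_mem hs⟩
  have hw : w1 ≠ w2 := fun h' => hs1 (congrArg Subtype.val (e.injective h')).symm
  have hsum : ∑ w, kR (t w) f = (f + kR s f) + ∑ w ∈ Finset.univ \ {w1, w2}, kR (t w) f := by
    rw [← Finset.sum_sdiff (Finset.subset_univ {w1, w2}), Finset.sum_pair hw, ht, ht, kR_one,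
      add_comm]
  have h1 : kN (f + kR s f) ≤ (2 - δ ^ 2 / 4) * kN f := by
    apply le_of_sq_le_sq _ (mul_nonneg (by linarith) h0.le)
    have p1 : kN (f + kR s f) ^ 2 + kN (f - kR s f) ^ 2 = 4 * kN f ^ 2 := by
      have := kN_kR s f
      have q : kB (kR s f) (kR s f) = kB f f := by rw [← kN_sq, ← kN_sq, this]
      simp only [kN_sq, kB_add_left, kB_add_right, kB_sub_left, kB_sub_right, q]
      ring
    have p2 : (δ * kN f) ^ 2 ≤ kN (f - kR s f) ^ 2 :=
      pow_le_pow_left₀ (mul_nonneg hδ.le h0.le) hfar 2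
    nlinarith [sq_nonneg (δ ^ 2 * kN f)]
  have h2 : kN (∑ w ∈ Finset.univ \ {w1, w2}, kR (t w) f) ≤ (2 ^ a - 2) * kN f := by
    refine (kN_sum_le _ _).trans (le_of_eq ?_)
    simp only [kN_kR, Finset.sum_const, nsmul_eq_mul]
    congr 1
    rw [Finset.card_univ_sdiff, Finset.card_pair hw, hcard, Nat.cast_sub]
    · simp
    · rw [← hcard]
      exact (Finset.card_pair hw).symm.le.trans (Finset.card_le_univ _)
  rw [hsum]
  refine (kN_add_le _ _).trans ?_
  nlinarith

end Kesten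

/-- Closed-walk bound for groups without the Foelner property. -/
theorem kesten {Γ : Type*} [Group Γ] [DecidableEq Γ] (h : ¬ Folner Γ) :
    ∃ (a : ℕ) (θ : ℝ), 0 < θ ∧ θ < 1 ∧ ∀ j : ℕ, ∃ s : (Fin (j * a) → F2) → Γ,
      ∀ (n : ℕ) (l r : Fin n → Γ) (ε : Fin n → Bool),
        (((Finset.univ : Finset (Fin n → Fin (j * a) → F2)).filter fun w =>
          (List.ofFn fun k => l k * (if ε k then s (w k) else (s (w k))⁻¹) * r k).prod = 1).card : ℝ)
          ≤ (θ ^ j * 2 ^ (j * a)) ^ n := by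
  obtain ⟨a, θ, h0, h1, t, ht⟩ := exists_gap h
  refine ⟨a, θ, h0, h1, fun j => ?_⟩
  have E : (Fin (j * a) → F2) ≃ (Fin j → Fin a → F2) := by
    apply Fintype.equivOfCardEq
    simp [← pow_mul, mul_comm]
  have hc : 0 ≤ θ ^ j * 2 ^ (j * a) := by positivity
  let s : (Fin (j * a) → F2) → Γ := fun w => (List.ofFn fun i => t (E w i)).prod
  have hs : KBound s (θ ^ j * 2 ^ (j * a)) := by
    intro f
    have h2 := KBound.prod (c := θ * 2 ^ a) (by positivity) j (fun _ => t) (fun _ => ht) f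
    rw [← E.sum_comp, mul_pow, ← pow_mul, mul_comm a j] at h2
    exact h2
  refine ⟨s, fun n l r ε => ?_⟩
  have h3 := KBound.prod hc n
    (fun k w => l k * (if ε k then s w else (s w)⁻¹) * r k) (fun k => by
      apply KBound.conj
      cases ε k
      · simpa using hs.inv hc
      · simpa using hs)
  exact h3.count

end Pool.Agent.H701Z.Fiid
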