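import Pool.Agent.H726Z.Forest.Main
import Pool.Agent.H701Z.Fiid.Kesten

set_option autoImplicit false

namespace Pool.Agent.H701Z.Fiid

open MeasureTheory

theorem exists_forest {Γ Ω : Type*} [Group Γ] [DecidableEq Γ] [Countable Γ] [Infinite Γ]
    [MeasurableSpace Ω] [MulAction Γ Ω]
    (h : ¬ Folner Γ) (P : Measure Ω) (S : Set Ω) (hB : Base Γ P S) :
    ∃ (V U : Set Ω) (pay : Ω → Γ) (D : ℕ) (Good : Fin D → Set (Ω × Bits Γ))
      (hd : Fin D → Ω × Bits Γ → Γ), Forest Γ P S V U pay D Good hd :=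
  Pool.Agent.H726Z.Forest.exists_forest_of P S hB (kesten h)

end Pool.Agent.H701Z.Fiid
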