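import Pool.Agent.H701Z.Fiid.Sys

set_option autoImplicit false

namespace Pool.Agent.H701Z.Fiid

open MeasureTheory

/-- A random forest on the vertex set `{g | g • ω ∈ V}` of average out-degree more than `2`.
Every vertex `g` owns a payload bit at the site `pay (g • ω) * g`; the forest only reads allowed
bits outside the payload sites (`U` is the set of those information sites). -/
structure Forest (Γ : Type*) {Ω : Type*} [Group Γ] [MeasurableSpace Ω] [MulAction Γ Ω]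
    (P : Measure Ω) (S V U : Set Ω) (pay : Ω → Γ) (D : ℕ) (Good : Fin D → Set (Ω × Bits Γ))
    (hd : Fin D → Ω × Bits Γ → Γ) : Prop where
  measV : MeasurableSet V
  posV : 0 < P V
  measU : MeasurableSet U
  subU : U ⊆ S
  meas_pay : ∀ γ : Γ, MeasurableSet {ω | pay ω = γ}
  pay_mem : ∀ ω ∈ V, pay ω • ω ∈ S \ U
  pay_inj : ∀ (ω : Ω) (g g' : Γ), g • ω ∈ V → g' • ω ∈ V →
    pay (g • ω) * g = pay (g' • ω) * g' → g = g'
  measGood : ∀ i, MeasurableSet (Good i)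
  meas_hd : ∀ i (γ : Γ), MeasurableSet {z | hd i z = γ}
  depGood : ∀ i, DepG Γ U fun z => z ∈ Good i
  dep_hd : ∀ i, DepG Γ U (hd i)
  tl_mem : ∀ i, ∀ z ∈ Good i, z.1 ∈ V
  hd_mem : ∀ i, ∀ z ∈ Good i, hd i z • z.1 ∈ V
  many : 2 * P V < ∑ i, (P.prod (bitsM Γ)) (Good i)
  acyclic : ∀ (z : Ω × Bits Γ) (e : Γ × Fin D), e.1 • z ∈ Good e.2 →
    ¬ Relation.ReflTransGen
      (fun u v => ∃ e' : Γ × Fin D, e' ≠ e ∧ e'.1 • z ∈ Good e'.2 ∧
        ((e'.1 = u ∧ hd e'.2 (e'.1 • z) * e'.1 = v) ∨ (e'.1 = v ∧ hd e'.2 (e'.1 • z) * e'.1 = u)))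
      (hd e.2 (e.1 • z) * e.1) e.1

end Pool.Agent.H701Z.Fiid
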