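import Pool.Agent.H701Z.Fiid.Sys

set_option autoImplicit false

namespace Pool.Agent.H701Z.Fiid

open MeasureTheory Filter Topology Set

theorem glue_countable (Γ : Type*) [Group Γ] [h : Group.FG Γ] : Countable Γ := by
  obtain ⟨α, _, φ, hφ⟩ := Group.fg_iff_exists_freeGroup_hom_surjective_finite.1 h
  exact hφ.countable

theorem exists_sq_ne_one {Γ : Type*} [Group Γ] [Group.FG Γ] [Infinite Γ] : ∃ a : Γ, a * a ≠ 1 := by
  by_contra h
  push Not at h
  have hc : ∀ a b : Γ, a * b = b * a := fun a b =>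
    Commute.of_orderOf_dvd_two (fun g => orderOf_dvd_of_pow_eq_one (by rw [pow_two, h])) a b
  let _ : CommGroup Γ := { (inferInstance : Group Γ) with mul_comm := hc }
  have : Finite Γ := CommGroup.finite_of_fg_isMulTorsion Γ fun g =>
    isOfFinOrder_iff_pow_eq_one.2 ⟨2, two_pos, by rw [pow_two, h]⟩
  exact not_finite Γ

theorem glue_split {X : Type*} [MeasurableSpace X] [StandardBorelSpace X] (μ : Measure X)
    [IsProbabilityMeasure μ] (hμ : ∀ x, μ {x} ≠ 1) :
    ∃ A : Set X, MeasurableSet A ∧ μ A ≠ 0 ∧ μ Aᶜ ≠ 0 := by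
  by_contra h
  push Not at h
  have : IsZeroOneMeasure μ := ⟨fun s hs => by
    by_cases h0 : μ s = 0
    · exact Or.inl h0
    · exact Or.inr ((prob_compl_eq_zero_iff hs).1 (h s hs h0))⟩
  obtain ⟨x, hx⟩ := IsZeroOneMeasure.exists_eq_dirac (μ := μ)
  exact hμ x (by rw [hx]; simp)

theorem glue_shift_shift {Γ X : Type*} [Group Γ] (a b : Γ) (x : Γ → X) :
    shift a (shift b x) = shift (a * b) x := by
  funext δ
  simp only [shift, mul_assoc]

theorem glue_shift_one {Γ X : Type*} [Group Γ] (x : Γ → X) : shift 1 x = x := by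
  funext δ
  simp only [shift, mul_one]

theorem glue_shift_inj {Γ X : Type*} [Group Γ] {x : Γ → X} (hx : x ∈ freePart Γ X) {a b : Γ}
    (h : shift a x = shift b x) : a = b := by
  by_contra hne
  apply hx (b⁻¹ * a) (fun e => hne (inv_mul_eq_one.1 e).symm)
  rw [← glue_shift_shift, h, glue_shift_shift, inv_mul_cancel, glue_shift_one]

theorem glue_free_inv {Γ X : Type*} [Group Γ] (γ : Γ) {x : Γ → X} (hx : x ∈ freePart Γ X) :
    shift γ x ∈ freePart Γ X := by
  intro g hg e
  rw [glue_shift_shift] at e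
  exact hg (mul_eq_right.1 (glue_shift_inj hx e))

theorem glue_measurable_shift {Γ X : Type*} [Group Γ] [MeasurableSpace X] (γ : Γ) :
    Measurable (shift γ : (Γ → X) → Γ → X) :=
  measurable_pi_lambda _ fun _ => measurable_pi_apply _

theorem glue_shift_mp {Γ X : Type*} [Group Γ] [MeasurableSpace X] (μ : Measure X)
    [IsProbabilityMeasure μ] (γ : Γ) :
    MeasurePreserving (shift γ) (Measure.infinitePi fun _ : Γ => μ)
      (Measure.infinitePi fun _ : Γ => μ) :=
  ⟨glue_measurable_shift γ, Measure.map_infinitePi_infinitePi_of_inj (P := fun _ : Γ => μ)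
    (f := fun δ : Γ => δ * γ) (mul_left_injective γ)⟩

theorem glue_null_of_le_pow {a c : ENNReal} (hc : c < 1) (h : ∀ n : ℕ, a ≤ c ^ n) : a = 0 :=
  le_antisymm (ge_of_tendsto' (ENNReal.tendsto_pow_atTop_nhds_zero_of_lt_one hc) h) zero_le

theorem glue_free_ae {Γ X : Type*} [Group Γ] [Countable Γ] [Infinite Γ] [MeasurableSpace X]
    (μ : Measure X) [IsProbabilityMeasure μ] {A : Set X} (hA : MeasurableSet A) (h0 : μ A ≠ 0)
    (h1 : μ Aᶜ ≠ 0) : ∀ᵐ x ∂(Measure.infinitePi fun _ : Γ => μ), x ∈ freePart Γ X := by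
  classical
  refine ae_all_iff.2 fun g => ?_
  by_cases hg : g = 1
  · exact Eventually.of_forall fun x h => absurd hg h
  obtain ⟨h, -, hh⟩ := exists_seq_of_forall_finset_exists (fun _ : Γ => True)
    (fun x y => x ≠ y ∧ x ≠ y * g ∧ x * g ≠ y) (fun s _ => by
      obtain ⟨y, hy⟩ := Infinite.exists_notMem_finset
        (s ∪ s.image (fun x => x * g⁻¹) ∪ s.image (fun x => x * g))
      simp only [Finset.mem_union, Finset.mem_image, not_or, not_exists, not_and] at hy
      exact ⟨y, trivial, fun x hx => ⟨fun e => hy.1.1 (e ▸ hx),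
        fun e => hy.1.2 x hx (by rw [e, mul_inv_cancel_right]), hy.2 x hx⟩⟩)
  let ι : ℕ × Bool → Γ := fun p => if p.2 then h p.1 * g else h p.1
  have hι : Function.Injective ι := by
    rintro ⟨m, b⟩ ⟨n, c⟩ e
    rcases lt_trichotomy m n with k | k | k
    · obtain ⟨k1, k2, k3⟩ := hh m n k
      cases b <;> cases c <;> simp_all [ι]
    · subst k
      cases b <;> cases c <;> simp_all [ι]
    · obtain ⟨k1, k2, k3⟩ := hh n m k
      replace e := e.symm
      cases b <;> cases c <;> simp_all [ι]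
  let μ2 : Measure (Bool → X) := Measure.infinitePi fun _ : Bool => μ
  let T : (Γ → X) → ℕ → Bool → X := fun x n b => x (ι (n, b))
  have hT : MeasurePreserving T (Measure.infinitePi fun _ : Γ => μ)
      (Measure.infinitePi fun _ : ℕ => μ2) := by
    have m1 : MeasurePreserving (fun (x : Γ → X) (p : ℕ × Bool) => x (ι p))
        (Measure.infinitePi fun _ : Γ => μ) (Measure.infinitePi fun _ : ℕ × Bool => μ) :=
      ⟨by fun_prop, Measure.map_infinitePi_infinitePi_of_inj (P := fun _ : Γ => μ) hι⟩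
    have m2 : MeasurePreserving (MeasurableEquiv.curry ℕ Bool X)
        (Measure.infinitePi fun _ : ℕ × Bool => μ) (Measure.infinitePi fun _ : ℕ => μ2) :=
      ⟨MeasurableEquiv.measurable _, Measure.infinitePi_map_curry fun _ _ => μ⟩
    exact m2.comp m1
  let C : Set (Bool → X) := Set.pi (Finset.univ : Finset Bool) fun b => if b then A else Aᶜ
  have mb : ∀ b : Bool, MeasurableSet (if b then A else Aᶜ) := fun b => by
    split_ifs
    exacts [hA, hA.compl]
  have hC : MeasurableSet C := MeasurableSet.pi (Finset.countable_toSet _) fun b _ => mb b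
  have hC0 : μ2 C ≠ 0 := by
    rw [Measure.infinitePi_pi _ fun b _ => mb b]
    simp [h0, h1]
  have hlt : μ2 Cᶜ < 1 := lt_of_le_of_ne prob_le_one fun e =>
    hC0 ((prob_compl_eq_one_iff hC).1 e)
  rw [ae_iff]
  refine glue_null_of_le_pow hlt fun n => ?_
  have e1 : (Measure.infinitePi fun _ : ℕ => μ2) (Set.pi (Finset.range n) fun _ => Cᶜ)
      = μ2 Cᶜ ^ n := by
    rw [Measure.infinitePi_pi _ fun _ _ => hC.compl]
    simp
  rw [← e1, ← hT.measure_preimage
    (MeasurableSet.pi (Finset.countable_toSet _) fun _ _ => hC.compl).nullMeasurableSet]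
  refine measure_mono fun x hx i _ hi => ?_
  have hx' : shift g x = x := by simpa [hg] using hx
  have k1 : x (h i * g) ∈ A := by simpa [T, ι] using hi true (by simp)
  have k2 : x (h i) ∉ A := by simpa [T, ι] using hi false (by simp)
  exact k2 (congrFun hx' (h i) ▸ k1)

theorem glue_fiid_iff {Γ X : Type*} [Group Γ] [Countable Γ] [MeasurableSpace X]
    (μ : Measure X) [IsProbabilityMeasure μ]
    (hfree : ∀ᵐ x ∂(Measure.infinitePi fun _ : Γ => μ), x ∈ freePart Γ X) (L : LCL Γ) :
    L ∈ FIID X μ Γ ↔ Solv X μ L := by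
  constructor
  · rintro ⟨A, f, -, -, h3, h4, h5⟩
    have hA : ∀ᵐ x ∂(Measure.infinitePi fun _ : Γ => μ), x ∈ A := by
      filter_upwards [hfree, measure_eq_zero_iff_ae_notMem.1 h3] with x h1 h2
      by_contra k
      exact h2 ⟨h1, k⟩
    have hf : NullMeasurable f (Measure.infinitePi fun _ : Γ => μ) := by
      refine measurable_to_countable' fun s => ?_
      refine (h4 s).congr ?_
      filter_upwards [hA] with x hx
      exact propext ⟨fun k => k.2, fun k => ⟨hx, k⟩⟩
    have hf' := hf.aemeasurable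
    refine ⟨hf'.mk f, hf'.measurable_mk, ?_⟩
    have h6 : ∀ᵐ x ∂(Measure.infinitePi fun _ : Γ => μ), ∀ δ : Γ,
        f (shift δ x) = hf'.mk f (shift δ x) :=
      ae_all_iff.2 fun δ => (glue_shift_mp μ δ).quasiMeasurePreserving.ae hf'.ae_eq_mk
    filter_upwards [hA, h6] with x h1 h2
    simpa only [h2] using h5 x h1
  · rintro ⟨f, hf, h⟩
    have h6 : ∀ᵐ x ∂(Measure.infinitePi fun _ : Γ => μ), x ∈ freePart Γ X ∧ ∀ γ : Γ,
        (fun δ : L.F => f (shift (δ : Γ) (shift γ x))) ∈ L.P :=
      hfree.and (ae_all_iff.2 fun γ => (glue_shift_mp μ γ).quasiMeasurePreserving.ae h)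
    refine ⟨{x | x ∈ freePart Γ X ∧ ∀ γ : Γ,
        (fun δ : L.F => f (shift (δ : Γ) (shift γ x))) ∈ L.P}, f, fun x hx => hx.1,
      fun γ x hx => ⟨glue_free_inv γ hx.1, fun g => ?_⟩, measure_mono_null (fun x hx => hx.2) h6,
      fun s => ?_, fun y hy => ?_⟩
    · rw [glue_shift_shift g γ]
      exact hx.2 _
    · exact (NullMeasurableSet.of_compl (NullMeasurableSet.of_null h6)).inter
        (hf (measurableSet_singleton s)).nullMeasurableSet
    · simpa only [glue_shift_one] using hy.2 1

theorem glue_solv_map {Γ X Y : Type*} [Group Γ] [MeasurableSpace X] [MeasurableSpace Y]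
    (μ : Measure X) [IsProbabilityMeasure μ] {ψ : X → Y} (hψ : Measurable ψ) (L : LCL Γ)
    (h : Solv Y (μ.map ψ) L) : Solv X μ L := by
  obtain ⟨f, hf, h⟩ := h
  have hT : MeasurePreserving (fun (x : Γ → X) (g : Γ) => ψ (x g))
      (Measure.infinitePi fun _ : Γ => μ) (Measure.infinitePi fun _ : Γ => μ.map ψ) :=
    ⟨by fun_prop, Measure.infinitePi_map_pi (fun _ : Γ => μ) fun _ => hψ⟩
  exact ⟨fun x => f fun g => ψ (x g), hf.comp hT.measurable, hT.quasiMeasurePreserving.ae h⟩

theorem glue_bits {Γ : Type*} [Group Γ] (L : LCL Γ) (h : Solv (ℕ → F2) (fairPi ℕ) L) :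
    SolvBits L := by
  obtain ⟨f, hf, h⟩ := h
  have hT : MeasurePreserving (MeasurableEquiv.curry Γ ℕ F2) (fairPi (Γ × ℕ))
      (Measure.infinitePi fun _ : Γ => fairPi ℕ) :=
    ⟨MeasurableEquiv.measurable _, Measure.infinitePi_map_curry fun _ _ => fair⟩
  exact ⟨fun z => f (MeasurableEquiv.curry Γ ℕ F2 z), hf.comp hT.measurable,
    hT.quasiMeasurePreserving.ae h⟩

open ProbabilityTheory in
/-- the probability integral transform -/
theorem glue_uniform (ρ : Measure ℝ) [IsProbabilityMeasure ρ] (h : ∀ x, ρ {x} = 0) :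
    ∃ U : ℝ → unitInterval, Measurable U ∧ ρ.map U = volume := by
  have hm := monotone_cdf ρ
  have hc : Continuous (cdf ρ) := continuous_iff_continuousAt.2 fun a => by
    rw [hm.continuousAt_iff_leftLim_eq_rightLim, StieltjesFunction.rightLim_eq]
    have := (cdf ρ).measure_singleton a
    rw [measure_cdf, h, eq_comm, ENNReal.ofReal_eq_zero, sub_nonpos] at this
    exact le_antisymm (hm.leftLim_le le_rfl) this
  have hU : Measurable fun x => (⟨cdf ρ x, cdf_nonneg ρ x, cdf_le_one ρ x⟩ : unitInterval) :=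
    hc.measurable.subtype_mk
  refine ⟨_, hU, ?_⟩
  have := Measure.isProbabilityMeasure_map (μ := ρ) hU.aemeasurable
  refine Measure.ext_of_Iic _ _ fun u => ?_
  rw [Measure.map_apply hU measurableSet_Iic, unitInterval.volume_Iic]
  change ρ {x | cdf ρ x ≤ u} = _
  rcases u.2.2.eq_or_lt with h1 | h1
  · rw [h1, eq_univ_of_forall (s := {x | cdf ρ x ≤ 1}) fun x => cdf_le_one ρ x]
    simp
  by_cases h0 : {x | cdf ρ x ≤ u}.Nonempty
  · obtain ⟨b, hb⟩ := ((tendsto_cdf_atTop ρ).eventually (lt_mem_nhds h1)).exists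
    have hbd : BddAbove {x | cdf ρ x ≤ u} :=
      ⟨b, fun x hx => le_of_not_gt fun k => absurd (hb.trans_le (hm k.le)) (not_lt.2 hx)⟩
    have hs := (isClosed_le hc continuous_const).csSup_mem h0 hbd
    have e : {x | cdf ρ x ≤ u} = Iic (sSup {x | cdf ρ x ≤ u}) :=
      Subset.antisymm (fun x hx => le_csSup hbd hx) fun x hx => (hm hx).trans hs
    rw [e, ← ofReal_cdf]
    congr 1
    refine le_antisymm hs ?_
    refine ge_of_tendsto (hc.continuousAt.tendsto.mono_left
      (nhdsWithin_le_nhds (s := Ioi (sSup {x | cdf ρ x ≤ u})))) ?_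
    filter_upwards [self_mem_nhdsWithin] with x hx
    exact le_of_not_gt fun k => absurd (le_csSup hbd k.le) (not_le.2 hx)
  · rw [not_nonempty_iff_eq_empty.1 h0, measure_empty, eq_comm, ENNReal.ofReal_eq_zero]
    by_contra k
    exact h0 ((tendsto_cdf_atBot ρ).eventually (ge_mem_nhds (not_le.1 k))).exists

theorem glue_onto {Y : Type*} [MeasurableSpace Y] [StandardBorelSpace Y] (ν : Measure Y)
    [IsProbabilityMeasure ν] : ∃ ψ : (ℕ → F2) → Y, Measurable ψ ∧ (fairPi ℕ).map ψ = ν := by
  have : Nonempty Y := ν.nonempty_of_neZero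
  obtain ⟨f, hf, hf'⟩ := ν.exists_measurable_map_eq
  have he := measurableEmbedding_embeddingReal (ℕ → F2)
  have := Measure.isProbabilityMeasure_map (μ := fairPi ℕ) he.measurable.aemeasurable
  obtain ⟨U, hU, hU'⟩ := glue_uniform ((fairPi ℕ).map (embeddingReal (ℕ → F2))) fun x => by
    rw [he.map_apply]
    refine Set.Subsingleton.induction_on (p := fun s => fairPi ℕ s = 0)
      (subsingleton_singleton.preimage he.injective) measure_empty fun b => ?_
    refine glue_null_of_le_pow (c := 2⁻¹) (by simp) fun n => ?_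
    have e1 : fairPi ℕ (Set.pi (Finset.range n) fun i => {b i}) = 2⁻¹ ^ n := by
      rw [fairPi, Measure.infinitePi_pi _ fun _ _ => measurableSet_singleton _]
      simp [fair_singleton]
    rw [← e1]
    exact measure_mono (by rintro _ rfl i _; rfl)
  refine ⟨f ∘ U ∘ embeddingReal _, hf.comp (hU.comp he.measurable), ?_⟩
  rw [← Measure.map_map hf (hU.comp he.measurable), ← Measure.map_map hU he.measurable, hU', hf']

theorem glue_finite {Γ X : Type*} [Group Γ] [Finite Γ] [MeasurableSpace X] [StandardBorelSpace X]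
    (μ : Measure X) [IsProbabilityMeasure μ] {A : Set X} (hA : MeasurableSet A) (h0 : μ A ≠ 0)
    (h1 : μ Aᶜ ≠ 0) : FIID X μ Γ =
      {L | ∃ σ : Γ → Fin L.k, ∀ g : Γ, (fun δ : L.F => σ ((δ : Γ) * g)) ∈ L.P} := by
  classical
  have := Fintype.ofFinite Γ
  ext L
  constructor
  · rintro ⟨B, f, -, h2, h3, -, h5⟩
    have hB : B.Nonempty := by
      rw [nonempty_iff_ne_empty]
      rintro rfl
      have mb : ∀ g : Γ, MeasurableSet (if g = 1 then A else Aᶜ) := fun g => by
        split_ifs
        exacts [hA, hA.compl]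
      have k : (Set.pi (Finset.univ : Finset Γ) fun g => if g = 1 then A else Aᶜ)
          ⊆ freePart Γ X \ ∅ := by
        intro x hx
        refine ⟨fun g hg e => ?_, notMem_empty x⟩
        have k1 : x 1 ∈ A := by simpa using hx 1 (by simp)
        have k2 : x g ∉ A := by simpa [hg] using hx g (by simp)
        have k3 : x (1 * g) = x 1 := congrFun e 1
        rw [one_mul] at k3
        exact k2 (k3 ▸ k1)
      have k4 := measure_mono_null k h3
      rw [Measure.infinitePi_pi _ (fun g _ => mb g), Finset.prod_eq_zero_iff] at k4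
      obtain ⟨g, -, hg⟩ := k4
      split_ifs at hg
      exacts [h0 hg, h1 hg]
    obtain ⟨y, hy⟩ := hB
    refine ⟨fun g => f (shift g y), fun g => ?_⟩
    simpa only [glue_shift_shift] using h5 _ (h2 g y hy)
  · rintro ⟨σ, hσ⟩
    have he := measurableEmbedding_embeddingReal (Γ → X)
    set e := embeddingReal (Γ → X)
    choose c hc using fun x : Γ → X => Finite.exists_min fun γ : Γ => e (shift γ x)
    have huniq : ∀ x ∈ freePart Γ X, ∀ γ, (∀ g, e (shift γ x) ≤ e (shift g x)) → c x = γ :=
      fun x hx γ h => glue_shift_inj hx (he.injective (le_antisymm (hc x γ) (h _)))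
    have hme : ∀ γ : Γ, Measurable fun x => e (shift γ x) := fun γ =>
      he.measurable.comp (glue_measurable_shift γ)
    have hfree : MeasurableSet (freePart Γ X) := by
      have : freePart Γ X = ⋂ γ : Γ, ⋂ _ : γ ≠ 1, {x | e (shift γ x) = e x}ᶜ := by
        ext x
        simp [freePart, he.injective.eq_iff]
      rw [this]
      exact MeasurableSet.iInter fun γ => MeasurableSet.iInter fun _ =>
        (measurableSet_eq_fun (hme γ) he.measurable).compl
    refine ⟨freePart Γ X, fun x => σ (c x)⁻¹, subset_rfl, fun γ x hx => glue_free_inv γ hx,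
      by simp, fun s => ?_, fun y hy => ?_⟩
    · have : freePart Γ X ∩ (fun x => σ (c x)⁻¹) ⁻¹' {s} = freePart Γ X ∩
          ⋃ γ : Γ, ⋃ _ : σ γ⁻¹ = s, ⋂ g : Γ, {x | e (shift γ x) ≤ e (shift g x)} := by
        ext x
        simp only [mem_inter_iff, mem_preimage, mem_singleton_iff, mem_iUnion, mem_iInter,
          mem_ofPred_eq, exists_prop, and_congr_right_iff]
        exact fun hx => ⟨fun h => ⟨c x, h, hc x⟩, fun ⟨γ, h, k⟩ => huniq x hx γ k ▸ h⟩
      rw [this]
      exact (hfree.inter (MeasurableSet.iUnion fun γ => MeasurableSet.iUnion fun _ =>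
        MeasurableSet.iInter fun g => measurableSet_le (hme γ) (hme g))).nullMeasurableSet
    · have k : ∀ δ : Γ, (c (shift δ y))⁻¹ = δ * (c y)⁻¹ := fun δ => by
        rw [huniq _ (glue_free_inv δ hy) (c y * δ⁻¹) fun g => by
          rw [glue_shift_shift, glue_shift_shift, inv_mul_cancel_right]; exact hc y _]
        simp
      simpa only [k] using hσ (c y)⁻¹

theorem fiid_eq_of_core {Γ : Type*} [Group Γ] [Group.FG Γ]
    (core : Infinite Γ → ∀ (ν : Measure Bool) [IsProbabilityMeasure ν], ν {false} ≠ 0 →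
      ν {true} ≠ 0 → ∀ L : LCL Γ, SolvBits L → Solv Bool ν L)
    (X Y : Type*) [MeasurableSpace X] [StandardBorelSpace X] [MeasurableSpace Y]
    [StandardBorelSpace Y]
    (μ : Measure X) [IsProbabilityMeasure μ] (ν : Measure Y) [IsProbabilityMeasure ν]
    (hμ : ∀ x, μ {x} ≠ 1) (hν : ∀ y, ν {y} ≠ 1) : FIID X μ Γ = FIID Y ν Γ := by
  classical
  obtain ⟨A, hA, a0, a1⟩ := glue_split μ hμ
  obtain ⟨B, hB, b0, b1⟩ := glue_split ν hν
  rcases finite_or_infinite Γ with hΓ | hΓ
  · rw [glue_finite μ hA a0 a1, glue_finite ν hB b0 b1]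
  have := glue_countable Γ
  have toB : ∀ (L : LCL Γ), (Solv X μ L → SolvBits L) ∧ (Solv Y ν L → SolvBits L) := fun L => by
    obtain ⟨ψ, h1, h2⟩ := glue_onto μ
    obtain ⟨χ, k1, k2⟩ := glue_onto ν
    exact ⟨fun h => glue_bits L (glue_solv_map _ h1 L (h2 ▸ h)),
      fun h => glue_bits L (glue_solv_map _ k1 L (k2 ▸ h))⟩
  have mA : Measurable fun x => decide (x ∈ A) := measurable_to_bool (by
    convert hA using 1; ext x; simp)
  have mB : Measurable fun x => decide (x ∈ B) := measurable_to_bool (by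
    convert hB using 1; ext x; simp)
  have pA := Measure.isProbabilityMeasure_map (μ := μ) mA.aemeasurable
  have pB := Measure.isProbabilityMeasure_map (μ := ν) mB.aemeasurable
  ext L
  rw [glue_fiid_iff μ (glue_free_ae μ hA a0 a1), glue_fiid_iff ν (glue_free_ae ν hB b0 b1)]
  constructor
  · intro h
    refine glue_solv_map ν mB L (core hΓ _ ?_ ?_ L ((toB L).1 h))
    · rw [Measure.map_apply mB (measurableSet_singleton _)]
      convert b1 using 2
      ext x; simp
    · rw [Measure.map_apply mB (measurableSet_singleton _)]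
      convert b0 using 2
      ext x; simp
  · intro h
    refine glue_solv_map μ mA L (core hΓ _ ?_ ?_ L ((toB L).2 h))
    · rw [Measure.map_apply mA (measurableSet_singleton _)]
      convert a1 using 2
      ext x; simp
    · rw [Measure.map_apply mA (measurableSet_singleton _)]
      convert a0 using 2
      ext x; simp

end Pool.Agent.H701Z.Fiid
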