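import Pool.Agent.H701Z.Fiid.Step

set_option autoImplicit false

namespace Pool.Agent.H701Z.Fiid

open MeasureTheory Filter Topology
open scoped ENNReal

lemma exists_chain {α : Type*} (Inv : ℕ → α → Prop) (Rel : ℕ → α → α → Prop) (a0 : α)
    (h0 : Inv 0 a0) (hs : ∀ n a, Inv n a → ∃ b, Inv (n + 1) b ∧ Rel n a b) :
    ∃ f : ℕ → α, ∀ n, Inv n (f n) ∧ Rel n (f n) (f (n + 1)) := by
  choose! nx hnx using hs
  let f : ℕ → α := fun n => Nat.rec a0 nx n
  have hf : ∀ n, Inv n (f n) := by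
    intro n
    induction n with
    | zero => exact h0
    | succ n ih => exact (hnx n _ ih).1
  exact ⟨f, fun n => ⟨hf n, (hnx n _ (hf n)).2⟩⟩

theorem iterate {Γ Ω A : Type*} [Group Γ] [DecidableEq Γ] [Countable Γ] [Infinite Γ]
    [MeasurableSpace Ω] [MulAction Γ Ω] [Fintype A] [MeasurableSpace A]
    [MeasurableSingletonClass A] {P : Measure Ω} {S : Set Ω} (hB : Base Γ P S) (hF : Folner Γ)
    (a0 : A) :
    ∃ δ0 : ℝ, 0 < δ0 ∧ ∀ F0 : Ω × Bits Γ → A, Measurable F0 → DepF Γ ∅ F0 →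
      (P.prod (bitsM Γ)).real {ζ | F0 ζ ≠ a0} ≤ δ0 →
      ∀ (E : Finset Γ) (Rel : Ω → (Γ → A) → Prop),
        (∀ ω f f', (∀ g ∈ E, f g = f' g) → Rel ω f → Rel ω f') →
        (∀ᵐ ζ ∂(P.prod (bitsM Γ)), Rel ζ.1 fun g => F0 (g • ζ)) →
        ∃ G : Ω × Bits Γ → A, Measurable G ∧ DepG Γ S G ∧
          ∀ᵐ ζ ∂(P.prod (bitsM Γ)), Rel ζ.1 fun g => G (g • ζ) := by
  classical
  have := hB.prob
  set Q := P.prod (bitsM Γ) with hQ
  set ρ := P.real S with hρ
  have hρ0 : 0 < ρ := ENNReal.toReal_pos hB.posS.ne' (by finiteness)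
  have hρ1 : ρ ≤ 1 := measureReal_le_one
  have hst := fun k : ℕ => step (A := A) hB hF (ρ / 20 * (1 / 2) ^ k) (by positivity) (by
    have : ((1 : ℝ) / 2) ^ k ≤ 1 := pow_le_one₀ (by norm_num) (by norm_num)
    nlinarith)
  choose d hd hstep using hst
  set δ : ℕ → ℝ := fun k => min (d k) ((1 / 2) ^ k) with hδ
  have hδ0 : ∀ k, 0 < δ k := fun k => lt_min (hd k) (by positivity)
  refine ⟨δ 0, hδ0 0, fun F0 hF0 hF0d hF0p E Rel hRel hRel0 => ?_⟩
  obtain ⟨f, hf⟩ := exists_chain (α := Set Ω × (Ω × Bits Γ → A) × (Ω × Bits Γ → A))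
    (fun k a => MeasurableSet a.1 ∧ a.1 ⊆ S ∧ P.real a.1 ≤ ρ / 2 - ρ / 2 * (1 / 2) ^ k ∧
      Measurable a.2.1 ∧ Measurable a.2.2 ∧ DepF Γ a.1 a.2.1 ∧ DepG Γ a.1 a.2.2 ∧
      Q.real {ζ | a.2.1 ζ ≠ a.2.2 ζ} ≤ δ k ∧ ∀ᵐ ζ ∂Q, Rel ζ.1 fun g => a.2.1 (g • ζ))
    (fun k a b => Q.real {ζ | a.2.2 ζ ≠ b.2.2 ζ} ≤ 2 * (1 / 2) ^ k) (∅, F0, fun _ => a0)
    ⟨MeasurableSet.empty, Set.empty_subset _, by simp, hF0, measurable_const, hF0d,
      fun _ _ _ _ => rfl, hF0p, hRel0⟩ (by
      rintro k ⟨U, F, G⟩ ⟨h1, h2, h3, h4, h5, h6, h7, h8, h9⟩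
      simp only at h1 h2 h3 h4 h5 h6 h7 h8 h9
      have hk0 : (0 : ℝ) < (1 / 2) ^ k := by positivity
      have hk1 : ((1 : ℝ) / 2) ^ k ≤ 1 := pow_le_one₀ (by norm_num) (by norm_num)
      obtain ⟨U', Φ, G', g1, g2, g3, g4, g5, g6, g7, g8, g9, g10, g11⟩ :=
        hstep k U F G h1 h2 h4 h5 h6 h7 (h8.trans (min_le_left _ _)) (by
          rw [measureReal_diff h2 h1]
          nlinarith) (δ (k + 1)) (hδ0 _)
      refine ⟨(U', F ∘ Φ, G'), ⟨g1, g2, ?_, h4.comp g4.measurable, g7, g8, g9, g11, ?_⟩, ?_⟩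
      · refine g3.trans ?_
        rw [pow_succ]
        linarith
      · filter_upwards [g4.quasiMeasurePreserving.ae h9] with ζ hζ
        simp only [Function.comp_apply, g5]
        rwa [g6] at hζ
      · have hsub : {ζ | G ζ ≠ G' ζ} ⊆ Φ ⁻¹' {ζ | F ζ ≠ G ζ} ∪ {ζ | F (Φ ζ) ≠ G' ζ} := by
          intro ζ hζ
          by_contra h
          simp only [Set.mem_union, Set.mem_preimage, Set.mem_setOf_eq, not_or, not_not, g10] at h
          exact hζ (h.1.symm.trans h.2)
        refine (measureReal_mono hsub).trans ((measureReal_union_le _ _).trans ?_)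
        have e1 : Q.real (Φ ⁻¹' {ζ | F ζ ≠ G ζ}) ≤ δ k := by
          simp only [Measure.real]
          rw [g4.measure_preimage (s := {ζ | F ζ ≠ G ζ})
            (measurableSet_eq_fun h4 h5).compl.nullMeasurableSet]
          exact h8
        have e2 : δ k ≤ (1 / 2) ^ k := min_le_right _ _
        have e3 : δ (k + 1) ≤ (1 / 2) ^ (k + 1) := min_le_right _ _
        rw [pow_succ] at e3
        linarith)
  set G : ℕ → Ω × Bits Γ → A := fun k => (f k).2.2 with hG
  set F : ℕ → Ω × Bits Γ → A := fun k => (f k).2.1 with hF'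
  have hGm : ∀ k, Measurable (G k) := fun k => (hf k).1.2.2.2.2.1
  have hFm : ∀ k, Measurable (F k) := fun k => (hf k).1.2.2.2.1
  set lim : (ℕ → A) → A := fun s => if h : ∃ a, ∃ k0, ∀ k ≥ k0, s k = a then h.choose else a0
    with hlim
  have hlim1 : ∀ (s : ℕ → A) a k0, (∀ k ≥ k0, s k = a) → lim s = a := by
    intro s a k0 h
    have h' : ∃ a, ∃ k0, ∀ k ≥ k0, s k = a := ⟨a, k0, h⟩
    simp only [hlim, dif_pos h']
    obtain ⟨k1, hk1⟩ := h'.choose_spec
    rw [← hk1 (max k0 k1) (le_max_right _ _), h _ (le_max_left _ _)]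
  have hlimm : Measurable lim := by
    refine measurable_to_countable' fun a => ?_
    have h1 : ∀ a, MeasurableSet {s : ℕ → A | ∃ k0, ∀ k ≥ k0, s k = a} := by
      intro a
      have : {s : ℕ → A | ∃ k0, ∀ k ≥ k0, s k = a} =
          ⋃ k0, ⋂ k, ⋂ (_ : k ≥ k0), (fun s : ℕ → A => s k) ⁻¹' {a} := by
        ext s; simp
      rw [this]
      exact MeasurableSet.iUnion fun k0 => MeasurableSet.iInter fun k =>
        MeasurableSet.iInter fun _ => measurable_pi_apply k (measurableSet_singleton a)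
    have : lim ⁻¹' {a} = {s : ℕ → A | ∃ k0, ∀ k ≥ k0, s k = a} ∪
        ((⋃ b, {s : ℕ → A | ∃ k0, ∀ k ≥ k0, s k = b})ᶜ ∩ {_s | a0 = a}) := by
      ext s
      simp only [Set.mem_preimage, Set.mem_singleton_iff, Set.mem_union, Set.mem_setOf_eq,
        Set.mem_inter_iff, Set.mem_compl_iff, Set.mem_iUnion]
      by_cases h : ∃ a, ∃ k0, ∀ k ≥ k0, s k = a
      · obtain ⟨b, k0, hb⟩ := h
        rw [hlim1 s b k0 hb]
        constructor
        · rintro rfl
          exact Or.inl ⟨k0, hb⟩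
        · rintro (⟨k1, h1⟩ | ⟨h1, -⟩)
          · rw [← hb (max k0 k1) (le_max_left _ _), h1 _ (le_max_right _ _)]
          · exact absurd ⟨b, k0, hb⟩ h1
      · simp only [hlim, dif_neg h]
        constructor
        · exact fun h1 => Or.inr ⟨h, h1⟩
        · rintro (h1 | ⟨-, h1⟩)
          · exact absurd ⟨a, h1⟩ h
          · exact h1
    rw [this]
    exact (h1 a).union ((MeasurableSet.iUnion h1).compl.inter (MeasurableSet.const _))
  have hGlm : Measurable fun ζ => lim fun k => G k ζ := hlimm.comp (measurable_pi_iff.2 hGm)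
  refine ⟨fun ζ => lim fun k => G k ζ, hGlm, ?_, ?_⟩
  · intro ω z z' h
    simp only
    congr 1
    funext k
    exact (hf k).1.2.2.2.2.2.2.1 ω z z' fun g hg => h g ((hf k).1.2.1 hg)
  · set e : ℕ → ℝ≥0∞ := fun k => ENNReal.ofReal (2 * (1 / 2) ^ k) with he
    have hes : ∑' k, e k ≠ ∞ := by
      have : Summable fun k : ℕ => 2 * ((1 : ℝ) / 2) ^ k := summable_geometric_two.mul_left 2
      rw [he, ← ENNReal.ofReal_tsum_of_nonneg (fun k => by positivity) this]
      exact ENNReal.ofReal_ne_top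
    have ht1 := ENNReal.tendsto_sum_nat_add e hes
    have ht2 := ENNReal.tendsto_atTop_zero_of_tsum_ne_top hes
    have ht3 : Tendsto (fun k => (E.card : ℝ≥0∞) * (∑' j, e (j + k) + e k)) atTop (𝓝 0) := by
      have := ENNReal.Tendsto.const_mul (a := (E.card : ℝ≥0∞)) (ht1.add ht2)
        (Or.inr (ENNReal.natCast_ne_top _))
      simpa using this
    rw [ae_iff]
    refine le_antisymm (ge_of_tendsto' ht3 fun k => ?_) (zero_le)
    set D : Set (Ω × Bits Γ) := {ζ | F k ζ ≠ lim fun k => G k ζ} with hD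
    have hDm : MeasurableSet D := (measurableSet_eq_fun (hFm k) hGlm).compl
    have hDle : Q D ≤ ∑' j, e (j + k) + e k := by
      have hsub : D ⊆ (⋃ j, {ζ | G (j + k) ζ ≠ G (j + k + 1) ζ}) ∪ {ζ | F k ζ ≠ G k ζ} := by
        intro ζ hζ
        by_contra h
        simp only [Set.mem_union, Set.mem_iUnion, Set.mem_setOf_eq, not_or, not_exists,
          not_not] at h
        refine hζ (h.2.trans (hlim1 _ _ k fun i hi => ?_).symm)
        induction i, hi using Nat.le_induction with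
        | base => rfl
        | succ i hi ih =>
          rw [← ih]
          have := h.1 (i - k)
          rw [Nat.sub_add_cancel hi] at this
          exact this.symm
      refine (measure_mono hsub).trans ((measure_union_le _ _).trans (add_le_add
        ((measure_iUnion_le _).trans (ENNReal.tsum_le_tsum fun j => ?_)) ?_))
      · exact (ENNReal.le_ofReal_iff_toReal_le (by finiteness) (by positivity)).2 (hf (j + k)).2
      · refine (ENNReal.le_ofReal_iff_toReal_le (by finiteness) (by positivity)).2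
          ((hf k).1.2.2.2.2.2.2.2.1.trans ((min_le_right _ _).trans ?_))
        have : (0 : ℝ) < (1 / 2) ^ k := by positivity
        linarith
    have hsub : {ζ : Ω × Bits Γ | ¬ Rel ζ.1 fun g => lim fun k => G k (g • ζ)} ⊆
        {ζ | ¬ Rel ζ.1 fun g => F k (g • ζ)} ∪ ⋃ g ∈ E, (fun ζ => g • ζ) ⁻¹' D := by
      intro ζ hζ
      by_contra h
      simp only [Set.mem_union, Set.mem_iUnion, Set.mem_setOf_eq, not_or, not_exists, not_not,
        Set.mem_preimage, hD] at h
      exact hζ (hRel _ _ _ h.2 h.1)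
    refine (measure_mono hsub).trans ((measure_union_le _ _).trans ?_)
    rw [ae_iff.1 (hf k).1.2.2.2.2.2.2.2.2, zero_add]
    refine (measure_biUnion_finset_le _ _).trans ?_
    rw [Finset.sum_congr rfl fun g _ => (hB.invQ g).measure_preimage hDm.nullMeasurableSet,
      Finset.sum_const, nsmul_eq_mul]
    exact mul_le_mul_right hDle _

end Pool.Agent.H701Z.Fiid
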