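import Pool.Agent.H701Z.Fiid.Mixing
import Pool.Agent.H701Z.Fiid.Alloc

set_option autoImplicit false

namespace Pool.Agent.H701Z.Fiid

open MeasureTheory
open scoped ENNReal

lemma minhash_one {α C : Type*} [Fintype C] [DecidableEq C] (o : C → ℕ) (ho : Function.Injective o)
    (A : Finset α) (c : α → C) (hc : Set.InjOn c A) (a : α) (ha : a ∈ A) :
    (Finset.univ.filter fun π : Equiv.Perm C => ∀ a' ∈ A, o (π (c a)) ≤ o (π (c a'))).card * A.card
      ≤ Fintype.card (Equiv.Perm C) := by
  classical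
  set N : α → Finset (Equiv.Perm C) := fun a =>
    Finset.univ.filter fun π : Equiv.Perm C => ∀ a' ∈ A, o (π (c a)) ≤ o (π (c a')) with hN
  have h1 : ∀ b ∈ A, (N a).card ≤ (N b).card := by
    intro b hb
    refine Finset.card_le_card_of_injOn (fun π => π * Equiv.swap (c a) (c b)) ?_
      (fun π _ π' _ h => mul_right_cancel h)
    intro π hπ
    simp only [hN, Finset.coe_filter, Finset.mem_univ, true_and, Set.mem_setOf_eq,
      Equiv.Perm.coe_mul, Function.comp_apply, Equiv.swap_apply_right] at hπ ⊢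
    intro a' ha'
    rw [Equiv.swap_apply_def]
    split_ifs
    · exact hπ b hb
    · exact le_rfl
    · exact hπ a' ha'
  have h2 : (A : Set α).PairwiseDisjoint N := by
    intro b hb b' hb' hbb
    refine Finset.disjoint_left.2 fun π h h' => hbb ?_
    simp only [hN, Finset.mem_filter, Finset.mem_univ, true_and] at h h'
    exact hc hb hb' (π.injective (ho (le_antisymm (h b' hb') (h' b hb))))
  calc (N a).card * A.card = ∑ _b ∈ A, (N a).card := by simp [mul_comm]
    _ ≤ ∑ b ∈ A, (N b).card := Finset.sum_le_sum h1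
    _ = (A.biUnion N).card := (Finset.card_biUnion h2).symm
    _ ≤ _ := Finset.card_le_univ _

lemma minhash {α C : Type*} [Fintype C] [DecidableEq C] (o : C → ℕ) (ho : Function.Injective o)
    (A B : Finset α) (hBA : B ⊆ A) (c : α → C) (hc : Set.InjOn c A) :
    (Finset.univ.filter fun π : Equiv.Perm C =>
      ∃ a ∈ B, ∀ a' ∈ A, o (π (c a)) ≤ o (π (c a'))).card * A.card
      ≤ B.card * Fintype.card (Equiv.Perm C) := by
  classical
  have : (Finset.univ.filter fun π : Equiv.Perm C =>
      ∃ a ∈ B, ∀ a' ∈ A, o (π (c a)) ≤ o (π (c a'))) = B.biUnion fun a =>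
      Finset.univ.filter fun π : Equiv.Perm C => ∀ a' ∈ A, o (π (c a)) ≤ o (π (c a')) := by
    ext π; simp
  rw [this]
  refine le_trans (Nat.mul_le_mul_right _ Finset.card_biUnion_le) ?_
  rw [Finset.sum_mul]
  refine le_trans (Finset.sum_le_sum fun a ha => minhash_one o ho A c hc a (hBA ha)) ?_
  simp

variable {Γ Ω : Type*} [Group Γ] [MeasurableSpace Ω] [MulAction Γ Ω] {P : Measure Ω} {S : Set Ω}

theorem Base.tiling [DecidableEq Γ] (hB : Base Γ P S) (hF : Folner Γ) (K : Finset Γ) (ε : ℝ)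
    (hε : 0 < ε) :
    ∃ (U : Finset Γ) (cen : Ω → Γ), (∀ ω, cen ω ∈ U) ∧ (∀ γ, MeasurableSet {ω | cen ω = γ}) ∧
      P.real {ω | ∃ s ∈ K, cen (s • ω) * s ≠ cen ω} ≤ ε := by
  classical
  have := hB.prob
  set K' := insert 1 K with hK'
  have hK'pos : (0 : ℝ) < K'.card := by
    exact_mod_cast Finset.card_pos.2 ⟨1, Finset.mem_insert_self _ _⟩
  obtain ⟨U, hU, hUF⟩ := hF K' (ε / 2 / (2 * K'.card)) (by positivity)
  set U1 := K'.biUnion fun s => U.image fun u => u * s with hU1
  set U2 := U1.filter fun x => ¬ ∀ s ∈ K', x ∈ U.image fun u => u * s with hU2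
  have hUU1 : U ⊆ U1 := fun u hu =>
    Finset.mem_biUnion.2 ⟨1, Finset.mem_insert_self _ _, Finset.mem_image.2 ⟨u, hu, mul_one u⟩⟩
  have hU1pos : (0 : ℝ) < U1.card := by
    exact_mod_cast Finset.card_pos.2 (hU.mono hUU1)
  have hU2card : (U2.card : ℝ) ≤ ε / 2 * U1.card := by
    have hsub : U2 ⊆ K'.biUnion fun s =>
        ((U.image fun u => u * s) \ U) ∪ (U \ U.image fun u => u * s) := by
      intro x hx
      simp only [hU2, hU1, Finset.mem_filter, Finset.mem_biUnion, not_forall] at hx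
      obtain ⟨⟨s, hs, hxs⟩, t, ht, hxt⟩ := hx
      by_cases hxU : x ∈ U
      · exact Finset.mem_biUnion.2 ⟨t, ht, Finset.mem_union_right _ (Finset.mem_sdiff.2 ⟨hxU, hxt⟩)⟩
      · exact Finset.mem_biUnion.2 ⟨s, hs, Finset.mem_union_left _ (Finset.mem_sdiff.2 ⟨hxs, hxU⟩)⟩
    have h1 : ∀ s ∈ K', ((((U.image fun u => u * s) \ U) ∪
        (U \ U.image fun u => u * s)).card : ℝ) ≤ 2 * (ε / 2 / (2 * K'.card) * U.card) := by
      intro s hs
      have h2 : (U \ U.image fun u => u * s).card = ((U.image fun u => u * s) \ U).card :=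
        Finset.card_sdiff_comm (Finset.card_image_of_injective _ (mul_left_injective s)).symm
      have h3 := Finset.card_union_le ((U.image fun u => u * s) \ U) (U \ U.image fun u => u * s)
      rw [h2] at h3
      have h4 := hUF s hs
      have h5 : ((((U.image fun u => u * s) \ U) ∪ (U \ U.image fun u => u * s)).card : ℝ) ≤
        ((U.image fun u => u * s) \ U).card + ((U.image fun u => u * s) \ U).card := by
        exact_mod_cast h3
      linarith
    calc (U2.card : ℝ) ≤ ∑ s ∈ K', ((((U.image fun u => u * s) \ U) ∪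
          (U \ U.image fun u => u * s)).card : ℝ) := by
          exact_mod_cast (Finset.card_le_card hsub).trans Finset.card_biUnion_le
      _ ≤ ∑ _s ∈ K', 2 * (ε / 2 / (2 * K'.card) * U.card) := Finset.sum_le_sum h1
      _ = ε / 2 * U.card := by
          rw [Finset.sum_const, nsmul_eq_mul]; field_simp
      _ ≤ ε / 2 * U1.card := by
          gcongr
  obtain ⟨n, κ, hκ, hcol⟩ := hB.colour (Finset.image₂ (fun s t => s * t⁻¹) U1 U1)
    (ENNReal.ofReal (ε / 2 / U1.card)) (by rw [ENNReal.ofReal_pos]; positivity)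
  set D0 : Set Ω := {ω | ∃ g ∈ Finset.image₂ (fun s t => s * t⁻¹) U1 U1, g ≠ 1 ∧
    κ (g • ω) = κ ω} with hD0
  have hD0m : MeasurableSet D0 := by
    have : D0 = ⋃ g ∈ Finset.image₂ (fun s t => s * t⁻¹) U1 U1, ⋃ (_ : g ≠ 1),
        {ω | κ (g • ω) = κ ω} := by
      ext ω; simp only [hD0, Set.mem_setOf_eq, Set.mem_iUnion, exists_prop]
    rw [this]
    exact Finset.measurableSet_biUnion _ fun g _ => MeasurableSet.iUnion fun _ =>
      measurableSet_eq_fun (hκ.comp (hB.inv g).measurable) hκ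
  set D : Set Ω := ⋃ h ∈ U1, (fun ω => h • ω) ⁻¹' D0 with hD
  have hDm : MeasurableSet D :=
    Finset.measurableSet_biUnion _ fun h _ => (hB.inv h).measurable hD0m
  have hDle : P.real D ≤ ε / 2 := by
    refine (measureReal_biUnion_finset_le _ _).trans ?_
    have : ∀ h ∈ U1, P.real ((fun ω => h • ω) ⁻¹' D0) ≤ ε / 2 / U1.card := by
      intro h _
      simp only [Measure.real]
      rw [(hB.inv h).measure_preimage hD0m.nullMeasurableSet]
      exact ENNReal.toReal_le_of_le_ofReal (by positivity) hcol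
    refine (Finset.sum_le_sum this).trans (le_of_eq ?_)
    rw [Finset.sum_const, nsmul_eq_mul]; field_simp
  have hinj : ∀ ω ∉ D, Set.InjOn (fun h : Γ => κ (h • ω)) (U1 : Set Γ) := by
    intro ω hω h hh h' hh' heq
    by_contra hne
    refine hω (Set.mem_biUnion hh' ⟨h * h'⁻¹, Finset.mem_image₂_of_mem hh hh',
      by rwa [Ne, mul_inv_eq_one], ?_⟩)
    simpa [mul_smul] using heq
  let C := Fin n → Bool
  set o : C → ℕ := fun c => (Fintype.equivFin C c : ℕ) with ho
  have hoi : Function.Injective o := fun a b h => (Fintype.equivFin C).injective (Fin.ext h)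
  have : Nonempty U := hU.to_subtype
  have hmin : ∀ (π : Equiv.Perm C) (d : U → C), ∃ u : U, ∀ u' : U, o (π (d u)) ≤ o (π (d u')) :=
    fun π d => Finite.exists_min fun u : U => o (π (d u))
  choose am ham using hmin
  set cen : Equiv.Perm C → Ω → Γ := fun π ω => am π fun u : U => κ ((u : Γ) • ω) with hcen
  have hcm : ∀ π γ, MeasurableSet {ω | cen π ω = γ} := by
    intro π γ
    have h1 : Measurable fun ω : Ω => fun u : U => κ ((u : Γ) • ω) :=
      measurable_pi_iff.2 fun u => hκ.comp (hB.inv _).measurable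
    exact h1 (t := {d | (am π d : Γ) = γ}) (Set.toFinite _).measurableSet
  set Bad : Equiv.Perm C → Set Ω := fun π => {ω | ∃ s ∈ K, cen π (s • ω) * s ≠ cen π ω} with hBad
  have hBm : ∀ π, MeasurableSet (Bad π) := by
    intro π
    have : Bad π = ⋃ s ∈ K, ⋃ u ∈ U, ((fun ω => s • ω) ⁻¹' {ω | cen π ω = u} ∩
        {ω | cen π ω = u * s}ᶜ) := by
      ext ω
      simp only [hBad, Set.mem_setOf_eq, Set.mem_iUnion, Set.mem_inter_iff, Set.mem_preimage,
        Set.mem_compl_iff, exists_prop]
      refine exists_congr fun s => and_congr_right fun _ => ⟨fun h => ⟨_, (am π _).2, rfl, h.symm⟩,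
        fun ⟨u, _, h1, h2⟩ => by rw [h1]; exact Ne.symm h2⟩
    rw [this]
    exact Finset.measurableSet_biUnion _ fun s _ => Finset.measurableSet_biUnion _ fun u _ =>
      ((hB.inv s).measurable (hcm π u)).inter (hcm π _).compl
  have hkey : ∀ π, ∀ ω ∉ D, ω ∈ Bad π →
      ∃ a ∈ U2, ∀ a' ∈ U1, o (π (κ (a • ω))) ≤ o (π (κ (a' • ω))) := by
    intro π ω hω hb
    obtain ⟨a, ha, hamin⟩ := U1.exists_min_image (fun a => o (π (κ (a • ω)))) (hU.mono hUU1)
    refine ⟨a, Finset.mem_filter.2 ⟨ha, fun hall => ?_⟩, hamin⟩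
    have h1 : ∀ s ∈ K', cen π (s • ω) * s = a := by
      intro s hs
      obtain ⟨u, hu, hua⟩ := Finset.mem_image.1 (hall s hs)
      have hm : cen π (s • ω) * s ∈ U1 :=
        Finset.mem_biUnion.2 ⟨s, hs, Finset.mem_image.2 ⟨_, (am π _).2, rfl⟩⟩
      refine hinj ω hω hm ha (π.injective (hoi (le_antisymm ?_ (hamin _ hm))))
      have := ham π (fun u : U => κ ((u : Γ) • s • ω)) ⟨u, hu⟩
      simp only [← hua, mul_smul]
      exact this
    obtain ⟨s, hs, hne⟩ := hb
    have h2 := h1 1 (Finset.mem_insert_self _ _)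
    rw [one_smul, mul_one] at h2
    exact hne ((h1 s (Finset.mem_insert_of_mem hs)).trans h2.symm)
  have hsum : ∑ π, P (Bad π \ D) ≤ ∑ _π : Equiv.Perm C, ENNReal.ofReal (ε / 2) := by
    have h1 := lintegral_card P (fun ω => Finset.univ.filter fun π => ω ∈ Bad π \ D) (by
      intro π
      simp only [Finset.mem_filter, Finset.mem_univ, true_and]
      exact (hBm π).diff hDm)
    simp only [Finset.mem_filter, Finset.mem_univ, true_and, Set.setOf_mem_eq, tsum_fintype] at h1
    rw [← h1]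
    refine le_trans (lintegral_mono (g := fun _ => ∑ _π : Equiv.Perm C, ENNReal.ofReal (ε / 2))
      fun ω => ?_) (by simp)
    by_cases hω : ω ∈ D
    · simp [hω]
    have h2 := minhash o hoi U1 U2 (Finset.filter_subset _ _) (fun h => κ (h • ω)) (hinj ω hω)
    have h3 : (Finset.univ.filter fun π => ω ∈ Bad π \ D).card ≤ (Finset.univ.filter
        fun π : Equiv.Perm C =>
        ∃ a ∈ U2, ∀ a' ∈ U1, o (π (κ (a • ω))) ≤ o (π (κ (a' • ω)))).card := by
      refine Finset.card_le_card fun π hπ => ?_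
      simp only [Finset.mem_filter, Finset.mem_univ, true_and] at hπ ⊢
      exact hkey π ω hω hπ.1
    have h4 : ((Finset.univ.filter fun π => ω ∈ Bad π \ D).card : ℝ) * U1.card ≤
        U2.card * Fintype.card (Equiv.Perm C) := by
      exact_mod_cast (Nat.mul_le_mul_right _ h3).trans h2
    have h5 : ((Finset.univ.filter fun π => ω ∈ Bad π \ D).card : ℝ) ≤
        Fintype.card (Equiv.Perm C) * (ε / 2) := by
      refine le_of_mul_le_mul_right (h4.trans ?_) hU1pos
      have : (0 : ℝ) ≤ Fintype.card (Equiv.Perm C) := by positivity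
      nlinarith
    simp only [Finset.sum_const, Finset.card_univ, nsmul_eq_mul]
    rw [← ENNReal.ofReal_natCast, ← ENNReal.ofReal_natCast, ← ENNReal.ofReal_mul (by positivity)]
    exact ENNReal.ofReal_le_ofReal h5
  obtain ⟨π, -, hπ⟩ := ENNReal.exists_le_of_sum_le Finset.univ_nonempty hsum
  refine ⟨U, cen π, fun ω => (am π _).2, hcm π, ?_⟩
  have h6 : P.real (Bad π \ D) ≤ ε / 2 := ENNReal.toReal_le_of_le_ofReal (by positivity) hπ
  calc P.real (Bad π) ≤ P.real ((Bad π \ D) ∪ D) :=
        measureReal_mono (by intro ω h; by_cases h' : ω ∈ D <;> simp [h, h'])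
    _ ≤ P.real (Bad π \ D) + P.real D := measureReal_union_le _ _
    _ ≤ ε := by linarith

end Pool.Agent.H701Z.Fiid
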