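import Pool.Agent.H701Z.Fiid.TileData
import Pool.Agent.H701Z.Fiid.Tile

set_option autoImplicit false

namespace Pool.Agent.H701Z.Fiid

open MeasureTheory
open scoped ENNReal

universe u

lemma prod_cen_le {Γ Ω : Type*} [Group Γ] [Countable Γ] [MeasurableSpace Ω] [MulAction Γ Ω]
    (P : Measure Ω) [IsProbabilityMeasure P] (hm : ∀ γ : Γ, Measurable fun ω : Ω => γ • ω)
    (cen : Ω → Γ) (hcen : ∀ γ, MeasurableSet {ω | cen ω = γ}) (E : Set (Ω × Bits Γ))
    (hE : MeasurableSet E) (ε : ℝ) (hε : 0 ≤ ε) (h : ∀ ω, (bitsM Γ).real {z | (ω, z) ∈ E} ≤ ε) :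
    (P.prod (bitsM Γ)).real {ζ | cen ζ.1 • ζ ∈ E} ≤ ε := by
  have hsm : ∀ γ : Γ, Measurable fun ζ : Ω × Bits Γ => γ • ζ := fun γ =>
    (hm γ).prodMap (measurePreserving_bits_smul γ).measurable
  have h1 : MeasurableSet {ζ : Ω × Bits Γ | cen ζ.1 • ζ ∈ E} :=
    meas_switch (fun ζ : Ω × Bits Γ => cen ζ.1) (fun γ => measurable_fst (hcen γ))
      (fun γ ζ => γ • ζ) hsm hE
  refine ENNReal.toReal_le_of_le_ofReal hε ?_
  rw [Measure.prod_apply h1]
  refine le_trans (lintegral_mono (g := fun _ => ENNReal.ofReal ε) fun ω => ?_) (by simp)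
  have h2 : Prod.mk ω ⁻¹' {ζ : Ω × Bits Γ | cen ζ.1 • ζ ∈ E} =
      (fun z : Bits Γ => cen ω • z) ⁻¹' {z | (cen ω • ω, z) ∈ E} := rfl
  simp only
  rw [h2, (measurePreserving_bits_smul (cen ω)).measure_preimage
    (s := {z | (cen ω • ω, z) ∈ E}) (measurable_prodMk_left hE).nullMeasurableSet]
  exact (ENNReal.le_ofReal_iff_toReal_le (by finiteness) hε).2 (h _)

open Classical in
lemma markov_tile {Γ α : Type*} [Group Γ] [Countable Γ] [MeasurableSpace α] [MulAction Γ α]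
    (μ : Measure α) [IsProbabilityMeasure μ]
    (hinv : ∀ γ : Γ, MeasurePreserving (fun a : α => γ • a) μ μ)
    (cen : α → Γ) (hcen : ∀ γ, MeasurableSet {a | cen a = γ}) (T : α → Finset Γ)
    (hT : ∀ a h, h ∈ T a ↔ cen (h • a) * h = 1)
    (B E : Set α) (hB : MeasurableSet B) (hE : MeasurableSet E) (δ : ℝ) (hδ : 0 < δ)
    (h : ∀ a ∈ E, δ * (T a).card ≤ ((T a).filter fun g => g • a ∈ B).card) :
    δ * μ.real {a | cen a • a ∈ E} ≤ μ.real B := by
  have hTm : ∀ g, MeasurableSet {a | cen (g • a) * g = 1} := fun g => by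
    have : {a | cen (g • a) * g = 1} = (fun a => g • a) ⁻¹' {a | cen a = g⁻¹} := by
      ext a; simp [mul_eq_one_iff_eq_inv]
    rw [this]
    exact (hinv g).measurable (hcen _)
  have hE' : MeasurableSet {a | cen a • a ∈ E} :=
    meas_switch cen hcen (fun γ a => γ • a) (fun γ => (hinv γ).measurable) hE
  have h1 := transport μ hinv cen hcen _ hE'
  have h2 := transport μ hinv cen hcen _ hB
  have h3 := lintegral_card μ (fun a => (T a).filter fun _ => a ∈ E) (fun g => by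
    simp only [Finset.mem_filter, hT]
    exact (hTm g).inter hE)
  have h4 := lintegral_card μ (fun a => (T a).filter fun g => g • a ∈ B) (fun g => by
    simp only [Finset.mem_filter, hT]
    exact (hTm g).inter ((hinv g).measurable hB))
  simp only [Finset.mem_filter, hT] at h3 h4
  rw [h2] at h4
  have h5 : ∑' g : Γ, μ {a | cen (g • a) * g = 1 ∧ a ∈ E} = μ {a | cen a • a ∈ E} := by
    rw [← h1]
    congr 1
    ext g
    congr 1
    ext a
    simp only [Set.mem_setOf_eq]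
    refine and_congr_right fun hg => ?_
    rw [← mul_smul, hg, one_smul]
  rw [h5] at h3
  have h6 : ENNReal.ofReal δ * μ {a | cen a • a ∈ E} ≤ μ B := by
    rw [← h3, ← h4, ← lintegral_const_mul' _ _ (by simp)]
    refine lintegral_mono fun a => ?_
    by_cases ha : a ∈ E
    · simp only [ha, Finset.filter_true]
      rw [← ENNReal.ofReal_natCast, ← ENNReal.ofReal_natCast, ← ENNReal.ofReal_mul hδ.le]
      exact ENNReal.ofReal_le_ofReal (h a ha)
    · simp [ha]
  have h7 := ENNReal.toReal_mono (by finiteness) h6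
  rwa [ENNReal.toReal_mul, ENNReal.toReal_ofReal hδ.le] at h7

open Classical in
lemma double_count {Γ α : Type*} [Group Γ] [MulAction Γ α] (T T0 K : Finset Γ) (E : Set α) (a : α)
    (hT0 : ∀ h ∈ T0, h • a ∈ E ∧ ∀ s ∈ K, s⁻¹ * h ∈ T) (c : ℝ) (hc : 0 ≤ c) :
    (T0.card : ℝ) * K.card ≤ c * T.card + K.card *
      (T.filter fun g => c < ((K.filter fun s => s • g • a ∈ E).card : ℝ)).card := by
  have h1 : T0.card * K.card ≤ ∑ g ∈ T, (K.filter fun s => s • g • a ∈ E).card := by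
    rw [← Finset.card_product, ← Finset.card_sigma]
    refine Finset.card_le_card_of_injOn (fun q => ⟨q.2⁻¹ * q.1, q.2⟩) ?_ ?_
    · rintro ⟨h, s⟩ hq
      simp only [Finset.coe_product, Set.mem_prod, Finset.mem_coe] at hq
      simp only [Finset.mem_coe, Finset.mem_sigma, Finset.mem_filter, mul_smul, smul_inv_smul]
      exact ⟨(hT0 h hq.1).2 s hq.2, hq.2, (hT0 h hq.1).1⟩
    · rintro ⟨h, s⟩ - ⟨h', s'⟩ - heq
      simp only [Sigma.mk.injEq, heq_eq_eq] at heq
      obtain ⟨h1, rfl⟩ := heq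
      rw [mul_left_cancel h1]
  have h2 : ∀ g ∈ T, ((K.filter fun s => s • g • a ∈ E).card : ℝ) ≤ c + K.card *
      (if c < ((K.filter fun s => s • g • a ∈ E).card : ℝ) then 1 else 0) := by
    intro g _
    split_ifs with h
    · have : ((K.filter fun s => s • g • a ∈ E).card : ℝ) ≤ K.card := by
        exact_mod_cast Finset.card_filter_le _ _
      linarith
    · linarith
  calc (T0.card : ℝ) * K.card ≤ ∑ g ∈ T, ((K.filter fun s => s • g • a ∈ E).card : ℝ) := by
        exact_mod_cast h1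
    _ ≤ _ := Finset.sum_le_sum h2
    _ = _ := by
        rw [Finset.sum_add_distrib, ← Finset.mul_sum, Finset.card_filter]
        simp [mul_comm]

lemma meas_filter_card {α ι : Type*} [MeasurableSpace α] [Countable ι] (T : α → Finset ι)
    (hT : ∀ i, MeasurableSet {a | i ∈ T a}) : Measurable fun a => (T a).card := by
  let _i : MeasurableSpace (Finset ι) := ⊤
  exact (measurable_from_top (f := Finset.card)).comp (measurable_finset T hT)

lemma num1 {a b t N δ : ℝ} (h1 : a * N ≤ 3 * δ * N * t + N * b) (h2 : 4 * δ * t < a)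
    (hN : 0 < N) : δ * t ≤ b := by
  refine le_of_mul_le_mul_left ?_ hN
  nlinarith

lemma num2 {x ε p : ℝ} {w : ℕ} (hε : 0 < ε) (hx0 : 2 / ε ≤ x) (h7 : 4 * x ≤ w) (hp : 0 ≤ p)
    (h2 : p * 2 ^ w ≤ Real.exp x + 1) : p ≤ ε := by
  have hx1 : 0 < x := lt_of_lt_of_le (by positivity) hx0
  have h6 : Real.exp (2 * x) ≤ 2 ^ w := by
    have : (2 : ℝ) ^ w = Real.exp (w * Real.log 2) := by
      rw [Real.exp_nat_mul, Real.exp_log (by norm_num)]
    rw [this]
    refine Real.exp_le_exp.2 ?_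
    have := Real.log_two_gt_d9
    nlinarith
  have h8 : 1 ≤ Real.exp x := Real.one_le_exp hx1.le
  have h9 : x + 1 ≤ Real.exp x := Real.add_one_le_exp x
  have h10 : Real.exp (2 * x) = Real.exp x * Real.exp x := by
    rw [← Real.exp_add]; ring_nf
  rw [div_le_iff₀ hε] at hx0
  by_contra hcon
  push Not at hcon
  have h12 : ε * (Real.exp x * Real.exp x) ≤ Real.exp x + 1 := by
    rw [← h10]
    refine le_trans ?_ h2
    exact mul_le_mul hcon.le h6 (by positivity) hp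
  have h13 : 2 < ε * Real.exp x := by nlinarith
  nlinarith

lemma num3 {δ ε N : ℝ} (hδ : 0 < δ) (hε : 0 < ε) (hN : 0 < N) (h : 2 / (δ ^ 3 * ε) ≤ N) :
    2 * N / (δ * N) ^ 2 ≤ δ * ε := by
  rw [div_le_iff₀ (by positivity)] at h ⊢
  nlinarith

lemma num4 {η ε N t : ℝ} (hη : 0 < η) (hε : 0 < ε) (h : 2 / (η * ε) ≤ N) (ht : N ≤ t) :
    2 / ε ≤ η * t := by
  rw [div_le_iff₀ (by positivity)] at h ⊢
  have := mul_le_mul_of_nonneg_right ht (by positivity : 0 ≤ η * ε)
  nlinarith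

theorem step {Γ : Type u} {Ω A : Type*} [Group Γ] [DecidableEq Γ] [Countable Γ] [Infinite Γ]
    [MeasurableSpace Ω] [MulAction Γ Ω] [Fintype A] [MeasurableSpace A]
    [MeasurableSingletonClass A] {P : Measure Ω} {S : Set Ω} (hB : Base Γ P S) (hF : Folner Γ)
    (η : ℝ) (hη : 0 < η) (hη1 : η ≤ 1 / 5) :
    ∃ δ : ℝ, 0 < δ ∧ ∀ (U : Set Ω) (F G : Ω × Bits Γ → A), MeasurableSet U → U ⊆ S →
      Measurable F → Measurable G → DepF Γ U F → DepG Γ U G →
      (P.prod (bitsM Γ)).real {ζ | F ζ ≠ G ζ} ≤ δ → 5 * η < P.real (S \ U) →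
      ∀ δ' : ℝ, 0 < δ' →
      ∃ (U' : Set Ω) (Φ : Ω × Bits Γ → Ω × Bits Γ) (G' : Ω × Bits Γ → A),
        MeasurableSet U' ∧ U' ⊆ S ∧ P.real U' ≤ P.real U + 5 * η ∧
        MeasurePreserving Φ (P.prod (bitsM Γ)) (P.prod (bitsM Γ)) ∧
        (∀ (γ : Γ) ζ, Φ (γ • ζ) = γ • Φ ζ) ∧ (∀ ζ, (Φ ζ).1 = ζ.1) ∧ Measurable G' ∧
        DepF Γ U' (F ∘ Φ) ∧ DepG Γ U' G' ∧ (∀ ζ, G (Φ ζ) = G ζ) ∧
        (P.prod (bitsM Γ)).real {ζ | F (Φ ζ) ≠ G' ζ} ≤ δ' := by
  classical
  have := hB.prob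
  set Q := P.prod (bitsM Γ) with hQ
  have hm : ∀ γ : Γ, Measurable fun ω : Ω => γ • ω := fun γ => (hB.inv γ).measurable
  have hsm : ∀ γ : Γ, Measurable fun ζ : Ω × Bits Γ => γ • ζ := fun γ => (hB.invQ γ).measurable
  obtain ⟨θ, hθ, hcount⟩ := count_near.{u} A η hη
  refine ⟨θ / 4, by positivity, fun U F G hU hUS hFm hGm hFd hGd hFG hroom δ' hδ' => ?_⟩
  set δ := θ / 4 with hδ
  have hδ0 : 0 < δ := by positivity
  set ε := min δ (δ' / 4) with hε
  have hε0 : 0 < ε := lt_min hδ0 (by positivity)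
  have hε1 : ε ≤ δ := min_le_left _ _
  have hε2 : ε ≤ δ' / 4 := min_le_right _ _
  obtain ⟨φ, R, m, hφm, hm0, hφd, hFφ⟩ := approx hm Q U hU F hFm hFd ε hε0
  obtain ⟨E, hE⟩ : ∃ E : Set (Ω × Bits Γ), E = {ζ | φ ζ ≠ G ζ} := ⟨_, rfl⟩
  have hEmem : ∀ ζ, ζ ∈ E ↔ φ ζ ≠ G ζ := fun ζ => by rw [hE]; rfl
  have hEm : MeasurableSet E := by rw [hE]; exact (measurableSet_eq_fun hφm hGm).compl
  have hEp : Q.real E ≤ 2 * δ := by
    have : E ⊆ {ζ | F ζ ≠ φ ζ} ∪ {ζ | F ζ ≠ G ζ} := by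
      intro ζ hζ
      by_contra h
      simp only [Set.mem_union, Set.mem_setOf_eq, not_or, not_not] at h
      exact (hEmem ζ).1 hζ (h.1.symm.trans h.2)
    have := (measureReal_mono this).trans (measureReal_union_le (μ := Q) _ _)
    linarith
  obtain ⟨N, hN⟩ := exists_nat_ge (2 / (δ ^ 3 * ε) + 1 / η + 2 / (η * ε))
  have hN1 : 2 / (δ ^ 3 * ε) ≤ N := by
    have : 0 < 1 / η + 2 / (η * ε) := by positivity
    linarith
  have hN2 : 1 / η ≤ N := by
    have : 0 < 2 / (δ ^ 3 * ε) := by positivity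
    have : 0 < 2 / (η * ε) := by positivity
    linarith
  have hN3 : 2 / (η * ε) ≤ N := by
    have : 0 < 2 / (δ ^ 3 * ε) := by positivity
    have : 0 < 1 / η := by positivity
    linarith
  have hNr : (0 : ℝ) < N := lt_of_lt_of_le (by positivity) hN2
  have hN0 : 0 < N := by exact_mod_cast hNr
  obtain ⟨K0, hK0, hvar⟩ := hB.var E hEm N hN0
  obtain ⟨Bad, hBad⟩ : ∃ Bad : Set (Ω × Bits Γ),
    Bad = {ζ | 3 * δ * N < ((K0.filter fun s => s • ζ ∈ E).card : ℝ)} := ⟨_, rfl⟩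
  have hBadm : MeasurableSet Bad := by
    rw [hBad]
    have h1 := meas_filter_card (fun ζ : Ω × Bits Γ => K0.filter fun s => s • ζ ∈ E) fun s => by
      by_cases hs : s ∈ K0
      · simp only [Finset.mem_filter, hs, true_and]
        exact hsm s hEm
      · simp [hs]
    exact h1 (t := {k : ℕ | 3 * δ * N < (k : ℝ)}) trivial
  have hBadp : Q.real Bad ≤ δ * ε := by
    refine le_trans (le_trans (measureReal_mono ?_) (hvar (δ * N) (by positivity))) ?_
    · intro ζ hζ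
      simp only [hBad, Set.mem_setOf_eq] at hζ ⊢
      refine le_trans ?_ (le_abs_self _)
      have h' : (N : ℝ) * (P.prod (bitsM Γ)).real E ≤ N * (2 * δ) :=
        mul_le_mul_of_nonneg_left hEp hNr.le
      linarith
    · exact num3 hδ0 hε0 hNr hN1
  obtain ⟨Uc, cen, hcenU, hcen, hIntp⟩ := hB.tiling hF (R ∪ K0.image fun s => s⁻¹) ε hε0
  obtain ⟨Int, hInt⟩ : ∃ Int : Set Ω,
    Int = {ω | ∃ s ∈ R ∪ K0.image fun s => s⁻¹, cen (s • ω) * s ≠ cen ω}ᶜ := ⟨_, rfl⟩
  have hcenm : ∀ s : Γ, ∀ γ, MeasurableSet {ω | cen (s • ω) * s = γ} := fun s γ => by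
    have : {ω | cen (s • ω) * s = γ} = (fun ω => s • ω) ⁻¹' {ω | cen ω = γ * s⁻¹} := by
      ext ω; simp [eq_mul_inv_iff_mul_eq]
    rw [this]
    exact hm s (hcen _)
  have hIntm : MeasurableSet Int := by
    rw [hInt]
    refine MeasurableSet.compl ?_
    have : {ω | ∃ s ∈ R ∪ K0.image fun s => s⁻¹, cen (s • ω) * s ≠ cen ω} =
        ⋃ s ∈ R ∪ K0.image fun s => s⁻¹, ⋃ γ, {ω | cen ω = γ} ∩ {ω | cen (s • ω) * s = γ}ᶜ := by
      ext ω; simp
    rw [this]
    exact Finset.measurableSet_biUnion _ fun s _ => MeasurableSet.iUnion fun γ =>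
      (hcen γ).inter (hcenm s γ).compl
  obtain ⟨T, hT⟩ : ∃ T : Ω → Finset Γ,
    T = fun ω => (Uc.image fun u => u⁻¹).filter fun h => cen (h • ω) * h = 1 := ⟨_, rfl⟩
  have hTmem : ∀ ω h, h ∈ T ω ↔ cen (h • ω) * h = 1 := by
    intro ω h
    simp only [hT, Finset.mem_filter, and_iff_right_iff_imp]
    intro h1
    exact Finset.mem_image.2 ⟨_, hcenU (h • ω), (eq_inv_of_mul_eq_one_right h1).symm⟩
  have hTm : ∀ h, MeasurableSet {ω | h ∈ T ω} := fun h => by
    simp only [hTmem]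
    exact hcenm h 1
  have hTint : ∀ ω, ∀ h ∈ T ω, h • ω ∈ Int → ∀ s ∈ R ∪ K0.image fun s => s⁻¹, s * h ∈ T ω := by
    intro ω h hh hI s hs
    rw [hTmem] at hh ⊢
    simp only [hInt, Set.mem_compl_iff, Set.mem_setOf_eq, not_exists, not_and, not_not] at hI
    rw [← mul_assoc, mul_smul, hI s hs, hh]
  have hTc : ∀ ω, (cen ω)⁻¹ ∈ T (cen ω • ω) := fun ω => by
    rw [hTmem]; simp
  obtain ⟨n, hn⟩ : ∃ n : Ω → ℕ,
    n = fun ω => if N ≤ (T ω).card then ⌈4 * η * (T ω).card⌉₊ else 0 := ⟨_, rfl⟩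
  have hnm : Measurable n := hn ▸ (measurable_of_countable
    fun k : ℕ => if N ≤ k then ⌈4 * η * k⌉₊ else 0).comp (meas_filter_card T hTm)
  have hnle : ∀ ω, (n ω : ℝ) ≤ 5 * η * (T ω).card := by
    intro ω
    simp only [hn]
    split_ifs with h
    · have h1 : (N : ℝ) ≤ (T ω).card := by exact_mod_cast h
      have h2 := Nat.ceil_lt_add_one (a := 4 * η * (T ω).card) (by positivity)
      rw [div_le_iff₀ hη] at hN2
      have h3 := mul_le_mul_of_nonneg_right h1 hη.le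
      linarith
    · simp only [Nat.cast_zero]; positivity
  have hnint : ∫⁻ ω, n ω ∂P ≤ ENNReal.ofReal (5 * η) := by
    have h1 := lintegral_card P T hTm
    have h2 := transport P hB.inv cen hcen Set.univ MeasurableSet.univ
    simp only [hTmem] at h1
    simp only [Set.mem_univ, and_true, measure_univ] at h2
    rw [h2] at h1
    calc ∫⁻ ω, n ω ∂P ≤ ∫⁻ ω, ENNReal.ofReal (5 * η) * ((T ω).card : ℝ≥0∞) ∂P := by
          refine lintegral_mono fun ω => ?_
          simp only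
          rw [← ENNReal.ofReal_natCast, ← ENNReal.ofReal_natCast,
            ← ENNReal.ofReal_mul (by positivity)]
          exact ENNReal.ofReal_le_ofReal (hnle ω)
      _ = _ := by rw [lintegral_const_mul' _ _ ENNReal.ofReal_ne_top, h1, mul_one]
  obtain ⟨W0, hW0m, hW0S, hW0d, hW0le, hW0ae⟩ := alloc (J := Unit) P hB.inv hB.erg0 n hnm
    (fun _ => S \ U) (fun _ => hB.measS.diff hU) (by
      refine lt_of_le_of_lt hnint ?_
      simp only [Finset.univ_unique, Finset.sum_singleton]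
      exact (ENNReal.ofReal_lt_iff_lt_toReal (by positivity) (by finiteness)).2 hroom)
  obtain ⟨W, hW⟩ : ∃ W : Ω → Finset Γ, W = fun ω => (W0 ω).image Prod.fst := ⟨_, rfl⟩
  have hWmem : ∀ ω γ, γ ∈ W ω ↔ (γ, ()) ∈ W0 ω := fun ω γ => by
    simp only [hW, Finset.mem_image, Prod.exists, exists_and_right, exists_eq_right]
    exact ⟨fun ⟨_, h⟩ => h, fun h => ⟨_, h⟩⟩
  have hWcard : ∀ ω, (W ω).card = (W0 ω).card := fun ω => by
    rw [hW]
    exact Finset.card_image_of_injective _ fun a b h => Prod.ext h rfl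
  have hWm : ∀ γ, MeasurableSet {ω | γ ∈ W ω} := fun γ => by
    simp only [hWmem]; exact hW0m _
  have hWS : ∀ ω, ∀ γ ∈ W ω, γ • ω ∈ S \ U := fun ω γ h => hW0S ω _ ((hWmem _ _).1 h)
  have hdata := fun d : Finset Γ × Finset Γ => tile_data hm U Int hIntm R m φ G hφm hGm hφd hGd
    (θ * d.1.card) (Real.exp (η * d.1.card)) d.1 d.2 (fun g0 => by
      have := hcount d.1 g0
      simp only [Fintype.card_coe] at this
      refine le_trans (Nat.cast_le.2 (Finset.card_le_card fun f hf => ?_)) this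
      simp only [Finset.mem_filter, Finset.mem_univ, true_and] at hf ⊢
      refine le_trans (Nat.cast_le.2 (Finset.card_le_card fun t ht => ?_)) hf
      simpa only [Finset.mem_filter, Finset.mem_univ, true_and] using ht)
  choose nwd gsd Bdd hnwm hgsm hBdm hspec using hdata
  set k : Ω → Finset Γ × Finset Γ := fun ω => (T ω, W ω) with hk
  have hkm : ∀ d, MeasurableSet {ω | k ω = d} := by
    rintro ⟨d1, d2⟩
    simp only [hk, Prod.mk.injEq]
    exact (measurable_finset T hTm (t := {d1}) trivial).inter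
      (measurable_finset W hWm (t := {d2}) trivial)
  have hspec' := fun ω => hspec (k ω) ω
    (fun h hh hI r hr => hTint ω h hh hI r (Finset.mem_union_left _ hr))
    (fun γ hγ => (hWS ω γ hγ).2)
  set nw : Ω × Bits Γ → Bits Γ := fun ζ => nwd (k ζ.1) ζ with hnw
  have hnwm' : Measurable nw :=
    meas_switch (fun ζ : Ω × Bits Γ => k ζ.1) (fun d => measurable_fst (hkm d)) nwd hnwm
  obtain ⟨Blk, hBlk⟩ : ∃ Blk : Ω → Finset (Γ × ℕ), Blk = fun ω => (W ω).image (fun γ => (γ, 0)) ∪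
    (T ω ×ˢ Finset.range m).image fun q => (q.1, q.2 + 1) := ⟨_, rfl⟩
  have hBlk0 : ∀ ω g, (g, 0) ∈ Blk ω ↔ g ∈ W ω := fun ω g => by simp [hBlk]
  have hBlk1 : ∀ ω g j, (g, j + 1) ∈ Blk ω ↔ g ∈ T ω ∧ j < m := fun ω g j => by simp [hBlk]
  obtain ⟨Φ, hΦ, hΦeq, hΦ1, hΦin, hΦout⟩ := exists_block P hm U Blk
    (by
      rintro ⟨g, _ | j⟩
      · simp only [hBlk0]; exact hWm g
      · simp only [hBlk1]
        by_cases hj : j < m
        · simpa only [hj, and_true] using hTm g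
        · simp [hj])
    (by
      rintro ω g g' ⟨h, j⟩ hp ⟨h', j'⟩ hp' h1 h2
      simp only at h1 h2
      subst h2
      cases j with
      | zero =>
        rw [hBlk0, hWmem] at hp hp'
        exact hW0d ω g g' _ hp _ hp' h1 rfl
      | succ j =>
        rw [hBlk1, hTmem, ← mul_smul] at hp hp'
        have h3 := hp.1
        have h4 := hp'.1
        rw [← h1] at h4
        have : h = h' := mul_left_cancel (h3.trans h4.symm)
        rw [this] at h1
        exact mul_left_cancel h1)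
    (fun ω h hh => (hWS ω h ((hBlk0 _ _).1 hh)).2) nw hnwm'
    (by
      intro ω z z' hz h
      have := (hspec' ω).1 z z' hz (fun γ hγ => h _ ((hBlk0 _ _).2 hγ))
        (fun g hg j hj => h _ ((hBlk1 _ _ _).2 ⟨hg, hj⟩))
      rintro ⟨g, _ | j⟩ hp
      · exact this.1 g ((hBlk0 _ _).1 hp)
      · exact this.2 g ((hBlk1 _ _ _).1 hp).1 j ((hBlk1 _ _ _).1 hp).2)
  have hΦe : ∀ ζ, Φ ζ = (ζ.1, (Φ ζ).2) := fun ζ => Prod.ext (hΦ1 ζ) rfl
  have hPar : ∀ ζ (g : Γ), g • ζ.1 ∈ U → (Φ ζ).2 (g, 0) = ζ.2 (g, 0) := by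
    intro ζ g hg
    refine hΦout ζ (g, 0) fun c hc => (hWS _ _ ((hBlk0 _ _).1 hc)).2 ?_
    simpa [mul_smul] using hg
  set U' : Set Ω := U ∪ {ω | ∃ γ : Γ, (γ, ()) ∈ W0 (γ⁻¹ • ω)} with hU'
  have hWU' : ∀ ω, ∀ γ ∈ W ω, γ • ω ∈ U' := fun ω γ h =>
    Or.inr ⟨γ, by rw [inv_smul_smul]; exact (hWmem _ _).1 h⟩
  set gs : Γ → Ω × Bits Γ → A := fun h ζ => gsd (k ζ.1) h ζ with hgs
  have hgsm' : ∀ h, Measurable (gs h) := fun h =>
    meas_switch (fun ζ : Ω × Bits Γ => k ζ.1) (fun d => measurable_fst (hkm d))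
      (fun d => gsd d h) fun d => hgsm d h
  refine ⟨U', Φ, fun ζ => gs (cen ζ.1)⁻¹ (cen ζ.1 • ζ), ?_, ?_, ?_, hΦ, hΦeq, hΦ1, ?_, ?_, ?_, ?_,
    ?_⟩
  · refine hU.union ?_
    rw [Set.ofPred_exists]
    exact MeasurableSet.iUnion fun γ => hm γ⁻¹ (hW0m _)
  · rintro ω (h | ⟨γ, h⟩)
    · exact hUS h
    · simpa using (hW0S _ _ h).1
  · refine (measureReal_union_le _ _).trans (add_le_add le_rfl ?_)
    have h1 := used_le P hB.inv W0 hW0m
    simp only [Finset.univ_unique, Finset.sum_singleton] at h1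
    refine ENNReal.toReal_le_of_le_ofReal (by positivity) (h1.trans (le_trans ?_ hnint))
    exact lintegral_mono fun ω => Nat.cast_le.2 (hW0le ω)
  · exact meas_switch (fun ζ : Ω × Bits Γ => cen ζ.1) (fun γ => measurable_fst (hcen γ))
      (fun γ ζ => gs γ⁻¹ (γ • ζ)) fun γ => (hgsm' _).comp (hsm γ)
  · intro ω z z' h0 h1
    simp only [Function.comp_apply]
    rw [hΦe, hΦe (ω, z')]
    refine hFd ω _ _ (fun g hg => ?_) fun g j => ?_
    · rw [hPar _ _ hg, hPar _ _ hg]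
      exact h0 g (Or.inl hg)
    · by_cases hc : ∃ c : Γ, (g * c⁻¹, j + 1) ∈ Blk (c • ω)
      · obtain ⟨c, hc⟩ := hc
        have h2 : ∀ y : Bits Γ, (Φ (ω, y)).2 (g, j + 1) = nw (c • ω, c • y) (g * c⁻¹, j + 1) := by
          intro y
          rw [← hΦin (c • ω, c • y) _ hc]
          have := hΦeq c (ω, y)
          rw [Prod.smul_mk] at this
          rw [this, Prod.smul_snd, Bits.smul_apply]
          simp
        rw [h2, h2]
        rw [hBlk1] at hc
        refine ((hspec' (c • ω)).2.1 (c • z) (c • z') (fun g hg => h0 (g * c) ?_)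
          (fun γ hγ => h0 (γ * c) ?_)).2 (fun h _ j _ => h1 (h * c) j) _ hc.1 j hc.2
        · rw [mul_smul]; exact Or.inl hg
        · rw [mul_smul]; exact hWU' _ _ hγ
      · rw [hΦout (ω, z) (g, j + 1) (not_exists.1 hc), hΦout (ω, z') (g, j + 1) (not_exists.1 hc)]
        exact h1 g j
  · intro ω z z' h0
    refine ((hspec' (cen ω • ω)).2.1 (cen ω • z) (cen ω • z') (fun g hg => h0 (g * cen ω) ?_)
      (fun γ hγ => h0 (γ * cen ω) ?_)).1 _
    · rw [mul_smul]; exact Or.inl hg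
    · rw [mul_smul]; exact hWU' _ _ hγ
  · intro ζ
    rw [hΦe]
    exact hGd ζ.1 _ ζ.2 (hPar ζ)
  · obtain ⟨Aty, hAty⟩ : ∃ Aty : Set (Ω × Bits Γ), Aty = {ζ | θ * (T ζ.1).card <
      (((T ζ.1).filter fun h => h • ζ.1 ∈ Int ∧ φ (h • ζ) ≠ G (h • ζ)).card : ℝ)} := ⟨_, rfl⟩
    have hAtym : MeasurableSet Aty := by
      rw [hAty]
      have h1 := meas_filter_card (fun ζ : Ω × Bits Γ =>
        (T ζ.1).filter fun h => h • ζ.1 ∈ Int ∧ φ (h • ζ) ≠ G (h • ζ)) fun s => by
          simp only [Finset.mem_filter]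
          exact (measurable_fst (hTm s)).inter
            ((measurable_fst (hm s hIntm)).inter (hsm s (measurableSet_eq_fun hφm hGm).compl))
      have h2 : Measurable fun ζ : Ω × Bits Γ => (T ζ.1).card :=
        (meas_filter_card T hTm).comp measurable_fst
      exact (h2.prodMk h1) (t := {q : ℕ × ℕ | θ * q.1 < (q.2 : ℝ)}) (Set.to_countable _).measurableSet
    obtain ⟨E4, hE4⟩ : ∃ E4 : Set (Ω × Bits Γ),
      E4 = {ζ | N ≤ (T ζ.1).card ∧ (W0 ζ.1).card = n ζ.1 ∧ ζ ∈ Bdd (k ζ.1)} := ⟨_, rfl⟩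
    have hE4m : MeasurableSet E4 := by
      rw [hE4]
      refine MeasurableSet.inter (s₁ := {ζ : Ω × Bits Γ | N ≤ (T ζ.1).card})
        (measurable_fst (meas_filter_card T hTm (t := {k | N ≤ k}) trivial))
        (MeasurableSet.inter (s₁ := {ζ : Ω × Bits Γ | (W0 ζ.1).card = n ζ.1})
          (measurable_fst (measurableSet_eq_fun (meas_filter_card W0 hW0m) hnm)) ?_)
      exact measurableSet_setOf.2 (meas_switch (fun ζ : Ω × Bits Γ => k ζ.1)
        (fun d => measurable_fst (hkm d)) (fun d ζ => ζ ∈ Bdd d)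
        fun d => measurableSet_setOf.1 (hBdm d))
    have hsub : {ζ | F (Φ ζ) ≠ gs (cen ζ.1)⁻¹ (cen ζ.1 • ζ)} ⊆
        (((Φ ⁻¹' {ζ | F ζ ≠ φ ζ} ∪ Prod.fst ⁻¹' Intᶜ) ∪ Φ ⁻¹' {ζ | cen ζ.1 • ζ ∈ Aty}) ∪
          {ζ | cen ζ.1 • ζ ∈ E4}) ∪
          Prod.fst ⁻¹' {ω | ¬ ∀ g : Γ, (W0 (g • ω)).card = n (g • ω)} := by
      rintro ⟨ω, z⟩ hζ
      by_contra hcon
      simp only [Set.mem_union, Set.mem_preimage, Set.mem_setOf_eq, Set.mem_compl_iff, not_or,
        not_not, hΦ1] at hcon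
      obtain ⟨⟨⟨⟨h1, h2⟩, h3⟩, h4⟩, h5⟩ := hcon
      refine hζ ?_
      set c := cen ω with hc
      have hI : c⁻¹ • c • ω ∈ Int := by rwa [inv_smul_smul]
      have hbig : N ≤ (T (c • ω)).card := by
        rw [← hK0]
        refine Finset.card_le_card_of_injOn (fun s => s⁻¹ * c⁻¹) (fun s hs => ?_) ?_
        · exact hTint _ _ (hTc ω) hI _ (Finset.mem_union_right _ (Finset.mem_image_of_mem _ hs))
        · intro s _ t _ h
          exact inv_injective (mul_right_cancel h)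
      have hy : c • Φ (ω, z) = (c • ω, (Φ (c • ω, c • z)).2) := by
        rw [← hΦeq, Prod.smul_mk, hΦe]
      have h6 := (hspec' (c • ω)).2.2.1 (c • z) (Φ (c • ω, c • z)).2
        (fun g hg => hPar (c • ω, c • z) g hg)
        (fun h hh j hj => hΦin (c • ω, c • z) _ ((hBlk1 _ _ _).2 ⟨hh, hj⟩))
        (fun hb => h4 (by rw [hE4]; exact ⟨hbig, h5 c, hb⟩))
        (by
          rw [hy] at h3
          rw [hAty] at h3
          exact not_lt.1 h3) c⁻¹ (hTc ω) hI
      rw [← hy, inv_smul_smul] at h6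
      rw [h1, ← h6]
      rfl
    have e1 : Q.real (Φ ⁻¹' {ζ | F ζ ≠ φ ζ}) ≤ ε := by
      simp only [Measure.real]
      rw [hΦ.measure_preimage (s := {ζ | F ζ ≠ φ ζ})
        (measurableSet_eq_fun hFm hφm).compl.nullMeasurableSet]
      exact hFφ
    have e2 : Q.real (Prod.fst ⁻¹' Intᶜ) ≤ ε := by
      simp only [Measure.real, hQ, prod_fst_measure, hInt, compl_compl]
      exact hIntp
    have e3 : Q.real (Φ ⁻¹' {ζ | cen ζ.1 • ζ ∈ Aty}) ≤ ε := by
      have h0 : MeasurableSet {ζ : Ω × Bits Γ | cen ζ.1 • ζ ∈ Aty} :=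
        meas_switch (fun ζ : Ω × Bits Γ => cen ζ.1) (fun γ => measurable_fst (hcen γ))
          (fun γ ζ => γ • ζ) hsm hAtym
      simp only [Measure.real]
      rw [hΦ.measure_preimage h0.nullMeasurableSet]
      have h1 := markov_tile Q hB.invQ (fun ζ => cen ζ.1) (fun γ => measurable_fst (hcen γ))
        (fun ζ => T ζ.1) (fun ζ h => hTmem ζ.1 h) Bad Aty hBadm hAtym δ hδ0 (by
          intro ζ hζ
          have h2 := double_count (T ζ.1)
            ((T ζ.1).filter fun h => h • ζ.1 ∈ Int ∧ φ (h • ζ) ≠ G (h • ζ)) K0 E ζ (by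
              intro h hh
              rw [Finset.mem_filter] at hh
              exact ⟨(hEmem _).2 hh.2.2, fun s hs => hTint _ _ hh.1 hh.2.1 _
                (Finset.mem_union_right _ (Finset.mem_image_of_mem _ hs))⟩)
            (3 * δ * N) (by positivity)
          rw [hK0] at h2
          simp only [hAty, Set.mem_setOf_eq] at hζ
          have h3 : θ = 4 * δ := by rw [hδ]; ring
          rw [h3] at hζ
          refine (num1 h2 hζ hNr).trans (Nat.cast_le.2 (Finset.card_le_card fun g hg => ?_))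
          rw [Finset.mem_filter] at hg ⊢
          exact ⟨hg.1, by rw [hBad]; exact hg.2⟩)
      exact le_of_mul_le_mul_left (h1.trans hBadp) hδ0
    have e4 : Q.real {ζ | cen ζ.1 • ζ ∈ E4} ≤ ε := by
      refine prod_cen_le P hm cen hcen E4 hE4m ε hε0.le fun ω => ?_
      by_cases h : N ≤ (T ω).card ∧ (W0 ω).card = n ω
      · have h1 : {z : Bits Γ | (ω, z) ∈ E4} = {z | (ω, z) ∈ Bdd (k ω)} := by
          rw [hE4]
          ext z; exact ⟨fun h' => h'.2.2, fun h' => ⟨h.1, h.2, h'⟩⟩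
        rw [h1]
        have hNT : (N : ℝ) ≤ (T ω).card := Nat.cast_le.2 h.1
        have h2 := (hspec' ω).2.2.2 (by
          have h3 := hnle ω
          have h4 : ((W ω).card : ℝ) ≤ (T ω).card := by
            rw [hWcard, h.2]
            refine h3.trans (mul_le_of_le_one_left (Nat.cast_nonneg _) (by linarith only [hη1]))
          have h5 : (W ω).card ≤ (T ω).card := Nat.cast_le.1 h4
          exact h5.trans (Nat.le_mul_of_pos_right _ hm0))
        refine num2 hε0 (num4 hη hε0 hN3 hNT) ?_ measureReal_nonneg h2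
        change _ ≤ ((W ω).card : ℝ)
        rw [hWcard, h.2]
        simp only [hn, if_pos h.1]
        refine le_trans (le_of_eq ?_) (Nat.le_ceil _)
        rw [mul_assoc]
      · have h1 : {z : Bits Γ | (ω, z) ∈ E4} = ∅ := by
          ext z
          simp only [hE4, Set.mem_setOf_eq, Set.mem_empty_iff_false, iff_false]
          exact fun h' => h ⟨h'.1, h'.2.1⟩
        rw [h1]
        simpa using hε0.le
    have e5 : Q.real (Prod.fst ⁻¹' {ω | ¬ ∀ g : Γ, (W0 (g • ω)).card = n (g • ω)}) = 0 := by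
      simp only [Measure.real, hQ, prod_fst_measure]
      have : ∀ᵐ ω ∂P, ∀ g : Γ, (W0 (g • ω)).card = n (g • ω) :=
        ae_all_iff.2 fun g => (hB.inv g).quasiMeasurePreserving.ae hW0ae
      rw [ae_iff.1 this]
      rfl
    refine (measureReal_mono hsub).trans ((measureReal_union_le _ _).trans ?_)
    rw [e5, add_zero]
    refine (measureReal_union_le _ _).trans ?_
    refine (add_le_add (measureReal_union_le _ _) e4).trans ?_
    refine (add_le_add (add_le_add (measureReal_union_le _ _) e3) le_rfl).trans ?_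
    linarith

end Pool.Agent.H701Z.Fiid
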