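import Pool.Agent.H701Z.Fiid.SwapComb

set_option autoImplicit false

namespace Pool.Agent.H701Z.Fiid

open MeasureTheory

namespace SwapA

variable {Γ : Type*} [Group Γ] [Countable Γ] (p : Par Γ) (ν : Measure Bool)
  [IsProbabilityMeasure ν]

lemma measurableSet_Sel (g : Γ) : MeasurableSet {u : Cfg Γ | p.Sel u g} :=
  measurableSet_setOfPred.2 (p.measurable_Sel g)

lemma sw_single_mp (g : Γ) : MeasurePreserving (p.sw {g}) (QM Γ ν) (QM Γ ν) := by
  classical
  refine ⟨Par.measurable_sw _, ?_⟩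
  ext E hE
  rw [Measure.map_apply (Par.measurable_sw _) hE]
  set τ : Cfg Γ → Cfg Γ := fun u => (fun x => u (Equiv.swap (p.b * g) (p.c * g) x) : Cfg Γ)
    with hτ
  have hτm : MeasurePreserving τ (QM Γ ν) (QM Γ ν) :=
    QM_reindex ν _ (Equiv.swap (p.b * g) (p.c * g)).injective
  have hττ : ∀ u, τ (τ u) = u := by
    intro u
    funext x
    simp [hτ]
  set D : Set (Cfg Γ) := {u | p.Sel u g} with hD
  have hDm : MeasurableSet D := measurableSet_Sel p g
  have hτD : ∀ u ∈ D, τ u ∈ D := by
    intro u hu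
    have h1 : p.sw {g} u = τ u := Par.sw_single hu
    have h2 := ((Par.rel_sw (p := p) {g} u).Sel_iff g).2 hu
    rwa [h1] at h2
  have h1 : p.sw {g} ⁻¹' E ∩ D = τ ⁻¹' (E ∩ D) := by
    ext u
    constructor
    · rintro ⟨h1, h2⟩
      have h3 : p.sw {g} u = τ u := Par.sw_single h2
      exact ⟨h3 ▸ h1, hτD u h2⟩
    · rintro ⟨h1, h2⟩
      have h4 : u ∈ D := hττ u ▸ hτD _ h2
      have h3 : p.sw {g} u = τ u := Par.sw_single h4
      exact ⟨by rw [Set.mem_preimage, h3]; exact h1, h4⟩
  have h2 : p.sw {g} ⁻¹' E \ D = E \ D := by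
    ext u
    constructor
    · rintro ⟨h1, h2⟩
      exact ⟨by rwa [Set.mem_preimage, Par.sw_single_not h2] at h1, h2⟩
    · rintro ⟨h1, h2⟩
      exact ⟨by rwa [Set.mem_preimage, Par.sw_single_not h2], h2⟩
  rw [← measure_inter_add_sdiff _ hDm, h1, h2,
    hτm.measure_preimage (hE.inter hDm).nullMeasurableSet, measure_inter_add_sdiff _ hDm]

lemma sw_finite_mp {T : Set Γ} (hT : T.Finite) :
    MeasurePreserving (p.sw T) (QM Γ ν) (QM Γ ν) := by
  induction T, hT using Set.Finite.induction_on with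
  | empty =>
    have : p.sw (∅ : Set Γ) = id := by
      funext u x
      exact Par.sw_neg (by simp [Par.fl])
    rw [this]
    exact MeasurePreserving.id _
  | @insert g T hg _ ih =>
    have : p.sw (insert g T) = p.sw {g} ∘ p.sw T := by
      funext u
      exact Par.sw_insert hg u
    rw [this]
    exact (sw_single_mp p ν g).comp ih

lemma sw_mp (T : Set Γ) : MeasurePreserving (p.sw T) (QM Γ ν) (QM Γ ν) := by
  refine ⟨Par.measurable_sw _, ?_⟩
  have key : ∀ (s : Finset Γ) (t : Γ → Set Bool),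
      (QM Γ ν).map (p.sw T) ((s : Set Γ).pi t) = QM Γ ν ((s : Set Γ).pi t) := by
    intro s t
    have hm : MeasurableSet (α := Cfg Γ) ((s : Set Γ).pi t) :=
      MeasurableSet.pi s.countable_toSet fun _ _ => MeasurableSet.of_discrete
    set T₀ : Set Γ := T ∩ ((fun x => p.b⁻¹ * x) '' s ∪ (fun x => p.c⁻¹ * x) '' s) with hT₀
    have hfin : T₀.Finite :=
      ((s.finite_toSet.image _).union (s.finite_toSet.image _)).subset Set.inter_subset_right
    have hsame : ∀ u : Cfg Γ, ∀ x ∈ s, p.sw T u x = p.sw T₀ u x := by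
      intro u x hx
      have : p.fl T u x ↔ p.fl T₀ u x := by
        have e1 : p.b⁻¹ * x ∈ T₀ ↔ p.b⁻¹ * x ∈ T :=
          ⟨fun h => h.1, fun h => ⟨h, Or.inl ⟨x, hx, rfl⟩⟩⟩
        have e2 : p.c⁻¹ * x ∈ T₀ ↔ p.c⁻¹ * x ∈ T :=
          ⟨fun h => h.1, fun h => ⟨h, Or.inr ⟨x, hx, rfl⟩⟩⟩
        simp only [Par.fl, e1, e2]
      by_cases h : p.fl T u x
      · rw [Par.sw_pos h, Par.sw_pos (this.1 h)]
      · rw [Par.sw_neg h, Par.sw_neg (mt this.2 h)]
    rw [Measure.map_apply (Par.measurable_sw _) hm,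
      ← (sw_finite_mp p ν hfin).measure_preimage hm.nullMeasurableSet]
    congr 1
    ext u
    constructor
    · intro h x hx
      rw [← hsame u x hx]; exact h x hx
    · intro h x hx
      rw [hsame u x hx]; exact h x hx
  refine Measure.eq_infinitePi (μ := fun _ : Γ => ν) (ν := (QM Γ ν).map (p.sw T)) fun s t ht => ?_
  exact (key s t).trans (Measure.infinitePi_pi (fun _ : Γ => ν) fun i _ => ht i)

/-- the base measure -/
noncomputable def PM : Measure (Cfg Γ) := (QM Γ ν).map p.N

lemma N_mp : MeasurePreserving p.N (QM Γ ν) (PM p ν) := ⟨Par.measurable_N, rfl⟩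

instance PM_prob : IsProbabilityMeasure (PM p ν) :=
  Measure.isProbabilityMeasure_map Par.measurable_N.aemeasurable

lemma measurable_smul_cfg (γ : Γ) : Measurable fun u : Cfg Γ => γ • u :=
  measurable_to_cfg fun _ => measurable_cfg_apply _

lemma PM_smul (γ : Γ) : MeasurePreserving (fun u : Cfg Γ => γ • u) (PM p ν) (PM p ν) := by
  refine ⟨measurable_smul_cfg γ, ?_⟩
  unfold PM
  rw [Measure.map_map (measurable_smul_cfg γ) Par.measurable_N]
  have : (fun u : Cfg Γ => γ • u) ∘ p.N = p.N ∘ fun u : Cfg Γ => γ • u := by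
    funext u
    exact (Par.N_smul γ u).symm
  rw [this, ← Measure.map_map Par.measurable_N (measurable_smul_cfg γ), (QM_smul ν γ).map_eq]

omit [Group Γ] [Countable Γ] in
lemma QM_box (s : Finset Γ) (v : Γ → Bool) :
    QM Γ ν {u : Cfg Γ | ∀ x ∈ s, u x = v x} = ∏ x ∈ s, ν {v x} := by
  rw [← Measure.infinitePi_pi (fun _ : Γ => ν) (s := s) (t := fun x => {v x})
    fun _ _ => MeasurableSet.of_discrete]
  rfl

omit [Group Γ] [Countable Γ] in
lemma measurableSet_box (s : Finset Γ) (v : Γ → Bool) :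
    MeasurableSet {u : Cfg Γ | ∀ x ∈ s, u x = v x} :=
  MeasurableSet.pi (X := fun _ : Γ => Bool) (s := (s : Set Γ)) (t := fun x => {v x})
    s.countable_toSet fun _ _ => MeasurableSet.of_discrete

lemma PM_Sel_pos (h0 : ν {false} ≠ 0) (h1 : ν {true} ≠ 0) :
    0 < PM p ν {u : Cfg Γ | p.Sel u 1} := by
  classical
  rw [← (N_mp p ν).measure_preimage (measurableSet_Sel p 1).nullMeasurableSet]
  have hfin : (({1, p.a} ∪ p.A) ∪ (p.W ∪ (fun h => p.a * h) '' p.W) : Set Γ).Finite :=
    ((Set.toFinite _).union p.A_finite).union (p.W_finite.union (p.W_finite.image _))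
  set v : Γ → Bool := fun x => decide (x = 1 ∨ x = p.a ∨ x = p.b) with hv
  have hsub : {u : Cfg Γ | ∀ x ∈ hfin.toFinset, u x = v x} ⊆ p.N ⁻¹' {u : Cfg Γ | p.Sel u 1} := by
    intro u hu
    have hu' : ∀ x ∈ (({1, p.a} ∪ p.A) ∪ (p.W ∪ (fun h => p.a * h) '' p.W) : Set Γ),
        u x = v x := fun x hx => hu x (hfin.mem_toFinset.2 hx)
    apply ((Par.rel_N u).Sel_iff 1).2
    obtain ⟨b1, b2, b3, b4⟩ := p.b_ne
    obtain ⟨c1, c2, c3, c4, c5, c6, c7⟩ := p.c_ne
    have ha := p.a_ne
    have haa := p.haa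
    refine ⟨⟨?_, ?_⟩, ?_, ?_, ?_⟩
    · rw [hu' 1 (by simp)]; simp [hv]
    · rw [mul_one, hu' p.a (by simp)]; simp [hv]
    · rintro h hh ⟨k1, k2⟩
      rw [mul_one] at k1 k2
      rw [hu' h (Or.inr (Or.inl hh))] at k1
      rw [hu' _ (Or.inr (Or.inr ⟨h, hh, rfl⟩))] at k2
      simp only [hv, decide_eq_true_eq] at k1 k2
      rcases k1 with k1 | k1 | k1
      · exact hh.1 k1
      · rw [k1] at k2
        rcases k2 with k2 | k2 | k2
        · exact haa k2
        · exact ha (by simpa using k2)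
        · exact b4 k2.symm
      · rw [k1] at k2
        rcases k2 with k2 | k2 | k2
        · exact b3 (eq_inv_of_mul_eq_one_right k2)
        · exact b1 (by simpa using k2)
        · exact ha (by simpa using k2)
    · intro w hw
      rw [mul_one, hu' w (Or.inl (Or.inr (Or.inr hw)))]
      simp only [hv, decide_eq_false_iff_not]
      rcases hw with rfl | rfl | rfl | rfl
      · rintro (k | k | k)
        · exact b3 (eq_inv_of_mul_eq_one_right k)
        · exact b1 (by simpa using k)
        · exact ha (by simpa using k)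
      · rintro (k | k | k)
        · exact b2 (inv_mul_eq_one.1 k).symm
        · exact b4 (inv_mul_eq_iff_eq_mul.1 k)
        · exact ha (by simpa using k)
      · rintro (k | k | k)
        · exact c3 (eq_inv_of_mul_eq_one_right k)
        · exact c1 (by simpa using k)
        · exact c7 (eq_inv_mul_iff_mul_eq.2 k)
      · rintro (k | k | k)
        · exact c2 (inv_mul_eq_one.1 k).symm
        · exact c4 (inv_mul_eq_iff_eq_mul.1 k)
        · exact c6 (inv_mul_eq_iff_eq_mul.1 k)
    · rw [mul_one, mul_one, hu' p.b (Or.inl (Or.inr (Or.inl (by simp)))),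
        hu' p.c (Or.inl (Or.inr (Or.inl (by simp))))]
      simp [hv, c1, c2, c5]
  refine lt_of_lt_of_le ?_ (measure_mono hsub)
  rw [QM_box, pos_iff_ne_zero, Finset.prod_ne_zero_iff]
  intro x _
  cases v x
  · exact h0
  · exact h1

lemma QM_free [Infinite Γ] (h0 : ν {false} ≠ 0) (h1 : ν {true} ≠ 0) {g : Γ} (hg : g ≠ 1) :
    QM Γ ν {u : Cfg Γ | ∀ h, p.Y u (h * g) ↔ p.Y u h} = 0 := by
  classical
  set Z := {u : Cfg Γ | ∀ h, p.Y u (h * g) ↔ p.Y u h} with hZ
  set κ : ENNReal := ν {true} * ν {true} * ν {false} with hκ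
  have hκ0 : κ ≠ 0 := mul_ne_zero (mul_ne_zero h1 h1) h0
  have step : ∀ n : ℕ, ∃ (I : Set Γ) (E : Set (Cfg Γ)), I.Finite ∧ MeasurableSet E ∧ Z ⊆ E ∧
      (∀ u v : Cfg Γ, (∀ x ∈ I, u x = v x) → (u ∈ E ↔ v ∈ E)) ∧ QM Γ ν E ≤ (1 - κ) ^ n := by
    intro n
    induction n with
    | zero =>
      exact ⟨∅, Set.univ, Set.finite_empty, MeasurableSet.univ, Set.subset_univ _,
        fun _ _ _ => Iff.rfl, by simp⟩
    | succ n ih =>
      obtain ⟨I, E, hI, hE, hZE, hdep, hle⟩ := ih
      obtain ⟨h, hh⟩ := ((hI.union (hI.image (fun x => p.a⁻¹ * x))).union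
        ((hI.image (fun x => x * g⁻¹)).union
          (hI.image (fun x => p.a⁻¹ * x * g⁻¹)))).exists_notMem
      have n1 : h ∉ I := fun k => hh (Or.inl (Or.inl k))
      have n2 : p.a * h ∉ I := fun k => hh (Or.inl (Or.inr ⟨_, k, by group⟩))
      have n3 : h * g ∉ I := fun k => hh (Or.inr (Or.inl ⟨_, k, by group⟩))
      have n4 : p.a * (h * g) ∉ I := fun k => hh (Or.inr (Or.inr ⟨_, k, by group⟩))
      obtain ⟨x, hx1, hx2, hx3⟩ : ∃ x, (x = h * g ∨ x = p.a * (h * g)) ∧ x ≠ h ∧ x ≠ p.a * h := by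
        by_cases e : h * g = p.a * h
        · refine ⟨p.a * (h * g), Or.inr rfl, ?_, ?_⟩
          · rw [e, ← mul_assoc]
            intro k
            exact p.haa (by simpa using k)
          · rw [e]
            intro k
            exact p.a_ne (by simpa using k)
        · exact ⟨h * g, Or.inl rfl, fun k => hg (by simpa using k), e⟩
      have hxI : x ∉ I := by rcases hx1 with rfl | rfl <;> assumption
      have hah : h ≠ p.a * h := fun k => p.a_ne (by simpa using k)
      set v : Γ → Bool := fun y => decide (y ≠ x) with hv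
      set B := {u : Cfg Γ | ∀ y ∈ ({h, p.a * h, x} : Finset Γ), u y = v y} with hB
      have hBm : MeasurableSet B := measurableSet_box _ _
      have hBκ : QM Γ ν B = κ := by
        rw [hB, QM_box, Finset.prod_insert (by simp [hah, hx2.symm]),
          Finset.prod_insert (by simp [hx3.symm]), Finset.prod_singleton]
        simp [hv, hx2.symm, hx3.symm, hκ, mul_assoc]
      have hdepB : ∀ (J : Set Γ), h ∈ J → p.a * h ∈ J → x ∈ J → ∀ u w : Cfg Γ,
          (∀ y ∈ J, u y = w y) → (u ∈ Bᶜ ↔ w ∈ Bᶜ) := by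
        intro J j1 j2 j3 u w huw
        apply not_congr
        simp only [hB, Set.mem_ofPred_eq, Finset.mem_insert, Finset.mem_singleton, forall_eq_or_imp,
          forall_eq, huw _ j1, huw _ j2, huw _ j3]
      refine ⟨I ∪ {h, p.a * h, x}, E ∩ Bᶜ, hI.union (Set.toFinite _), hE.inter hBm.compl,
        Set.subset_inter hZE ?_, ?_, ?_⟩
      · intro u hu hub
        have k1 : u h = true := by rw [hub h (by simp)]; simp [hv, hx2.symm]
        have k2 : u (p.a * h) = true := by rw [hub _ (by simp)]; simp [hv, hx3.symm]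
        have k3 : u x = false := by rw [hub _ (by simp)]; simp [hv]
        have k4 := (hu h).2 ⟨k1, k2⟩
        rcases hx1 with rfl | rfl
        · rw [k4.1] at k3; exact absurd k3 (by simp)
        · rw [k4.2] at k3; exact absurd k3 (by simp)
      · intro u w huw
        exact and_congr (hdep u w fun y hy => huw y (Or.inl hy))
          (hdepB _ (by simp) (by simp) (by simp) u w huw)
      · rw [QM_indep ν I hE hBm.compl hdep (hdepB Iᶜ n1 n2 hxI), prob_compl_eq_one_sub hBm, hBκ,
          pow_succ]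
        gcongr
  have hlt : 1 - κ < 1 := ENNReal.sub_lt_self ENNReal.one_ne_top one_ne_zero hκ0
  have ht := ENNReal.tendsto_pow_atTop_nhds_zero_of_lt_one hlt
  refine le_antisymm (ge_of_tendsto' ht fun n => ?_) bot_le
  obtain ⟨I, E, -, -, hZE, -, hle⟩ := step n
  exact (measure_mono hZE).trans hle

lemma base [Infinite Γ] (h0 : ν {false} ≠ 0) (h1 : ν {true} ≠ 0) :
    Base Γ (PM p ν) {u : Cfg Γ | p.Sel u 1} where
  prob := inferInstance
  inv := PM_smul p ν
  mix := by
    intro E hE ε hε
    have hΦ := (N_mp p ν).prod (MeasurePreserving.id (bitsM Γ))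
    refine (prod_mix ν _ (hΦ.measurable hE) ε hε).subset fun g hg => ?_
    have hm : Measurable fun z : Cfg Γ × Bits Γ => g • z :=
      (measurable_smul_cfg g).prodMap (measurePreserving_bits_smul g).measurable
    have e1 : Prod.map p.N id ⁻¹' E ∩ (fun z : Cfg Γ × Bits Γ => g • z) ⁻¹' (Prod.map p.N id ⁻¹' E)
        = Prod.map p.N id ⁻¹' (E ∩ (fun z : Cfg Γ × Bits Γ => g • z) ⁻¹' E) := by
      ext z
      have : Prod.map p.N id (g • z) = g • Prod.map p.N id z :=
        Prod.ext (Par.N_smul g z.1) rfl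
      simp only [Set.mem_inter_iff, Set.mem_preimage, this]
    rw [Set.mem_ofPred_eq, e1, Measure.real, Measure.real,
      hΦ.measure_preimage hE.nullMeasurableSet,
      hΦ.measure_preimage (hE.inter (hm hE)).nullMeasurableSet]
    exact hg
  free := by
    classical
    obtain ⟨e, he⟩ := exists_surjective_nat Γ
    refine ⟨fun n u => decide (p.Y u (e n)), fun n =>
      (measurable_of_finite (fun q : Prop => decide q)).comp (p.measurable_Y _), fun g hg => ?_⟩
    have hm : MeasurableSet {u : Cfg Γ | ∀ h, p.Y u (h * g) ↔ p.Y u h} :=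
      measurableSet_setOfPred.2
        (Measurable.forall fun h => (p.measurable_Y _).iff (p.measurable_Y _))
    have h2 : PM p ν {u : Cfg Γ | ∀ h, p.Y u (h * g) ↔ p.Y u h} = 0 := by
      rw [← (N_mp p ν).measure_preimage hm.nullMeasurableSet, ← QM_free p ν h0 h1 hg]
      congr 1
      ext u
      simp only [Set.mem_preimage, Set.mem_ofPred_eq, (Par.rel_N u).Y_iff]
    rw [ae_iff]
    refine measure_mono_null ?_ h2
    intro u hu h
    obtain ⟨n, rfl⟩ := he h
    by_contra hne
    apply hu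
    refine ⟨n, ?_⟩
    rw [Ne, decide_eq_decide, Par.Y_smul]
    exact hne
  measS := measurableSet_Sel p 1
  posS := PM_Sel_pos p ν h0 h1

/-- the bits read off the pairs -/
def bits (u : Cfg Γ) : Bits Γ := fun q => if u (p.b * q.1) = true then 1 else 0

omit [Countable Γ] in
lemma bits_smul (γ : Γ) (u : Cfg Γ) : bits p (γ • u) = γ • bits p u := by
  funext q
  simp only [bits, Bits.smul_apply, Cfg.smul_apply, mul_assoc]

omit [Countable Γ] in
lemma measurable_bits : Measurable (bits p) :=
  measurable_to_bits fun q => (measurable_of_finite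
    (fun b : Bool => if b = true then (1 : F2) else 0)).comp (measurable_cfg_apply (p.b * q.1))

lemma fair_map_add (c : F2) : fair.map (fun y => c + y) = fair := by
  refine Measure.ext_of_singleton fun b => ?_
  rw [Measure.map_apply (measurable_of_finite _) (measurableSet_singleton b)]
  have : (fun y => c + y) ⁻¹' {b} = {-c + b} := by
    ext y
    simp [eq_neg_add_iff_add_eq]
  rw [this, fair_singleton, fair_singleton]

omit [Group Γ] [Countable Γ] in
lemma bitsM_map_add (c : Bits Γ) : (bitsM Γ).map (fun z => c + z) = bitsM Γ := by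
  have h := Measure.infinitePi_map_pi (fun _ : Γ × ℕ => fair) (Y := fun _ => F2)
    (f := fun q y => c q + y) fun _ => measurable_of_finite _
  simp only [fair_map_add] at h
  exact h

lemma transfer (L : LCL Γ) (hL : SolvBase (PM p ν) {u : Cfg Γ | p.Sel u 1} L) :
    Solv Bool ν L := by
  obtain ⟨H, hH, hdep, hae⟩ := hL
  set f : Cfg Γ → Fin L.k := fun u => H (p.N u, bits p u) with hf
  have hfm : Measurable f := hH.comp (Par.measurable_N.prodMk (measurable_bits p))
  have hadd : Measurable (Function.uncurry fun (u : Cfg Γ) (z : Bits Γ) => bits p u + z) := by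
    refine measurable_to_bits fun q => ?_
    exact (measurable_of_finite (fun r : F2 × F2 => r.1 + r.2)).comp
      ((((measurable_bits_apply q).comp (measurable_bits p)).comp measurable_fst).prodMk
        ((measurable_bits_apply q).comp measurable_snd))
  have hΘ := (N_mp p ν).skew_product (μc := bitsM Γ) (μd := bitsM Γ) hadd
    (Filter.Eventually.of_forall fun u => bitsM_map_add (bits p u))
  have h1 := hΘ.quasiMeasurePreserving.ae hae
  have h2 := (Measure.measurePreserving_swap (μ := bitsM Γ)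
    (ν := QM Γ ν)).quasiMeasurePreserving.ae h1
  obtain ⟨z, hz⟩ := (Measure.ae_ae_of_ae_prod h2).exists
  set T : Set Γ := {g | z (g, 0) = 1} with hT
  have key : ∀ (u : Cfg Γ) (δ : Γ), H (δ • (p.N u, bits p u + z)) = f (δ • p.sw T u) := by
    intro u δ
    rw [hf]
    simp only [Par.N_smul, Par.N_sw, bits_smul]
    apply hdep
    intro g hg
    have hs : p.Sel u (g * δ) := by
      have h3 : p.Sel (g • δ • p.N u) 1 := hg
      rw [Par.Sel_smul, Par.Sel_smul, one_mul, (Par.rel_N u).Sel_iff] at h3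
      exact h3
    change bits p u (g * δ, 0) + z (g * δ, 0) = bits p (p.sw T u) (g * δ, 0)
    by_cases hgT : g * δ ∈ T
    · have h4 : z (g * δ, 0) = 1 := hgT
      have h5 := Par.sw_pos ((Par.fl_b (T := T) hs).2 hgT)
      simp only [bits, h4, h5]
      cases u (p.b * (g * δ))
      · simp
      · simp only [if_true, Bool.not_true, Bool.false_eq_true, if_false]
        decide
    · have h4 : z (g * δ, 0) = 0 := by
        have h6 : z (g * δ, 0) ≠ 1 := hgT
        revert h6
        generalize z (g * δ, 0) = y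
        revert y
        decide
      have h5 := Par.sw_neg (mt (Par.fl_b (T := T) hs).1 hgT)
      simp only [bits, h4, h5, add_zero]
  have hgood : MeasurableSet {v : Cfg Γ | (fun δ : L.F => f ((δ : Γ) • v)) ∈ L.P} := by
    have hm : Measurable fun v : Cfg Γ => (fun δ : L.F => f ((δ : Γ) • v)) :=
      measurable_pi_iff.2 fun δ => hfm.comp (measurable_smul_cfg _)
    exact hm (Set.toFinite L.P).measurableSet
  have h3 : ∀ᵐ u ∂(QM Γ ν), (fun δ : L.F => f ((δ : Γ) • p.sw T u)) ∈ L.P := by
    filter_upwards [hz] with u hu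
    simp only [← key]
    exact hu
  have h4 : ∀ᵐ v ∂(QM Γ ν), (fun δ : L.F => f ((δ : Γ) • v)) ∈ L.P := by
    rw [← (sw_mp p ν T).map_eq, ae_map_iff (Par.measurable_sw T).aemeasurable hgood]
    exact h3
  exact ⟨f, hfm, h4⟩

end SwapA

theorem solv_of_base {Γ : Type*} [Group Γ] [Countable Γ] [Infinite Γ] (a : Γ) (ha : a * a ≠ 1)
    (ν : Measure Bool) [IsProbabilityMeasure ν] (h0 : ν {false} ≠ 0) (h1 : ν {true} ≠ 0) :
    ∃ (P : Measure (Cfg Γ)) (S : Set (Cfg Γ)), Base Γ P S ∧
      ∀ L : LCL Γ, SolvBase P S L → Solv Bool ν L := by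
  obtain ⟨p, -⟩ := SwapA.exists_par a ha
  exact ⟨_, _, SwapA.base p ν h0 h1, SwapA.transfer p ν⟩

end Pool.Agent.H701Z.Fiid
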