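import Pool.Agent.H701Z.Fiid.SwapMix

set_option autoImplicit false

namespace Pool.Agent.H701Z.Fiid.SwapA

open MeasureTheory

/-- the three group elements used for the swap pairs -/
structure Par (Γ : Type*) [Group Γ] where
  a : Γ
  b : Γ
  c : Γ
  haa : a * a ≠ 1
  hb : b ∉ ({1, a, a⁻¹, a * a} : Set Γ)
  hc : c ∉ ({1, a, a⁻¹, a * a, b, a * b, a⁻¹ * b} : Set Γ)

variable {Γ : Type*} [Group Γ]

lemma exists_par [Infinite Γ] (a : Γ) (ha : a * a ≠ 1) : ∃ p : Par Γ, p.a = a := by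
  obtain ⟨b, hb⟩ := (Set.toFinite ({1, a, a⁻¹, a * a} : Set Γ)).exists_notMem
  obtain ⟨c, hc⟩ := (Set.toFinite ({1, a, a⁻¹, a * a, b, a * b, a⁻¹ * b} : Set Γ)).exists_notMem
  exact ⟨⟨a, b, c, ha, hb, hc⟩, rfl⟩

namespace Par

variable (p : Par Γ)

lemma a_ne : p.a ≠ 1 := by
  intro h
  apply p.haa
  rw [h, one_mul]

lemma b_ne : p.b ≠ 1 ∧ p.b ≠ p.a ∧ p.b ≠ p.a⁻¹ ∧ p.b ≠ p.a * p.a := by
  have := p.hb
  simpa [not_or] using this

lemma c_ne : p.c ≠ 1 ∧ p.c ≠ p.a ∧ p.c ≠ p.a⁻¹ ∧ p.c ≠ p.a * p.a ∧ p.c ≠ p.b ∧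
    p.c ≠ p.a * p.b ∧ p.c ≠ p.a⁻¹ * p.b := by
  have := p.hc
  simpa only [Set.mem_insert_iff, Set.mem_singleton_iff, not_or] using this

/-- guard positions -/
def G : Set Γ := {p.a * p.b, p.a⁻¹ * p.b, p.a * p.c, p.a⁻¹ * p.c}

/-- the window -/
def A : Set Γ := {p.b, p.c} ∪ p.G

/-- the isolation set -/
def W : Set Γ := {h | h ≠ 1 ∧ ∃ w ∈ p.A, h = p.b⁻¹ * w ∨ h = p.c⁻¹ * w}

lemma A_finite : p.A.Finite := (Set.toFinite _).union (by unfold G; exact Set.toFinite _)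

lemma W_finite : p.W.Finite := by
  refine ((p.A_finite.image (fun w => p.b⁻¹ * w)).union
    (p.A_finite.image (fun w => p.c⁻¹ * w))).subset ?_
  rintro h ⟨-, w, hw, rfl | rfl⟩
  · exact Or.inl ⟨w, hw, rfl⟩
  · exact Or.inr ⟨w, hw, rfl⟩

lemma b_notMem_G : p.b ∉ p.G := by
  obtain ⟨c1, c2, c3, c4, c5, c6, c7⟩ := p.c_ne
  have ha := p.a_ne
  rintro (h | h | h | h)
  · exact ha (by simpa using h)
  · exact ha (by simpa using h)
  · exact c7 (by rw [h]; group)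
  · exact c6 (by rw [Set.mem_singleton_iff] at h; rw [h]; group)

lemma c_notMem_G : p.c ∉ p.G := by
  obtain ⟨c1, c2, c3, c4, c5, c6, c7⟩ := p.c_ne
  have ha := p.a_ne
  rintro (h | h | h | h)
  · exact c6 h
  · exact c7 h
  · exact ha (by simpa using h)
  · exact ha (by simpa using h)

/-- marker event at `g` -/
def Y (u : Cfg Γ) (g : Γ) : Prop := u g = true ∧ u (p.a * g) = true

/-- `g` is selected -/
def Sel (u : Cfg Γ) (g : Γ) : Prop :=
  p.Y u g ∧ (∀ h ∈ p.W, ¬ p.Y u (h * g)) ∧ (∀ w ∈ p.G, u (w * g) = false) ∧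
    u (p.b * g) ≠ u (p.c * g)

lemma Y_smul (γ : Γ) (u : Cfg Γ) (g : Γ) : p.Y (γ • u) g ↔ p.Y u (g * γ) := by
  simp only [Y, Cfg.smul_apply, mul_assoc]

lemma Sel_smul (γ : Γ) (u : Cfg Γ) (g : Γ) : p.Sel (γ • u) g ↔ p.Sel u (g * γ) := by
  simp only [Sel, Y_smul, Cfg.smul_apply, mul_assoc]

lemma measurable_Y (g : Γ) : Measurable fun u : Cfg Γ => p.Y u g :=
  ((measurable_cfg_apply g).eq_const true).and ((measurable_cfg_apply _).eq_const true)

lemma measurable_Sel [Countable Γ] (g : Γ) : Measurable fun u : Cfg Γ => p.Sel u g := by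
  refine (p.measurable_Y g).and (Measurable.and ?_ (Measurable.and ?_ ?_))
  · exact Measurable.forall fun h => measurable_const.imp (p.measurable_Y _).not
  · exact Measurable.forall fun w => measurable_const.imp ((measurable_cfg_apply _).eq_const false)
  · exact (((measurable_cfg_apply (p.b * g)).prodMk (measurable_cfg_apply (p.c * g))).comp
      measurable_id |> fun h => (measurable_of_finite (fun q : Bool × Bool => q.1 ≠ q.2)).comp h)

variable {p}

/-- a window site of an isolated `g` which is a pair site of a marked `g'` forces `g' = g` -/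
lemma eq_of_site {u : Cfg Γ} {g g' w : Γ} (hiso : ∀ h ∈ p.W, ¬ p.Y u (h * g)) (hY : p.Y u g')
    (hw : w ∈ p.A) (h : w * g = p.b * g' ∨ w * g = p.c * g') : g' = g := by
  by_contra hne
  rcases h with h | h
  · have e : g' = (p.b⁻¹ * w) * g := by rw [mul_assoc, h]; group
    refine hiso (p.b⁻¹ * w) ⟨?_, w, hw, Or.inl rfl⟩ (e ▸ hY)
    intro h1
    rw [h1, one_mul] at e
    exact hne e
  · have e : g' = (p.c⁻¹ * w) * g := by rw [mul_assoc, h]; group
    refine hiso (p.c⁻¹ * w) ⟨?_, w, hw, Or.inr rfl⟩ (e ▸ hY)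
    intro h1
    rw [h1, one_mul] at e
    exact hne e

variable (p) in
/-- `v` is obtained from `u` by changing selected pairs only, keeping them unequal -/
structure Rel (u v : Cfg Γ) : Prop where
  chg : ∀ x, v x ≠ u x → ∃ g, p.Sel u g ∧ (x = p.b * g ∨ x = p.c * g)
  ne : ∀ g, p.Sel u g → v (p.b * g) ≠ v (p.c * g)

lemma Rel.guard {u v : Cfg Γ} (h : p.Rel u v) {g w : Γ} (hg : p.Sel u g) (hw : w ∈ p.G) :
    v (w * g) = false := by
  rw [← hg.2.2.1 w hw]
  by_contra hne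
  obtain ⟨g', hg', hx⟩ := h.chg _ hne
  have e := eq_of_site hg.2.1 hg'.1 (Or.inr hw) hx
  subst e
  rcases hx with hx | hx
  · exact p.b_notMem_G (mul_right_cancel hx ▸ hw)
  · exact p.c_notMem_G (mul_right_cancel hx ▸ hw)

lemma Rel.nbr {u v : Cfg Γ} (h : p.Rel u v) {x : Γ} (hx : v x ≠ u x) :
    u (p.a * x) = false ∧ v (p.a * x) = false ∧ u (p.a⁻¹ * x) = false ∧ v (p.a⁻¹ * x) = false := by
  obtain ⟨g, hg, rfl | rfl⟩ := h.chg x hx
  · have m1 : p.a * p.b ∈ p.G := by simp [G]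
    have m2 : p.a⁻¹ * p.b ∈ p.G := by simp [G]
    simp only [← mul_assoc]
    exact ⟨hg.2.2.1 _ m1, h.guard hg m1, hg.2.2.1 _ m2, h.guard hg m2⟩
  · have m1 : p.a * p.c ∈ p.G := by simp [G]
    have m2 : p.a⁻¹ * p.c ∈ p.G := by simp [G]
    simp only [← mul_assoc]
    exact ⟨hg.2.2.1 _ m1, h.guard hg m1, hg.2.2.1 _ m2, h.guard hg m2⟩

lemma Rel.Y_iff {u v : Cfg Γ} (h : p.Rel u v) (g : Γ) : p.Y v g ↔ p.Y u g := by
  by_cases h1 : v g = u g
  · by_cases h2 : v (p.a * g) = u (p.a * g)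
    · simp only [Y, h1, h2]
    · obtain ⟨-, -, h3, h4⟩ := h.nbr h2
      rw [inv_mul_cancel_left] at h3 h4
      simp [Y, h3, h4]
  · obtain ⟨h3, h4, -, -⟩ := h.nbr h1
    simp [Y, h3, h4]

lemma Rel.Sel_iff {u v : Cfg Γ} (h : p.Rel u v) (g : Γ) : p.Sel v g ↔ p.Sel u g := by
  constructor
  · intro hv
    have hiso : ∀ k ∈ p.W, ¬ p.Y u (k * g) := fun k hk hY => hv.2.1 k hk ((h.Y_iff _).2 hY)
    by_contra hu
    have same : ∀ w ∈ p.A, v (w * g) = u (w * g) := by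
      intro w hw
      by_contra hne
      obtain ⟨g', hg', hx⟩ := h.chg _ hne
      have e := eq_of_site hiso hg'.1 hw hx
      exact hu (e ▸ hg')
    refine hu ⟨(h.Y_iff g).1 hv.1, hiso, fun w hw => ?_, ?_⟩
    · rw [← same w (Or.inr hw)]; exact hv.2.2.1 w hw
    · rw [← same p.b (Or.inl (by simp)), ← same p.c (Or.inl (by simp))]
      exact hv.2.2.2
  · intro hu
    exact ⟨(h.Y_iff g).2 hu.1, fun k hk hY => hu.2.1 k hk ((h.Y_iff _).1 hY),
      fun w hw => h.guard hu hw, h.ne g hu⟩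

lemma not_Sel_cb {u : Cfg Γ} {g : Γ} (hg : p.Sel u g) : ¬ p.Sel u (p.c⁻¹ * (p.b * g)) := by
  intro h
  have e := eq_of_site hg.2.1 h.1 (w := p.b) (Or.inl (by simp)) (Or.inr (by group))
  have : p.c * g = p.b * g := by
    conv_lhs => rw [← e]
    group
  exact p.c_ne.2.2.2.2.1 (mul_right_cancel this)

lemma not_Sel_bc {u : Cfg Γ} {g : Γ} (hg : p.Sel u g) : ¬ p.Sel u (p.b⁻¹ * (p.c * g)) := by
  intro h
  have e := eq_of_site hg.2.1 h.1 (w := p.c) (Or.inl (by simp)) (Or.inl (by group))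
  have : p.b * g = p.c * g := by
    conv_lhs => rw [← e]
    group
  exact p.c_ne.2.2.2.2.1 (mul_right_cancel this).symm

variable (p) in
/-- the site `x` is flipped -/
def fl (T : Set Γ) (u : Cfg Γ) (x : Γ) : Prop :=
  (p.b⁻¹ * x ∈ T ∧ p.Sel u (p.b⁻¹ * x)) ∨ (p.c⁻¹ * x ∈ T ∧ p.Sel u (p.c⁻¹ * x))

variable (p) in
open Classical in
/-- swap the selected pairs indexed by `T` -/
noncomputable def sw (T : Set Γ) (u : Cfg Γ) : Cfg Γ :=
  fun x => if p.fl T u x then !(u x) else u x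

variable (p) in
open Classical in
/-- normal form -/
noncomputable def N (u : Cfg Γ) : Cfg Γ :=
  fun x => if p.Sel u (p.b⁻¹ * x) then true else if p.Sel u (p.c⁻¹ * x) then false else u x

lemma sw_pos {T : Set Γ} {u : Cfg Γ} {x : Γ} (h : p.fl T u x) : p.sw T u x = !(u x) := if_pos h

lemma sw_neg {T : Set Γ} {u : Cfg Γ} {x : Γ} (h : ¬ p.fl T u x) : p.sw T u x = u x := if_neg h

lemma N_b {u : Cfg Γ} {x : Γ} (h : p.Sel u (p.b⁻¹ * x)) : p.N u x = true := if_pos h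

lemma N_c {u : Cfg Γ} {x : Γ} (h : ¬ p.Sel u (p.b⁻¹ * x)) (h' : p.Sel u (p.c⁻¹ * x)) :
    p.N u x = false := (if_neg h).trans (if_pos h')

lemma N_o {u : Cfg Γ} {x : Γ} (h : ¬ p.Sel u (p.b⁻¹ * x)) (h' : ¬ p.Sel u (p.c⁻¹ * x)) :
    p.N u x = u x := (if_neg h).trans (if_neg h')

lemma fl_b {T : Set Γ} {u : Cfg Γ} {g : Γ} (hg : p.Sel u g) : p.fl T u (p.b * g) ↔ g ∈ T := by
  simp [fl, hg, not_Sel_cb hg]

lemma fl_c {T : Set Γ} {u : Cfg Γ} {g : Γ} (hg : p.Sel u g) : p.fl T u (p.c * g) ↔ g ∈ T := by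
  simp [fl, hg, not_Sel_bc hg]

lemma rel_sw (T : Set Γ) (u : Cfg Γ) : p.Rel u (p.sw T u) where
  chg x hx := by
    by_cases h : p.fl T u x
    · rcases h with h | h
      · exact ⟨_, h.2, Or.inl (by group)⟩
      · exact ⟨_, h.2, Or.inr (by group)⟩
    · simp [sw, h] at hx
  ne g hg := by
    have := hg.2.2.2
    by_cases h : g ∈ T
    · simpa [sw, fl_b hg, fl_c hg, h] using this
    · simpa [sw, fl_b hg, fl_c hg, h] using this

lemma rel_N (u : Cfg Γ) : p.Rel u (p.N u) where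
  chg x hx := by
    by_cases h : p.Sel u (p.b⁻¹ * x)
    · exact ⟨_, h, Or.inl (by group)⟩
    by_cases h' : p.Sel u (p.c⁻¹ * x)
    · exact ⟨_, h', Or.inr (by group)⟩
    simp [N, h, h'] at hx
  ne g hg := by
    simp [N, hg, not_Sel_bc hg]

lemma N_sw (T : Set Γ) (u : Cfg Γ) : p.N (p.sw T u) = p.N u := by
  funext x
  have hS := (rel_sw (p := p) T u).Sel_iff
  by_cases h : p.Sel u (p.b⁻¹ * x)
  · rw [N_b h, N_b ((hS _).2 h)]
  by_cases h' : p.Sel u (p.c⁻¹ * x)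
  · rw [N_c h h', N_c (mt (hS _).1 h) ((hS _).2 h')]
  rw [N_o h h', N_o (mt (hS _).1 h) (mt (hS _).1 h'), sw_neg]
  simp [fl, h, h']

lemma N_smul (γ : Γ) (u : Cfg Γ) : p.N (γ • u) = γ • p.N u := by
  funext x
  have e1 : p.Sel (γ • u) (p.b⁻¹ * x) ↔ p.Sel u (p.b⁻¹ * (x * γ)) := by
    rw [Sel_smul, mul_assoc]
  have e2 : p.Sel (γ • u) (p.c⁻¹ * x) ↔ p.Sel u (p.c⁻¹ * (x * γ)) := by
    rw [Sel_smul, mul_assoc]
  rw [Cfg.smul_apply]
  by_cases h : p.Sel u (p.b⁻¹ * (x * γ))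
  · rw [N_b h, N_b (e1.2 h)]
  by_cases h' : p.Sel u (p.c⁻¹ * (x * γ))
  · rw [N_c h h', N_c (mt e1.1 h) (e2.2 h')]
  rw [N_o h h', N_o (mt e1.1 h) (mt e2.1 h'), Cfg.smul_apply]

lemma measurable_N [Countable Γ] : Measurable p.N := by
  refine measurable_to_cfg fun x => ?_
  unfold N
  exact Measurable.ite (measurableSet_setOfPred.2 (p.measurable_Sel _)) measurable_const
    (Measurable.ite (measurableSet_setOfPred.2 (p.measurable_Sel _)) measurable_const
      (measurable_cfg_apply x))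

lemma measurable_sw [Countable Γ] (T : Set Γ) : Measurable (p.sw T) := by
  refine measurable_to_cfg fun x => ?_
  unfold sw
  refine Measurable.ite (measurableSet_setOfPred.2 ?_)
    ((measurable_of_finite (fun b : Bool => !b)).comp (measurable_cfg_apply x))
    (measurable_cfg_apply x)
  exact (measurable_const.and (p.measurable_Sel _)).or (measurable_const.and (p.measurable_Sel _))

lemma sw_insert {T : Set Γ} {g : Γ} (hg : g ∉ T) (u : Cfg Γ) :
    p.sw (insert g T) u = p.sw {g} (p.sw T u) := by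
  funext x
  have hS := (rel_sw (p := p) T u).Sel_iff
  have k1 : p.fl {g} (p.sw T u) x ↔ p.fl {g} u x := by simp only [fl, hS]
  have k2 : p.fl (insert g T) u x ↔ p.fl {g} u x ∨ p.fl T u x := by
    simp only [fl, Set.mem_insert_iff, Set.mem_singleton_iff]
    tauto
  have k3 : ¬ (p.fl {g} u x ∧ p.fl T u x) := by
    rintro ⟨h | h, h' | h'⟩
    · exact hg (Set.mem_singleton_iff.1 h.1 ▸ h'.1)
    · exact not_Sel_cb h.2 (by simpa using h'.2)
    · exact not_Sel_cb h'.2 (by simpa using h.2)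
    · exact hg (Set.mem_singleton_iff.1 h.1 ▸ h'.1)
  by_cases h : p.fl {g} u x
  · have h' : ¬ p.fl T u x := fun h' => k3 ⟨h, h'⟩
    rw [sw_pos (k2.2 (Or.inl h)), sw_pos (k1.2 h), sw_neg h']
  · rw [sw_neg (mt k1.1 h)]
    by_cases h' : p.fl T u x
    · rw [sw_pos (k2.2 (Or.inr h')), sw_pos h']
    · rw [sw_neg (fun k => (k2.1 k).elim h h'), sw_neg h']

lemma sw_single [DecidableEq Γ] {g : Γ} {u : Cfg Γ} (hg : p.Sel u g) :
    p.sw {g} u = fun x => u (Equiv.swap (p.b * g) (p.c * g) x) := by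
  funext x
  have hne := hg.2.2.2
  by_cases h1 : x = p.b * g
  · subst h1
    simp only [sw, fl_b hg, Set.mem_singleton_iff, if_true, Equiv.swap_apply_left]
    revert hne
    cases u (p.b * g) <;> cases u (p.c * g) <;> simp
  by_cases h2 : x = p.c * g
  · subst h2
    simp only [sw, fl_c hg, Set.mem_singleton_iff, if_true, Equiv.swap_apply_right]
    revert hne
    cases u (p.b * g) <;> cases u (p.c * g) <;> simp
  have h3 : ¬ p.fl {g} u x := by
    rintro (h | h)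
    · exact h1 (by rw [← Set.mem_singleton_iff.1 h.1]; group)
    · exact h2 (by rw [← Set.mem_singleton_iff.1 h.1]; group)
  simp only [sw, h3, if_false, Equiv.swap_apply_of_ne_of_ne h1 h2]

lemma sw_single_not {g : Γ} {u : Cfg Γ} (hg : ¬ p.Sel u g) : p.sw {g} u = u := by
  funext x
  have h3 : ¬ p.fl {g} u x := by
    rintro (h | h)
    · exact hg (Set.mem_singleton_iff.1 h.1 ▸ h.2)
    · exact hg (Set.mem_singleton_iff.1 h.1 ▸ h.2)
  simp only [sw, h3, if_false]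

end Par

end Pool.Agent.H701Z.Fiid.SwapA
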