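import Pool.Agent.H701Z.Fiid.Sys

set_option autoImplicit false

namespace Pool.Agent.H701Z.Fiid.SwapA

open MeasureTheory
open scoped symmDiff

open Classical in
/-- take the coordinates in `I` from the first point and the others from the second -/
noncomputable def merge {J X : Type*} (I : Set J) (p : (J → X) × (J → X)) : J → X :=
  fun j => if j ∈ I then p.1 j else p.2 j

lemma measurable_merge {J X : Type*} [MeasurableSpace X] (I : Set J) :
    Measurable (merge (X := X) I) := by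
  refine measurable_pi_iff.2 fun j => ?_
  unfold merge
  by_cases h : j ∈ I
  · simp only [h, if_true]; fun_prop
  · simp only [h, if_false]; fun_prop

lemma merge_mp {J X : Type*} [MeasurableSpace X] (μ : Measure X) [IsProbabilityMeasure μ]
    (I : Set J) :
    MeasurePreserving (merge (X := X) I)
      ((Measure.infinitePi fun _ : J => μ).prod (Measure.infinitePi fun _ : J => μ))
      (Measure.infinitePi fun _ : J => μ) := by
  classical
  refine ⟨measurable_merge I, Measure.eq_infinitePi _ fun s t ht => ?_⟩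
  rw [Measure.map_apply (measurable_merge I) (.pi s.countable_toSet fun _ _ => ht _)]
  have : merge (X := X) I ⁻¹' ((s : Set J).pi t) =
      (((s.filter (· ∈ I) : Finset J) : Set J).pi t) ×ˢ
        (((s.filter (fun j => ¬ j ∈ I) : Finset J) : Set J).pi t) := by
    ext p
    simp only [Set.mem_preimage, Set.mem_pi, Finset.mem_coe, Set.mem_prod, Finset.mem_filter,
      merge]
    constructor
    · intro h
      refine ⟨fun j hj => ?_, fun j hj => ?_⟩
      · have := h j hj.1
        rwa [if_pos hj.2] at this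
      · have := h j hj.1
        rwa [if_neg hj.2] at this
    · rintro ⟨h1, h2⟩ j hj
      by_cases h : j ∈ I
      · rw [if_pos h]; exact h1 j ⟨hj, h⟩
      · rw [if_neg h]; exact h2 j ⟨hj, h⟩
  rw [this, Measure.prod_prod, Measure.infinitePi_pi _ (fun i _ => ht i),
    Measure.infinitePi_pi _ (fun i _ => ht i), Finset.prod_filter_mul_prod_filter_not]

lemma indep_of_mp {Ω : Type*} [MeasurableSpace Ω] {μ : Measure Ω} [SFinite μ] {m : Ω × Ω → Ω}
    (hm : MeasurePreserving m (μ.prod μ) μ) {E F : Set Ω} (hE : MeasurableSet E)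
    (hF : MeasurableSet F) (h1 : ∀ p, m p ∈ E ↔ p.1 ∈ E) (h2 : ∀ p, m p ∈ F ↔ p.2 ∈ F) :
    μ (E ∩ F) = μ E * μ F := by
  rw [← hm.measure_preimage (hE.inter hF).nullMeasurableSet, ← Measure.prod_prod]
  congr 1
  ext p
  simp [h1, h2]

lemma mp_reorder {A B : Type*} [MeasurableSpace A] [MeasurableSpace B] (μ : Measure A)
    (ν : Measure B) [SFinite μ] [SFinite ν] :
    MeasurePreserving (fun p : (A × B) × (A × B) => ((p.1.1, p.2.1), (p.1.2, p.2.2)))
      ((μ.prod ν).prod (μ.prod ν)) ((μ.prod μ).prod (ν.prod ν)) := by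
  have h1 := measurePreserving_prodAssoc μ ν (μ.prod ν)
  have h2 := (MeasurePreserving.id μ).prod
    ((measurePreserving_prodAssoc ν μ ν).symm MeasurableEquiv.prodAssoc)
  have h3 := (MeasurePreserving.id μ).prod
    ((Measure.measurePreserving_swap (μ := ν) (ν := μ)).prod (MeasurePreserving.id ν))
  have h4 := (MeasurePreserving.id μ).prod (measurePreserving_prodAssoc μ ν ν)
  have h5 := (measurePreserving_prodAssoc μ μ (ν.prod ν)).symm MeasurableEquiv.prodAssoc
  exact h5.comp (h4.comp (h3.comp (h2.comp h1)))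

variable {Γ : Type*}

/-- the Bernoulli measure on configurations -/
noncomputable def QM (Γ : Type*) (ν : Measure Bool) : Measure (Cfg Γ) :=
  Measure.infinitePi fun _ : Γ => ν

instance QM_prob (ν : Measure Bool) [IsProbabilityMeasure ν] : IsProbabilityMeasure (QM Γ ν) := by
  unfold QM
  exact inferInstanceAs (IsProbabilityMeasure (Measure.infinitePi fun _ : Γ => ν))

lemma measurable_cfg_apply (x : Γ) : Measurable fun u : Cfg Γ => u x :=
  measurable_pi_apply (X := fun _ : Γ => Bool) x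

lemma measurable_to_cfg {α : Type*} [MeasurableSpace α] {f : α → Cfg Γ}
    (h : ∀ x, Measurable fun a => f a x) : Measurable f :=
  measurable_pi_iff (X := fun _ : Γ => Bool) |>.2 h

lemma QM_reindex (ν : Measure Bool) [IsProbabilityMeasure ν] (f : Γ → Γ)
    (hf : Function.Injective f) :
    MeasurePreserving (fun (u : Cfg Γ) => (fun x => u (f x) : Cfg Γ)) (QM Γ ν) (QM Γ ν) :=
  ⟨measurable_to_cfg fun _ => measurable_cfg_apply _,
    Measure.map_infinitePi_infinitePi_of_inj (P := fun _ : Γ => ν) (f := f) hf⟩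

lemma QM_smul [Group Γ] (ν : Measure Bool) [IsProbabilityMeasure ν] (γ : Γ) :
    MeasurePreserving (fun u : Cfg Γ => γ • u) (QM Γ ν) (QM Γ ν) :=
  QM_reindex ν (fun x => x * γ) (mul_left_injective γ)

/-- merge of configurations -/
noncomputable def mergeC (I : Set Γ) (p : Cfg Γ × Cfg Γ) : Cfg Γ := merge I p

/-- merge of bit fields -/
noncomputable def mergeB (I : Set Γ) (p : Bits Γ × Bits Γ) : Bits Γ :=
  merge {j : Γ × ℕ | j.1 ∈ I} p

/-- independence of events with disjoint supports -/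
lemma QM_indep (ν : Measure Bool) [IsProbabilityMeasure ν] (I : Set Γ) {E F : Set (Cfg Γ)}
    (hE : MeasurableSet E) (hF : MeasurableSet F)
    (h1 : ∀ u v : Cfg Γ, (∀ x ∈ I, u x = v x) → (u ∈ E ↔ v ∈ E))
    (h2 : ∀ u v : Cfg Γ, (∀ x ∉ I, u x = v x) → (u ∈ F ↔ v ∈ F)) :
    QM Γ ν (E ∩ F) = QM Γ ν E * QM Γ ν F := by
  have hm : MeasurePreserving (mergeC I)
      ((QM Γ ν).prod (QM Γ ν)) (QM Γ ν) := merge_mp ν I
  refine indep_of_mp hm hE hF (fun p => h1 _ _ fun x hx => ?_) (fun p => h2 _ _ fun x hx => ?_)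
  · simp [mergeC, merge, hx]
  · simp [mergeC, merge, hx]

/-- `E` only depends on the sites in `I` -/
def DepOn (I : Set Γ) (E : Set (Cfg Γ × Bits Γ)) : Prop :=
  ∀ p q : Cfg Γ × Bits Γ, (∀ x ∈ I, p.1 x = q.1 x ∧ ∀ n, p.2 (x, n) = q.2 (x, n)) →
    (p ∈ E ↔ q ∈ E)

lemma DepOn.mono {I J : Set Γ} {E : Set (Cfg Γ × Bits Γ)} (h : DepOn I E) (hIJ : I ⊆ J) :
    DepOn J E := fun p q hpq => h p q fun x hx => hpq x (hIJ hx)

lemma prod_indep (ν : Measure Bool) [IsProbabilityMeasure ν] (I : Set Γ)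
    {E F : Set (Cfg Γ × Bits Γ)} (hE : MeasurableSet E) (hF : MeasurableSet F)
    (h1 : DepOn I E) (h2 : DepOn Iᶜ F) :
    ((QM Γ ν).prod (bitsM Γ)) (E ∩ F) =
      ((QM Γ ν).prod (bitsM Γ)) E * ((QM Γ ν).prod (bitsM Γ)) F := by
  have hm1 : MeasurePreserving (mergeC I)
      ((QM Γ ν).prod (QM Γ ν)) (QM Γ ν) := merge_mp ν I
  have hm2 : MeasurePreserving (mergeB I)
      ((bitsM Γ).prod (bitsM Γ)) (bitsM Γ) := merge_mp fair {j : Γ × ℕ | j.1 ∈ I}
  have hm := (hm1.prod hm2).comp (mp_reorder (QM Γ ν) (bitsM Γ))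
  refine indep_of_mp hm hE hF (fun p => h1 _ _ fun x hx => ?_) (fun p => h2 _ _ fun x hx => ?_)
  · simp [mergeC, mergeB, merge, hx]
  · have hx' : x ∉ I := hx
    simp [mergeC, mergeB, merge, hx']

/-- the algebra of measurable sets depending on finitely many sites -/
def FinAlg (Γ : Type*) : Set (Set (Cfg Γ × Bits Γ)) :=
  {E | MeasurableSet E ∧ ∃ I : Set Γ, I.Finite ∧ DepOn I E}

lemma finAlg_isSetAlgebra : IsSetAlgebra (FinAlg Γ) where
  empty_mem := ⟨MeasurableSet.empty, ∅, Set.finite_empty, fun _ _ _ => Iff.rfl⟩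
  compl_mem := by
    rintro s ⟨h1, I, h2, h3⟩
    exact ⟨h1.compl, I, h2, fun p q h => not_congr (h3 p q h)⟩
  union_mem := by
    rintro s t ⟨h1, I, h2, h3⟩ ⟨h1', I', h2', h3'⟩
    exact ⟨h1.union h1', I ∪ I', h2.union h2', fun p q h =>
      or_congr (h3.mono Set.subset_union_left p q h) (h3'.mono Set.subset_union_right p q h)⟩

lemma finAlg_gen : (inferInstance : MeasurableSpace (Cfg Γ × Bits Γ)) =
    MeasurableSpace.generateFrom (FinAlg Γ) := by
  apply le_antisymm
  · have h1 : @Measurable (Cfg Γ × Bits Γ) (Cfg Γ) (MeasurableSpace.generateFrom (FinAlg Γ)) _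
        Prod.fst := by
      refine @measurable_to_cfg Γ _ (MeasurableSpace.generateFrom (FinAlg Γ)) _ fun x s hs => ?_
      refine MeasurableSpace.measurableSet_generateFrom
        ⟨((measurable_cfg_apply x).comp measurable_fst) hs, {x}, Set.finite_singleton x, ?_⟩
      intro p q h
      simp only [Set.mem_preimage]
      rw [(h x rfl).1]
    have h2 : @Measurable (Cfg Γ × Bits Γ) (Bits Γ) (MeasurableSpace.generateFrom (FinAlg Γ)) _
        Prod.snd := by
      refine @measurable_to_bits Γ _ (MeasurableSpace.generateFrom (FinAlg Γ)) _ fun x s hs => ?_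
      refine MeasurableSpace.measurableSet_generateFrom
        ⟨((measurable_bits_apply x).comp measurable_snd) hs, {x.1}, Set.finite_singleton x.1, ?_⟩
      intro p q h
      simp only [Set.mem_preimage]
      rw [show x = (x.1, x.2) from rfl, (h x.1 rfl).2]
    exact sup_le h1.comap_le h2.comap_le
  · exact MeasurableSpace.generateFrom_le fun _ h => h.1

lemma prod_smul_mp [Group Γ] (ν : Measure Bool) [IsProbabilityMeasure ν] (γ : Γ) :
    MeasurePreserving (fun z : Cfg Γ × Bits Γ => γ • z) ((QM Γ ν).prod (bitsM Γ))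
      ((QM Γ ν).prod (bitsM Γ)) :=
  (QM_smul ν γ).prod (measurePreserving_bits_smul γ)

/-- mixing of the product Bernoulli system -/
lemma prod_mix [Group Γ] (ν : Measure Bool) [IsProbabilityMeasure ν] (E : Set (Cfg Γ × Bits Γ))
    (hE : MeasurableSet E) (ε : ℝ) (hε : 0 < ε) :
    {g : Γ | ε < |((QM Γ ν).prod (bitsM Γ)).real (E ∩ (fun z => g • z) ⁻¹' E)
      - (((QM Γ ν).prod (bitsM Γ)).real E) ^ 2|}.Finite := by
  set μ := (QM Γ ν).prod (bitsM Γ) with hμ
  have hd := Measure.MeasureDense.of_generateFrom_isSetAlgebra_finite μ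
    (finAlg_isSetAlgebra (Γ := Γ)) finAlg_gen
  obtain ⟨F, ⟨hF, I, hI, hdep⟩, hEF⟩ := hd.approx E hE (measure_ne_top _ _) (ε / 4) (by linarith)
  have hδ : μ.real (E ∆ F) < ε / 4 := by
    rw [Measure.real]
    exact ENNReal.toReal_lt_of_lt_ofReal hEF
  refine ((hI.prod hI).image (fun p : Γ × Γ => p.1⁻¹ * p.2)).subset ?_
  intro g hg
  by_contra hcon
  have hmp := prod_smul_mp (Γ := Γ) ν g
  have hF' : MeasurableSet ((fun z : Cfg Γ × Bits Γ => g • z) ⁻¹' F) := hmp.measurable hF
  have hE' : MeasurableSet ((fun z : Cfg Γ × Bits Γ => g • z) ⁻¹' E) := hmp.measurable hE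
  have hdep' : DepOn Iᶜ ((fun z : Cfg Γ × Bits Γ => g • z) ⁻¹' F) := by
    intro p q h
    apply hdep
    intro x hx
    have hxg : x * g ∈ Iᶜ := by
      intro h'
      exact hcon ⟨(x, x * g), ⟨hx, h'⟩, by simp⟩
    exact ⟨(h _ hxg).1, fun n => (h _ hxg).2 n⟩
  have h1 : μ.real (F ∩ (fun z => g • z) ⁻¹' F) = μ.real F ^ 2 := by
    rw [Measure.real, prod_indep ν I hF hF' hdep hdep',
      hmp.measure_preimage hF.nullMeasurableSet, ENNReal.toReal_mul, sq]
    rfl
  have h2 : |μ.real (E ∩ (fun z => g • z) ⁻¹' E) - μ.real (F ∩ (fun z => g • z) ⁻¹' F)|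
      ≤ 2 * μ.real (E ∆ F) := by
    refine (abs_measureReal_sub_le_measureReal_symmDiff (hE.inter hE').nullMeasurableSet
      (hF.inter hF').nullMeasurableSet).trans ?_
    have hsub : (E ∩ (fun z => g • z) ⁻¹' E) ∆ (F ∩ (fun z => g • z) ⁻¹' F) ⊆
        (E ∆ F) ∪ (fun z : Cfg Γ × Bits Γ => g • z) ⁻¹' (E ∆ F) := by
      intro z
      simp only [Set.mem_symmDiff, Set.mem_inter_iff, Set.mem_preimage, Set.mem_union]
      tauto
    refine (measureReal_mono hsub).trans ((measureReal_union_le _ _).trans ?_)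
    have : μ.real ((fun z : Cfg Γ × Bits Γ => g • z) ⁻¹' (E ∆ F)) = μ.real (E ∆ F) := by
      rw [Measure.real, hmp.measure_preimage (hE.symmDiff hF).nullMeasurableSet]
      rfl
    linarith
  have h3 : |μ.real E - μ.real F| ≤ μ.real (E ∆ F) :=
    abs_measureReal_sub_le_measureReal_symmDiff hE.nullMeasurableSet hF.nullMeasurableSet
  have h4 : μ.real E ≤ 1 := measureReal_le_one
  have h5 : μ.real F ≤ 1 := measureReal_le_one
  have h6 : 0 ≤ μ.real E := measureReal_nonneg
  have h7 : 0 ≤ μ.real F := measureReal_nonneg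
  have h8 : |μ.real F ^ 2 - μ.real E ^ 2| ≤ 2 * μ.real (E ∆ F) := by
    rw [sq_sub_sq, abs_mul, abs_sub_comm, abs_of_nonneg (by linarith)]
    nlinarith [abs_nonneg (μ.real E - μ.real F)]
  have h9 : ε < |μ.real (E ∩ (fun z => g • z) ⁻¹' E) - μ.real E ^ 2| := hg
  rw [h1] at h2
  have := abs_sub_le (μ.real (E ∩ (fun z => g • z) ⁻¹' E)) (μ.real F ^ 2) (μ.real E ^ 2)
  linarith

end Pool.Agent.H701Z.Fiid.SwapA
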