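import Pool.Agent.H701Z.Fiid.Defs

set_option autoImplicit false

namespace Pool.Agent.H701Z.Fiid

open MeasureTheory

/-- bits -/
abbrev F2 : Type := ZMod 2

/-- the fair measure on bits -/
noncomputable def fair : Measure F2 := ProbabilityTheory.uniformOn Set.univ

instance fair_prob : IsProbabilityMeasure fair := by
  unfold fair; infer_instance

lemma fair_singleton (b : F2) : fair {b} = 2⁻¹ := by
  unfold fair
  rw [ProbabilityTheory.uniformOn_univ]
  simp

/-- fair product measure on `I → F2` -/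
noncomputable def fairPi (I : Type*) : Measure (I → F2) := Measure.infinitePi fun _ : I => fair

instance fairPi_prob (I : Type*) : IsProbabilityMeasure (fairPi I) := by
  unfold fairPi; infer_instance

/-- infinitely many bits at every site -/
def Bits (Γ : Type*) : Type _ := Γ × ℕ → F2

instance (Γ : Type*) : MeasurableSpace (Bits Γ) := inferInstanceAs (MeasurableSpace (Γ × ℕ → F2))
instance (Γ : Type*) : AddCommGroup (Bits Γ) := inferInstanceAs (AddCommGroup (Γ × ℕ → F2))

instance (Γ : Type*) [Group Γ] : MulAction Γ (Bits Γ) where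
  smul γ z := fun p => z (p.1 * γ, p.2)
  one_smul z := by
    funext p
    change z (p.1 * 1, p.2) = z p
    simp
  mul_smul a b z := by
    funext p
    change z (p.1 * (a * b), p.2) = z (p.1 * a * b, p.2)
    rw [mul_assoc]

lemma Bits.smul_apply {Γ : Type*} [Group Γ] (γ : Γ) (z : Bits Γ) (p : Γ × ℕ) :
    (γ • z) p = z (p.1 * γ, p.2) := rfl

/-- the fair measure on `Bits Γ` -/
noncomputable def bitsM (Γ : Type*) : Measure (Bits Γ) := fairPi (Γ × ℕ)

instance bitsM_prob (Γ : Type*) : IsProbabilityMeasure (bitsM Γ) := fairPi_prob _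

lemma measurable_bits_apply {Γ : Type*} (p : Γ × ℕ) : Measurable fun z : Bits Γ => z p :=
  measurable_pi_apply (X := fun _ : Γ × ℕ => F2) p

lemma measurable_to_bits {Γ α : Type*} [MeasurableSpace α] {f : α → Bits Γ}
    (h : ∀ p, Measurable fun a => f a p) : Measurable f :=
  measurable_pi_iff (X := fun _ : Γ × ℕ => F2) |>.2 h

lemma measurePreserving_bits_smul {Γ : Type*} [Group Γ] (γ : Γ) :
    MeasurePreserving (fun z : Bits Γ => γ • z) (bitsM Γ) (bitsM Γ) := by
  refine ⟨measurable_to_bits fun p => measurable_bits_apply _, ?_⟩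
  have h := Measure.map_infinitePi_infinitePi_of_inj (P := fun _ : Γ × ℕ => fair)
    (f := fun p : Γ × ℕ => (p.1 * γ, p.2)) (by
      intro p q h
      simp only [Prod.mk.injEq, mul_left_inj] at h
      exact Prod.ext h.1 h.2)
  exact h

/-- `{0,1}`-configurations with the shift action -/
def Cfg (Γ : Type*) : Type _ := Γ → Bool

instance (Γ : Type*) : MeasurableSpace (Cfg Γ) := inferInstanceAs (MeasurableSpace (Γ → Bool))

instance (Γ : Type*) [Group Γ] : MulAction Γ (Cfg Γ) where
  smul γ x := fun δ => x (δ * γ)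
  one_smul x := by
    funext p
    change x (p * 1) = x p
    simp
  mul_smul a b x := by
    funext p
    change x (p * (a * b)) = x (p * a * b)
    rw [mul_assoc]

lemma Cfg.smul_apply {Γ : Type*} [Group Γ] (γ : Γ) (x : Cfg Γ) (δ : Γ) :
    (γ • x) δ = x (δ * γ) := rfl

/-- Foelner condition -/
def Folner (Γ : Type*) [Group Γ] [DecidableEq Γ] : Prop :=
  ∀ (K : Finset Γ) (ε : ℝ), 0 < ε → ∃ U : Finset Γ, U.Nonempty ∧
    ∀ s ∈ K, (((U.image fun u => u * s) \ U).card : ℝ) ≤ ε * U.card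

/-- A base system: a free measure preserving action whose product with fair bits is mixing,
with a set `S` of positive measure (the sites where one fresh bit may be read). -/
structure Base (Γ : Type*) {Ω : Type*} [Group Γ] [MeasurableSpace Ω] [MulAction Γ Ω]
    (P : Measure Ω) (S : Set Ω) : Prop where
  prob : IsProbabilityMeasure P
  inv : ∀ γ : Γ, MeasurePreserving (fun ω : Ω => γ • ω) P P
  mix : ∀ E : Set (Ω × Bits Γ), MeasurableSet E → ∀ ε : ℝ, 0 < ε →
    {g : Γ | ε < |(P.prod (bitsM Γ)).real (E ∩ (fun z => g • z) ⁻¹' E)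
      - ((P.prod (bitsM Γ)).real E) ^ 2|}.Finite
  free : ∃ κ : ℕ → Ω → Bool, (∀ n, Measurable (κ n)) ∧
    ∀ g : Γ, g ≠ 1 → ∀ᵐ ω ∂P, ∃ n, κ n (g • ω) ≠ κ n ω
  measS : MeasurableSet S
  posS : 0 < P S

/-- `H` only reads `ω` and the level `0` bits at the sites `g` with `g • ω ∈ U`. -/
def DepG (Γ : Type*) {Ω α : Type*} [Group Γ] [MulAction Γ Ω] (U : Set Ω)
    (H : Ω × Bits Γ → α) : Prop :=
  ∀ (ω : Ω) (z z' : Bits Γ), (∀ g : Γ, g • ω ∈ U → z (g, 0) = z' (g, 0)) → H (ω, z) = H (ω, z')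

/-- Almost-everywhere solvability on the Bernoulli shift with base `(X, μ)`. -/
def Solv (X : Type*) [MeasurableSpace X] (μ : Measure X) {Γ : Type*} [Group Γ] (L : LCL Γ) :
    Prop :=
  ∃ f : (Γ → X) → Fin L.k, Measurable f ∧
    ∀ᵐ x ∂(Measure.infinitePi fun _ : Γ => μ), (fun δ : L.F => f (shift (δ : Γ) x)) ∈ L.P

/-- Almost-everywhere solvability on `Bits Γ`. -/
def SolvBits {Γ : Type*} [Group Γ] (L : LCL Γ) : Prop :=
  ∃ f : Bits Γ → Fin L.k, Measurable f ∧
    ∀ᵐ z ∂(bitsM Γ), (fun δ : L.F => f ((δ : Γ) • z)) ∈ L.P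

/-- Solvability over a base system, reading only the allowed bits. -/
def SolvBase {Γ Ω : Type*} [Group Γ] [MeasurableSpace Ω] [MulAction Γ Ω]
    (P : Measure Ω) (S : Set Ω) (L : LCL Γ) : Prop :=
  ∃ H : Ω × Bits Γ → Fin L.k, Measurable H ∧ DepG Γ S H ∧
    ∀ᵐ z ∂(P.prod (bitsM Γ)), (fun δ : L.F => H ((δ : Γ) • z)) ∈ L.P

end Pool.Agent.H701Z.Fiid
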