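import Pool.Agent.H701Z.Fiid.Approx

set_option autoImplicit false

namespace Pool.Agent.H701Z.Fiid

open MeasureTheory
open scoped ENNReal

lemma meas_switch {α β ι : Type*} [MeasurableSpace α] [MeasurableSpace β] [Countable ι]
    (k : α → ι) (hk : ∀ i, MeasurableSet {a | k a = i}) (H : ι → α → β)
    (hH : ∀ i, Measurable (H i)) : Measurable fun a => H (k a) a := by
  intro s hs
  have : (fun a => H (k a) a) ⁻¹' s = ⋃ i, {a | k a = i} ∩ H i ⁻¹' s := by
    ext a; simp
  rw [this]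
  exact MeasurableSet.iUnion fun i => (hk i).inter (hH i hs)

variable {Γ : Type*}

open Classical in
/-- overwrite the bits in `T × [1, m]` -/
noncomputable def wrV (T : Finset Γ) (m : ℕ) (v : T × Fin m → F2) (z : Bits Γ) : Bits Γ :=
  fun p => if h : p.1 ∈ T ∧ 0 < p.2 ∧ p.2 ≤ m then v (⟨p.1, h.1⟩, ⟨p.2 - 1, by omega⟩) else z p

lemma wrV_zero (T : Finset Γ) (m : ℕ) (v : T × Fin m → F2) (z : Bits Γ) (g : Γ) :
    wrV T m v z (g, 0) = z (g, 0) := by
  simp [wrV]

lemma wrV_succ (T : Finset Γ) (m : ℕ) (v : T × Fin m → F2) (z : Bits Γ) {g : Γ} (hg : g ∈ T)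
    {n : ℕ} (hn : n < m) : wrV T m v z (g, n + 1) = v (⟨g, hg⟩, ⟨n, hn⟩) := by
  have : (g, n + 1).1 ∈ T ∧ 0 < (g, n + 1).2 ∧ (g, n + 1).2 ≤ m := ⟨hg, Nat.succ_pos _, hn⟩
  simp only [wrV, dif_pos this]
  rfl

lemma measurable_wrV (T : Finset Γ) (m : ℕ) (v : T × Fin m → F2) : Measurable (wrV T m v) := by
  refine measurable_to_bits fun p => ?_
  unfold wrV
  split_ifs
  · exact measurable_const
  · exact measurable_bits_apply p

open Classical in
theorem tile_data {Ω A : Type*} [Group Γ] [MeasurableSpace Ω] [MulAction Γ Ω] [Fintype A]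
    [MeasurableSpace A] [MeasurableSingletonClass A]
    (hm : ∀ γ : Γ, Measurable fun ω : Ω => γ • ω) (U Int : Set Ω) (hInt : MeasurableSet Int)
    (R : Finset Γ) (m : ℕ) (φ G : Ω × Bits Γ → A) (hφ : Measurable φ) (hG : Measurable G)
    (hφd : DepL Γ U R m φ) (hGd : DepG Γ U G) (θ N : ℝ) (T W : Finset Γ)
    (hN : ∀ g0 : T → A, ((Finset.univ.filter fun f : T → A =>
        ((Finset.univ.filter fun t => f t ≠ g0 t).card : ℝ) ≤ θ).card : ℝ) ≤ N) :
    ∃ (nw : Ω × Bits Γ → Bits Γ) (gs : Γ → Ω × Bits Γ → A) (Bd : Set (Ω × Bits Γ)),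
      Measurable nw ∧ (∀ h, Measurable (gs h)) ∧ MeasurableSet Bd ∧
      ∀ ω : Ω, (∀ h ∈ T, h • ω ∈ Int → ∀ r ∈ R, r * h ∈ T) → (∀ γ ∈ W, γ • ω ∉ U) →
        (∀ z z' : Bits Γ, (∀ g : Γ, g • ω ∈ U → z (g, 0) = z' (g, 0)) →
          (∀ γ ∈ W, nw (ω, z) (γ, 0) = nw (ω, z') (γ, 0)) →
          (∀ h ∈ T, ∀ n < m, nw (ω, z) (h, n + 1) = nw (ω, z') (h, n + 1)) →
          (∀ γ ∈ W, z (γ, 0) = z' (γ, 0)) ∧ ∀ h ∈ T, ∀ n < m, z (h, n + 1) = z' (h, n + 1)) ∧
        (∀ z z' : Bits Γ, (∀ g : Γ, g • ω ∈ U → z (g, 0) = z' (g, 0)) →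
          (∀ γ ∈ W, z (γ, 0) = z' (γ, 0)) →
          (∀ h, gs h (ω, z) = gs h (ω, z')) ∧
          ((∀ h ∈ T, ∀ n < m, z (h, n + 1) = z' (h, n + 1)) →
            ∀ h ∈ T, ∀ n < m, nw (ω, z) (h, n + 1) = nw (ω, z') (h, n + 1))) ∧
        (∀ z y : Bits Γ, (∀ g : Γ, g • ω ∈ U → y (g, 0) = z (g, 0)) →
          (∀ h ∈ T, ∀ n < m, y (h, n + 1) = nw (ω, z) (h, n + 1)) → (ω, z) ∉ Bd →
          ((T.filter fun h => h • ω ∈ Int ∧ φ (h • (ω, y)) ≠ G (h • (ω, y))).card : ℝ) ≤ θ →
          ∀ h ∈ T, h • ω ∈ Int → gs h (ω, z) = φ (h • (ω, y))) ∧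
        (W.card ≤ T.card * m → (bitsM Γ).real {z | (ω, z) ∈ Bd} * 2 ^ W.card ≤ N + 1) := by
  have hsm : ∀ γ : Γ, Measurable fun ζ : Ω × Bits Γ => γ • ζ := fun γ =>
    (hm γ).prodMap (measurePreserving_bits_smul γ).measurable
  let V := T × Fin m → F2
  let Wt := W → F2
  let _i : MeasurableSpace (Option (T → A)) := ⊤
  choose nv nw guess Imp hinj hpure hcard using swap_blocks V Wt (Option (T → A))
  set g0 : Ω × Bits Γ → T → A := fun ζ h => G ((h : Γ) • ζ) with hg0
  set pat : Ω × Bits Γ → V → T → A := fun ζ v h =>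
    if (h : Γ) • ζ.1 ∈ Int then φ ((h : Γ) • (ζ.1, wrV T m v ζ.2)) else G ((h : Γ) • ζ) with hpat
  set mk : (V → T → A) × (T → A) → V → Option (T → A) := fun q v =>
    if ((Finset.univ.filter fun t => q.1 v t ≠ q.2 t).card : ℝ) ≤ θ then some (q.1 v) else none
    with hmk
  set cls : Ω × Bits Γ → V → Option (T → A) := fun ζ => mk (pat ζ, g0 ζ) with hcls
  set rV : Bits Γ → V := fun z p => z (p.1, p.2 + 1) with hrV
  set rW : Bits Γ → Wt := fun z γ => z (γ, 0) with hrW
  have hg0m : Measurable g0 := measurable_pi_iff.2 fun h => hG.comp (hsm _)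
  have hpatm : Measurable pat := by
    refine measurable_pi_iff.2 fun v => measurable_pi_iff.2 fun h => ?_
    refine Measurable.ite (((hm _).comp measurable_fst) hInt) ?_ (hG.comp (hsm _))
    exact hφ.comp ((hsm _).comp
      (measurable_fst.prodMk ((measurable_wrV T m v).comp measurable_snd)))
  have hclsm : Measurable cls := (measurable_of_finite mk).comp (hpatm.prodMk hg0m)
  have hrVm : Measurable rV := measurable_pi_iff.2 fun p => measurable_bits_apply _
  have hrWm : Measurable rW := measurable_pi_iff.2 fun p => measurable_bits_apply _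
  set dat : Ω × Bits Γ → (V → Option (T → A)) × Wt × V := fun ζ => (cls ζ, rW ζ.2, rV ζ.2)
    with hdat
  have hdatm : Measurable dat :=
    hclsm.prodMk ((hrWm.comp measurable_snd).prodMk (hrVm.comp measurable_snd))
  set out : (V → Option (T → A)) × Wt × V → Bits Γ := fun d p =>
    if h : p.2 = 0 ∧ p.1 ∈ W then nw d.1 d.2.1 d.2.2 ⟨p.1, h.2⟩
    else wrV T m (nv d.1 d.2.1 d.2.2) 0 p with hout
  have hout0 : ∀ d (γ : W), out d (γ, 0) = nw d.1 d.2.1 d.2.2 γ := by
    intro d γ
    simp [hout]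
  have hout1 : ∀ d (q : T × Fin m), out d (q.1, q.2 + 1) = nv d.1 d.2.1 d.2.2 q := by
    intro d q
    simp only [hout, Nat.add_eq_zero_iff, one_ne_zero, and_false, false_and, dite_false]
    exact wrV_succ T m _ _ q.1.2 q.2.2
  set gs0 : Γ → ((V → Option (T → A)) × Wt × V) × A → A := fun h d =>
    if hh : h ∈ T then ((guess d.1.1 d.1.2.1).map fun f => f ⟨h, hh⟩).getD d.2 else d.2 with hgs0
  refine ⟨fun ζ => out (dat ζ), fun h ζ => gs0 h (dat ζ, G (h • ζ)),
    dat ⁻¹' {d | d.2.1 ∈ Imp d.1}, (measurable_of_finite out).comp hdatm,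
    fun h => (measurable_of_finite (gs0 h)).comp (hdatm.prodMk (hG.comp (hsm h))),
    hdatm (Set.toFinite _).measurableSet, fun ω hT hW => ?_⟩
  have hGdep : ∀ z z' : Bits Γ, (∀ g : Γ, g • ω ∈ U → z (g, 0) = z' (g, 0)) →
      ∀ h : Γ, G (h • (ω, z)) = G (h • (ω, z')) := by
    intro z z' hz h
    exact hGd (h • ω) (h • z) (h • z') fun g hg => hz (g * h) (by rwa [mul_smul])
  have hφdep : ∀ z z' : Bits Γ, (∀ g : Γ, g • ω ∈ U → z (g, 0) = z' (g, 0)) →
      (∀ h ∈ T, ∀ n < m, z (h, n + 1) = z' (h, n + 1)) →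
      ∀ h ∈ T, h • ω ∈ Int → φ (h • (ω, z)) = φ (h • (ω, z')) := by
    intro z z' hz hz' h hh hI
    exact hφd (h • ω) (h • z) (h • z') (fun g hg => hz (g * h) (by rwa [mul_smul]))
      fun r hr n hn => hz' (r * h) (hT h hh hI r hr) n hn
  have hcdep : ∀ z z' : Bits Γ, (∀ g : Γ, g • ω ∈ U → z (g, 0) = z' (g, 0)) →
      cls (ω, z) = cls (ω, z') := by
    intro z z' hz
    have h1 : g0 (ω, z) = g0 (ω, z') := funext fun h => hGdep z z' hz h
    have h2 : pat (ω, z) = pat (ω, z') := by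
      funext v h
      simp only [hpat]
      split_ifs with hI
      · refine hφdep _ _ (fun g hg => ?_) (fun h hh n hn => ?_) h h.2 hI
        · rw [wrV_zero, wrV_zero, hz g hg]
        · rw [wrV_succ _ _ _ _ hh hn, wrV_succ _ _ _ _ hh hn]
      · exact hGdep z z' hz h
    simp only [hcls, h1, h2]
  refine ⟨?_, ?_, ?_, ?_⟩
  · intro z z' hz h0 h1
    have hc := hcdep z z' hz
    have := hinj (cls (ω, z)) (rW z) (rV z) (rW z') (rV z') ?_ ?_
    · exact ⟨fun γ hγ => congrFun this.1 ⟨γ, hγ⟩,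
        fun h hh n hn => congrFun this.2 (⟨h, hh⟩, ⟨n, hn⟩)⟩
    · funext γ
      have := h0 γ γ.2
      simp only [hout0] at this
      simpa only [hdat, ← hc] using this
    · funext q
      have := h1 q.1 q.1.2 q.2 q.2.2
      simp only [hout1] at this
      simpa only [hdat, ← hc] using this
  · intro z z' hz h0
    have hc := hcdep z z' hz
    have hw : rW z = rW z' := funext fun γ => h0 γ γ.2
    refine ⟨fun h => ?_, fun h1 h hh n hn => ?_⟩
    · simp only [hgs0, hdat, hc, hw, hGdep z z' hz h]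
    · have hv : rV z = rV z' := funext fun q => h1 q.1 q.1.2 q.2 q.2.2
      simp only [hdat, hc, hw, hv]
  · intro z y hy hy1 hBd hle h hh hI
    set v := nv (cls (ω, z)) (rW z) (rV z) with hv
    have hp : cls (ω, z) v = guess (cls (ω, z)) (rW z) := hpure _ _ hBd _
    have hpat' : ∀ t : T, (t : Γ) • ω ∈ Int → pat (ω, z) v t = φ ((t : Γ) • (ω, y)) := by
      intro t ht
      simp only [hpat, if_pos ht]
      refine hφdep _ _ (fun g hg => ?_) (fun h hh n hn => ?_) t t.2 ht
      · rw [wrV_zero, hy g hg]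
      · rw [wrV_succ _ _ _ _ hh hn, hy1 h hh n hn]
        exact (hout1 (dat (ω, z)) (⟨h, hh⟩, ⟨n, hn⟩)).symm
    have htyp : ((Finset.univ.filter fun t => pat (ω, z) v t ≠ g0 (ω, z) t).card : ℝ) ≤ θ := by
      refine le_trans ?_ hle
      refine Nat.cast_le.2 (Finset.card_le_card_of_injOn Subtype.val ?_
        Subtype.val_injective.injOn)
      intro t ht
      simp only [Finset.coe_filter, Finset.mem_univ, true_and, Set.mem_setOf_eq] at ht ⊢
      by_cases hI' : (t : Γ) • ω ∈ Int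
      · refine ⟨t.2, hI', ?_⟩
        rw [← hpat' t hI', hGdep y z hy]
        exact ht
      · exact absurd (by simp only [hpat, hg0, if_neg hI']) ht
    have hsome : cls (ω, z) v = some (pat (ω, z) v) := by
      simp only [hcls, hmk, if_pos htyp]
    simp only [hgs0, hdat, dif_pos hh, ← hp, hsome, Option.map_some, Option.getD_some]
    exact hpat' ⟨h, hh⟩ hI
  · intro hle
    have hImp : ∀ z, ((Imp (cls (ω, z))).card : ℝ) ≤ N + 1 := by
      intro z
      have h1 := hcard (cls (ω, z)) ⟨2 ^ (T.card * m - W.card), by positivity, by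
        simp only [V, Wt, Fintype.card_fun, ZMod.card, Fintype.card_prod, Fintype.card_coe,
          Fintype.card_fin]
        rw [← pow_add]
        congr 1
        omega⟩
      have h2 : ∀ v, cls (ω, z) v ∈ insert none
          ((Finset.univ.filter fun f : T → A => ((Finset.univ.filter
            fun t => f t ≠ g0 (ω, z) t).card : ℝ) ≤ θ).image some) := by
        intro v
        simp only [hcls, hmk]
        split_ifs with h
        · exact Finset.mem_insert_of_mem (Finset.mem_image_of_mem _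
            (Finset.mem_filter.2 ⟨Finset.mem_univ _, h⟩))
        · exact Finset.mem_insert_self _ _
      have h3 := (h1 _ h2).trans ((Finset.card_insert_le _ _).trans
        (Nat.add_le_add_right Finset.card_image_le 1))
      have h4 := hN (g0 (ω, z))
      have h5 : ((Imp (cls (ω, z))).card : ℝ) ≤ ((Finset.univ.filter fun f : T → A =>
          ((Finset.univ.filter fun t => f t ≠ g0 (ω, z) t).card : ℝ) ≤ θ).card : ℝ) + 1 := by
        exact_mod_cast h3
      linarith
    have hN0 : 0 ≤ N + 1 := le_trans (by positivity) (hImp 0)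
    set tr : Wt → Bits Γ := fun d p => if h : p.2 = 0 ∧ p.1 ∈ W then d ⟨p.1, h.2⟩ else 0 with htr
    have hE : MeasurableSet {z : Bits Γ | (ω, z) ∈ dat ⁻¹' {d | d.2.1 ∈ Imp d.1}} :=
      (hdatm.comp measurable_prodMk_left) (Set.toFinite _).measurableSet
    have h6 := measure_le_of_avg (bitsM Γ) (fun (d : Wt) (z : Bits Γ) => z + tr d)
      (fun d => mp_add_fairPi (tr d)) _ hE ⌊N + 1⌋₊ (by
        intro z
        refine le_trans ?_ (Nat.le_floor (hImp z))
        rw [← Set.ncard_coe_finset]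
        refine Set.ncard_le_ncard_of_injOn (fun d => rW z + d) ?_
          (add_right_injective _).injOn (Finset.finite_toSet _)
        intro d hd
        simp only [Set.mem_preimage, Set.mem_setOf_eq, hdat] at hd
        have h1 : cls (ω, z + tr d) = cls (ω, z) := hcdep _ _ fun g hg => by
          have : g ∉ W := fun h => hW g h hg
          change z (g, 0) + tr d (g, 0) = _
          simp [htr, this]
        have h2 : rW (z + tr d) = rW z + d := by
          funext γ
          change z (γ, 0) + tr d (γ, 0) = z (γ, 0) + d γ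
          simp [htr]
        rwa [h1, h2] at hd)
    have h7 : (Fintype.card Wt : ℝ≥0∞) = 2 ^ W.card := by
      simp [Wt]
    rw [h7] at h6
    have h8 := ENNReal.toReal_mono (by simp) h6
    simp only [ENNReal.toReal_mul, ENNReal.toReal_pow, ENNReal.toReal_ofNat,
      ENNReal.toReal_natCast] at h8
    exact h8.trans (Nat.floor_le hN0)

end Pool.Agent.H701Z.Fiid
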